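import Pool.Agent.R40.Cheb

set_option autoImplicit false

open Finset Filter Topology

namespace Pool.Agent.R40

/-- product of a finset of naturals, as a real number -/
noncomputable def prr (F : Finset ℕ) : ℝ := ∏ p ∈ F, (p:ℝ)

lemma prr_pos {F : Finset ℕ} (hF : ∀ p ∈ F, 1 ≤ p) : 0 < prr F :=
  prod_pos fun p hp => by exact_mod_cast hF p hp

lemma prr_insert {F : Finset ℕ} {a : ℕ} (ha : a ∉ F) : prr (insert a F) = a * prr F :=
  prod_insert ha

lemma mass_insert {F : Finset ℕ} {a : ℕ} (ha : a ∉ F) : mass (insert a F) = ell a + mass F :=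
  sum_insert ha

/-- one double swap -/
lemma double_swap (N d : ℕ) (rho : ℝ) (F : Finset ℕ) (a b : ℕ) (s : ℝ) (hN : 1 ≤ N) (hd : 1 ≤ d)
    (hF : F ⊆ PI4 N) (ha : a ∈ F) (had : a + d ∉ F) (had' : a + d ∈ PI4 N)
    (hb : b ∉ F) (hb' : b ∈ PI4 N) (hbd : b + d ∈ F) (hab : (a:ℝ) + s ≤ b) (hs : 0 < s)
    (hdab : (d:ℝ) * ((b:ℝ) - a) ≤ 0.02 * N) (hrho : rho = s / (16 * (N:ℝ) ^ 2))
    (hne1 : a + d ≠ b) :
    insert (a + d) (insert b ((F.erase a).erase (b + d))) ⊆ PI4 N ∧
    |mass (insert (a + d) (insert b ((F.erase a).erase (b + d)))) - mass F| ≤ d / (N:ℝ) ^ 2 ∧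
    prr F * (1 + rho) ≤ prr (insert (a + d) (insert b ((F.erase a).erase (b + d)))) ∧
    prr (insert (a + d) (insert b ((F.erase a).erase (b + d)))) ≤ prr F * (1 + 0.02 / N) := by
  have hNr : (1:ℝ) ≤ N := by exact_mod_cast hN
  have hdr : (1:ℝ) ≤ d := by exact_mod_cast hd
  have haP := mem_PI4.1 (hF ha)
  have hadP := mem_PI4.1 had'
  have hbP := mem_PI4.1 hb'
  have hbdP := mem_PI4.1 (hF hbd)
  have habne : a ≠ b + d := by
    intro h
    have : (a:ℝ) = b + d := by exact_mod_cast h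
    linarith
  set R := (F.erase a).erase (b + d) with hR
  have hRF : R ⊆ F := (erase_subset _ _).trans (erase_subset _ _)
  have hbR : b ∉ R := fun h => hb (hRF h)
  have hadR : a + d ∉ insert b R := by
    rw [mem_insert, not_or]
    exact ⟨hne1, fun h => had (hRF h)⟩
  have hbdE : b + d ∈ F.erase a := mem_erase.2 ⟨habne.symm, hbd⟩
  have hFR : F = insert a (insert (b + d) R) := by
    rw [hR, insert_erase hbdE, insert_erase ha]
  have haR : a ∉ insert (b + d) R := by
    rw [mem_insert, not_or]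
    refine ⟨habne, ?_⟩
    rw [hR]
    intro h
    exact notMem_erase _ _ (mem_of_mem_erase h)
  have hbdR : b + d ∉ R := notMem_erase _ _
  have hR1 : ∀ p ∈ R, 1 ≤ p := fun p hp => by
    have := mem_PI4.1 (hF (hRF hp)); omega
  have hPR : 0 < prr R := prr_pos hR1
  have hmF : mass F = ell a + (ell (b + d) + mass R) := by
    conv_lhs => rw [hFR]
    rw [mass_insert haR, mass_insert hbdR]
  have hpF : prr F = a * ((b + d : ℕ) * prr R) := by
    conv_lhs => rw [hFR]
    rw [prr_insert haR, prr_insert hbdR]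
  have hmF1 : mass (insert (a + d) (insert b R)) = ell (a + d) + (ell b + mass R) := by
    rw [mass_insert hadR, mass_insert hbR]
  have hpF1 : prr (insert (a + d) (insert b R)) = (a + d : ℕ) * (b * prr R) := by
    rw [prr_insert hadR, prr_insert hbR]
  have haN : (N:ℝ) ≤ a := by exact_mod_cast haP.1.le
  have hbN : (N:ℝ) ≤ b := by exact_mod_cast hbP.1.le
  have ha4 : (a:ℝ) ≤ 4 * N := by exact_mod_cast haP.2.1
  have hbd4 : (b:ℝ) + d ≤ 4 * N := by exact_mod_cast hbdP.2.1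
  refine ⟨?_, ?_, ?_, ?_⟩
  · intro p hp
    rw [mem_insert, mem_insert] at hp
    rcases hp with rfl | rfl | h
    · exact had'
    · exact hb'
    · exact hF (hRF h)
  · rw [hmF1, hmF]
    have e1 := ell_sub (a := a) (b := a + d) (by omega) (by omega)
    have e2 := ell_sub (a := b) (b := b + d) (by omega) (by omega)
    push_cast at e1 e2
    have e3 : ((a:ℝ) + d - a) / (a * (a + d + 1)) ≤ d / (N:ℝ) ^ 2 := by
      rw [add_sub_cancel_left]
      apply div_le_div_of_nonneg_left (by positivity) (by positivity)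
      nlinarith
    have e4 : ((b:ℝ) + d - b) / (b * (b + d + 1)) ≤ d / (N:ℝ) ^ 2 := by
      rw [add_sub_cancel_left]
      apply div_le_div_of_nonneg_left (by positivity) (by positivity)
      nlinarith
    have e5 : 0 ≤ ((a:ℝ) + d - a) / (2 * ((a + d) * (a + d + 1))) := by
      rw [add_sub_cancel_left]; positivity
    have e6 : 0 ≤ ((b:ℝ) + d - b) / (2 * ((b + d) * (b + d + 1))) := by
      rw [add_sub_cancel_left]; positivity
    rw [abs_le]
    constructor
    · linarith [e1.1, e2.2]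
    · linarith [e1.2, e2.1]
  · rw [hpF1, hpF]
    have h1 : (a:ℝ) * ((b:ℝ) + d) * (1 + rho) ≤ (a + d) * b := by
      have e0 : 0 < (a:ℝ) * ((b:ℝ) + d) := by
        have : 0 < (a:ℝ) := by linarith
        have : 0 < (b:ℝ) + d := by linarith
        positivity
      have e1 : (a:ℝ) * ((b:ℝ) + d) * rho ≤ s := by
        rw [hrho, mul_div_assoc', div_le_iff₀ (by positivity)]
        have e2 : (a:ℝ) * ((b:ℝ) + d) ≤ 4 * N * (4 * N) :=
          mul_le_mul ha4 hbd4 (by linarith) (by linarith)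
        calc (a:ℝ) * ((b:ℝ) + d) * s ≤ 4 * N * (4 * N) * s := mul_le_mul_of_nonneg_right e2 hs.le
          _ = s * (16 * (N:ℝ) ^ 2) := by ring
      have e3 : s ≤ d * ((b:ℝ) - a) := by
        calc s ≤ 1 * ((b:ℝ) - a) := by linarith
          _ ≤ d * ((b:ℝ) - a) := mul_le_mul_of_nonneg_right hdr (by linarith)
      have e4 : (a:ℝ) * ((b:ℝ) + d) * (1 + rho) = a * (b + d) + (a:ℝ) * ((b:ℝ) + d) * rho := by ring
      have e5 : ((a:ℝ) + d) * b = a * (b + d) + d * (b - a) := by ring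
      rw [e4, e5]
      linarith
    have h2 := mul_le_mul_of_nonneg_right h1 hPR.le
    push_cast
    calc (a:ℝ) * (((b:ℝ) + d) * prr R) * (1 + rho) = (a:ℝ) * ((b:ℝ) + d) * (1 + rho) * prr R := by ring
      _ ≤ ((a:ℝ) + d) * b * prr R := h2
      _ = _ := by ring
  · rw [hpF1, hpF]
    have h1 : ((a:ℝ) + d) * b ≤ (a:ℝ) * ((b:ℝ) + d) * (1 + 0.02 / N) := by
      have e1 : 0.02 * (N:ℝ) ≤ (a:ℝ) * ((b:ℝ) + d) * (0.02 / N) := by
        rw [mul_div_assoc', le_div_iff₀ (by linarith)]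
        have e2 : (N:ℝ) * N ≤ (a:ℝ) * ((b:ℝ) + d) :=
          mul_le_mul haN (by linarith) (by linarith) (by linarith)
        linarith
      have e3 : ((a:ℝ) + d) * b = a * (b + d) + d * (b - a) := by ring
      have e4 : (a:ℝ) * ((b:ℝ) + d) * (1 + 0.02 / N) = a * (b + d) + (a:ℝ) * ((b:ℝ) + d) * (0.02 / N) := by
        ring
      rw [e3, e4]
      linarith
    have h2 := mul_le_mul_of_nonneg_right h1 hPR.le
    push_cast
    calc ((a:ℝ) + d) * ((b:ℝ) * prr R) = ((a:ℝ) + d) * b * prr R := by ring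
      _ ≤ (a:ℝ) * ((b:ℝ) + d) * (1 + 0.02 / N) * prr R := h2
      _ = _ := by ring

/-- the chain of double swaps -/
theorem chain_swaps (N d : ℕ) (rho s : ℝ) (hN : 1 ≤ N) (hd : 1 ≤ d) (hs : 0 < s)
    (hrho : rho = s / (16 * (N:ℝ) ^ 2)) (J : ℕ) : ∀ (F Ca Cb : Finset ℕ), Ca.card = J → Cb.card = J →
    F ⊆ PI4 N → (∀ a ∈ Ca, a ∈ F ∧ a + d ∉ F ∧ a + d ∈ PI4 N) →
    (∀ b ∈ Cb, b ∉ F ∧ b ∈ PI4 N ∧ b + d ∈ F) →
    (∀ q ∈ Ca ∪ Cb, ∀ q' ∈ Ca ∪ Cb, q + d ≠ q') →
    (∀ a ∈ Ca, ∀ b ∈ Cb, (a:ℝ) + s ≤ b ∧ (d:ℝ) * ((b:ℝ) - a) ≤ 0.02 * N) →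
    ∃ F' ⊆ PI4 N, |mass F' - mass F| ≤ J * (d / (N:ℝ) ^ 2) ∧ prr F * (1 + rho) ^ J ≤ prr F' ∧
      prr F' ≤ prr F * (1 + 0.02 / N) ^ J ∧
      ∀ x : ℝ, prr F < x → x ≤ prr F' → ∃ F'' ⊆ PI4 N, |mass F'' - mass F| ≤ J * (d / (N:ℝ) ^ 2) ∧
        prr F'' < x ∧ x ≤ prr F'' * (1 + 0.02 / N) := by
  have hrho0 : 0 < rho := by
    rw [hrho]
    have : (0:ℝ) < N := by exact_mod_cast hN
    positivity
  have hdN : 0 ≤ (d:ℝ) / (N:ℝ) ^ 2 := by positivity
  induction J with
  | zero =>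
    intro F Ca Cb _ _ hF _ _ _ _
    refine ⟨F, hF, by simp, by simp, by simp, ?_⟩
    intro x h1 h2
    exact absurd h1 (not_lt.2 h2)
  | succ J ih =>
    intro F Ca Cb hCa hCb hF hCa1 hCb1 hne hsep
    obtain ⟨a, ha⟩ : Ca.Nonempty := by rw [← Finset.card_pos]; omega
    obtain ⟨b, hb⟩ : Cb.Nonempty := by rw [← Finset.card_pos]; omega
    obtain ⟨ha1, ha2, ha3⟩ := hCa1 a ha
    obtain ⟨hb1, hb2, hb3⟩ := hCb1 b hb
    obtain ⟨hs1, hs2⟩ := hsep a ha b hb
    have haU : a ∈ Ca ∪ Cb := mem_union_left _ ha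
    have hbU : b ∈ Ca ∪ Cb := mem_union_right _ hb
    obtain ⟨hF1, hm1, hp1, hp2⟩ := double_swap N d rho F a b s hN hd hF ha1 ha2 ha3 hb1 hb2 hb3 hs1 hs
      hs2 hrho (hne a haU b hbU)
    set F1 := insert (a + d) (insert b ((F.erase a).erase (b + d))) with hF1def
    have hmem : ∀ x, x ∈ F1 ↔ x = a + d ∨ x = b ∨ (x ≠ b + d ∧ x ≠ a ∧ x ∈ F) := by
      intro x
      rw [hF1def, mem_insert, mem_insert, mem_erase, mem_erase]
    obtain ⟨F', hF', hm', hq1, hq2, hcov⟩ := ih F1 (Ca.erase a) (Cb.erase b)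
      (by rw [card_erase_of_mem ha]; omega) (by rw [card_erase_of_mem hb]; omega) hF1
      (by
        intro a' ha'
        rw [mem_erase] at ha'
        obtain ⟨h1, h2, h3⟩ := hCa1 a' ha'.2
        have ha'U : a' ∈ Ca ∪ Cb := mem_union_left _ ha'.2
        refine ⟨?_, ?_, h3⟩
        · rw [hmem]
          exact Or.inr (Or.inr ⟨(hne b hbU a' ha'U).symm, ha'.1, h1⟩)
        · rw [hmem]
          rintro (h | h | h)
          · exact ha'.1 (by omega)
          · exact hne a' ha'U b hbU h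
          · exact h2 h.2.2)
      (by
        intro b' hb'
        rw [mem_erase] at hb'
        obtain ⟨h1, h2, h3⟩ := hCb1 b' hb'.2
        have hb'U : b' ∈ Ca ∪ Cb := mem_union_right _ hb'.2
        refine ⟨?_, h2, ?_⟩
        · rw [hmem]
          rintro (h | h | h)
          · exact hne a haU b' hb'U h.symm
          · exact hb'.1 h
          · exact h1 h.2.2
        · rw [hmem]
          refine Or.inr (Or.inr ⟨?_, hne b' hb'U a haU, h3⟩)
          intro h
          exact hb'.1 (by omega))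
      (by
        intro q hq q' hq'
        refine hne q ?_ q' ?_
        · rw [mem_union, mem_erase, mem_erase] at hq
          rw [mem_union]; tauto
        · rw [mem_union, mem_erase, mem_erase] at hq'
          rw [mem_union]; tauto)
      (by
        intro a' ha' b' hb'
        exact hsep a' (mem_of_mem_erase ha') b' (mem_of_mem_erase hb'))
    have hPF : 0 < prr F := prr_pos fun p hp => by
      have := mem_PI4.1 (hF hp); omega
    have hNr : (0:ℝ) < N := by exact_mod_cast hN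
    refine ⟨F', hF', ?_, ?_, ?_, ?_⟩
    · have : mass F' - mass F = (mass F' - mass F1) + (mass F1 - mass F) := by ring
      rw [this]
      refine (abs_add_le _ _).trans ?_
      push_cast
      linarith
    · calc prr F * (1 + rho) ^ (J + 1) = prr F * (1 + rho) * (1 + rho) ^ J := by ring
        _ ≤ prr F1 * (1 + rho) ^ J := mul_le_mul_of_nonneg_right hp1 (by positivity)
        _ ≤ prr F' := hq1
    · calc prr F' ≤ prr F1 * (1 + 0.02 / N) ^ J := hq2
        _ ≤ prr F * (1 + 0.02 / N) * (1 + 0.02 / N) ^ J :=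
            mul_le_mul_of_nonneg_right hp2 (by positivity)
        _ = prr F * (1 + 0.02 / N) ^ (J + 1) := by ring
    · intro x hx1 hx2
      by_cases hx : x ≤ prr F1
      · refine ⟨F, hF, ?_, hx1, hx.trans hp2⟩
        rw [sub_self, abs_zero]
        positivity
      · push Not at hx
        obtain ⟨F'', hF'', hm'', h1, h2⟩ := hcov x hx hx2
        refine ⟨F'', hF'', ?_, h1, h2⟩
        have : mass F'' - mass F = (mass F'' - mass F1) + (mass F1 - mass F) := by ring
        rw [this]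
        refine (abs_add_le _ _).trans ?_
        push_cast
        linarith

end Pool.Agent.R40
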