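import Pool.Agent.R40.Exch
import Pool.Agent.R40.Swap

set_option autoImplicit false

open Finset Filter Topology

namespace Pool.Agent.R40

/-- `n` is primitive non-deficient: `σ(n) ≥ 2n` and `σ(d) < 2d` for all proper divisors `d` of `n` -/
def PND (n : ℕ) : Prop :=
  0 < n ∧ 2 * n ≤ ∑ e ∈ n.divisors, e ∧ ∀ d, d ∣ n → d < n → ∑ e ∈ d.divisors, e < 2 * d

/-- the function `g(n) = (n/φ(n) - 2)√n` -/
noncomputable def g (n : ℕ) : ℝ := ((n:ℝ) / (Nat.totient n : ℝ) - 2) * √(n:ℝ)

/-- the record setters of `g` among odd primitive non-deficient numbers -/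
def B2 (n : ℕ) : Prop := Odd n ∧ PND n ∧ ∀ k, k < n → Odd k → PND k → g k < g n

lemma exp_ell {p : ℕ} (hp : 1 ≤ p) : Real.exp (ell p) = 1 + 1 / (p:ℝ) := by
  unfold ell
  rw [Real.exp_log]
  have : (0:ℝ) < p := by exact_mod_cast hp
  positivity

lemma exp_ell_add_ww {p : ℕ} (hp : 2 ≤ p) : Real.exp (ell p + ww p) = (1 - ((p:ℝ))⁻¹)⁻¹ := by
  have hp0 : (2:ℝ) ≤ p := by exact_mod_cast hp
  have h1 : (0:ℝ) < 1 - 1 / (p:ℝ) ^ 2 := by
    rw [sub_pos, div_lt_one (by positivity)]
    nlinarith
  unfold ell ww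
  rw [Real.exp_add, Real.exp_log (by positivity), Real.exp_neg, Real.exp_log h1]
  have h2 : (p:ℝ) ≠ 0 := by positivity
  have h3 : (p:ℝ) - 1 ≠ 0 := by
    intro h; linarith
  have h4 : (p:ℝ) + 1 ≠ 0 := by positivity
  have h5 : 1 - 1 / (p:ℝ) ^ 2 = ((p:ℝ) - 1) * (p + 1) / p ^ 2 := by field_simp; ring
  have h6 : 1 - ((p:ℝ))⁻¹ = ((p:ℝ) - 1) / p := by field_simp
  rw [h5, h6]
  field_simp

lemma sigma_prod (B : Finset ℕ) (hB : ∀ p ∈ B, p.Prime) :
    ((∑ e ∈ (∏ p ∈ B, p).divisors, e : ℕ) : ℝ) = prr B * Real.exp (mass B) := by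
  classical
  have key : ArithmeticFunction.sigma 1 (∏ p ∈ B, p) = ∏ p ∈ B, (p + 1) := by
    induction B using Finset.induction_on with
    | empty => simp
    | insert a B ha ih =>
      have haP : a.Prime := hB a (mem_insert_self _ _)
      have hB' : ∀ p ∈ B, p.Prime := fun p hp => hB p (mem_insert_of_mem hp)
      rw [prod_insert ha, prod_insert ha]
      have hcop : Nat.Coprime a (∏ p ∈ B, p) := by
        apply Nat.Coprime.prod_right
        intro p hp
        rw [Nat.coprime_primes haP (hB' p hp)]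
        rintro rfl
        exact ha hp
      rw [ArithmeticFunction.isMultiplicative_sigma.map_mul_of_coprime hcop, ih hB']
      congr 1
      rw [ArithmeticFunction.sigma_one_apply, haP.sum_divisors]
  rw [← ArithmeticFunction.sigma_one_apply, key]
  unfold prr mass
  rw [Real.exp_sum, ← prod_mul_distrib]
  push_cast
  apply prod_congr rfl
  intro p hp
  have h1 := (hB p hp).one_lt
  rw [exp_ell (by omega)]
  have : (p:ℝ) ≠ 0 := by
    have : (0:ℝ) < p := by exact_mod_cast (by omega : 0 < p)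
    positivity
  field_simp

lemma ratio_eq {n : ℕ} (hn : 0 < n) : (n:ℝ) / (Nat.totient n : ℝ) =
    Real.exp (mass n.primeFactors + wt n.primeFactors) := by
  have h1 : ((Nat.totient n : ℕ) : ℝ) = (n:ℝ) * ∏ p ∈ n.primeFactors, (1 - ((p:ℝ))⁻¹) := by
    have := Nat.totient_eq_mul_prod_factors n
    have h2 : (((Nat.totient n : ℕ) : ℚ) : ℝ) = ((n:ℚ) * ∏ p ∈ n.primeFactors, (1 - ((p:ℚ))⁻¹) : ℚ) := by
      rw [this]
    push_cast at h2
    exact h2
  rw [h1]
  have hn0 : (n:ℝ) ≠ 0 := by
    have : (0:ℝ) < n := by exact_mod_cast hn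
    positivity
  unfold mass wt
  rw [← sum_add_distrib, Real.exp_sum]
  have h3 : ∏ p ∈ n.primeFactors, Real.exp (ell p + ww p) = (∏ p ∈ n.primeFactors, (1 - ((p:ℝ))⁻¹))⁻¹ := by
    rw [← prod_inv_distrib]
    apply prod_congr rfl
    intro p hp
    exact exp_ell_add_ww (Nat.prime_of_mem_primeFactors hp).two_le
  rw [h3]
  have hne : (∏ p ∈ n.primeFactors, (1 - ((p:ℝ))⁻¹)) ≠ 0 := by
    rw [prod_ne_zero_iff]
    intro p hp h
    have h4 := (Nat.prime_of_mem_primeFactors hp).one_lt
    have h5 : (1:ℝ) < p := by exact_mod_cast h4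
    have h6 : ((p:ℝ))⁻¹ < 1 := inv_lt_one_of_one_lt₀ h5
    linarith
  field_simp

lemma op_of_odd {n : ℕ} (hn : Odd n) : ∀ p ∈ n.primeFactors, OP p := by
  intro p hp
  have h1 := Nat.prime_of_mem_primeFactors hp
  have h2 := Nat.dvd_of_mem_primeFactors hp
  refine ⟨h1, ?_⟩
  rcases h1.eq_two_or_odd with h | h
  · subst h
    rw [Nat.odd_iff] at hn
    omega
  · have := h1.two_le
    omega

/-- a squarefree deficient number has mass < log 2 -/
lemma mass_lt_of_deficient {n : ℕ} (hn : 0 < n) (hsq : ∏ p ∈ n.primeFactors, p = n)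
    (h : ∑ e ∈ n.divisors, e < 2 * n) : mass n.primeFactors < Real.log 2 := by
  have h1 := sigma_prod n.primeFactors (fun p hp => Nat.prime_of_mem_primeFactors hp)
  rw [hsq] at h1
  have h2 : prr n.primeFactors = n := by
    unfold prr
    rw [← Nat.cast_prod, hsq]
  rw [h2] at h1
  have h3 : ((∑ e ∈ n.divisors, e : ℕ) : ℝ) < 2 * n := by exact_mod_cast h
  rw [h1] at h3
  have hn0 : (0:ℝ) < n := by exact_mod_cast hn
  have h4 : Real.exp (mass n.primeFactors) < 2 := by
    by_contra hc
    push Not at hc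
    have := mul_le_mul_of_nonneg_left hc hn0.le
    linarith
  rw [← Real.exp_lt_exp, Real.exp_log (by norm_num)]
  exact h4

lemma ratio_lt_of_mass_lt {v : ℝ} (hv : Bnd v) {n : ℕ} (hn : 0 < n) (hodd : Odd n)
    (h : mass n.primeFactors < Real.log 2) : (n:ℝ) / (Nat.totient n : ℝ) < 2 * Real.exp v := by
  rw [ratio_eq hn]
  have h1 := hv n.primeFactors (op_of_odd hodd) h.le
  calc Real.exp (mass n.primeFactors + wt n.primeFactors) < Real.exp (Real.log 2 + v) :=
        Real.exp_lt_exp.2 (by linarith)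
    _ = 2 * Real.exp v := by rw [Real.exp_add, Real.exp_log (by norm_num)]

/-- either `n` has small ratio or it is squarefree -/
lemma squarefree_of_ratio {v : ℝ} (hv : Bnd v) {n : ℕ} (hodd : Odd n) (hP : PND n)
    (h : 2 * Real.exp v ≤ (n:ℝ) / (Nat.totient n : ℝ)) : ∏ p ∈ n.primeFactors, p = n := by
  by_contra hne
  obtain ⟨hn, _, hprop⟩ := hP
  set r := ∏ p ∈ n.primeFactors, p with hr
  have hrn : r ∣ n := Nat.prod_primeFactors_dvd n
  have hrlt : r < n := lt_of_le_of_ne (Nat.le_of_dvd hn hrn) hne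
  have hr0 : 0 < r := Nat.pos_of_dvd_of_pos hrn hn
  have hrf : r.primeFactors = n.primeFactors :=
    Nat.primeFactors_prod (fun p hp => Nat.prime_of_mem_primeFactors hp)
  have hdef := hprop r hrn hrlt
  have h1 := mass_lt_of_deficient hr0 (by rw [hrf]) hdef
  rw [hrf] at h1
  have := ratio_lt_of_mass_lt hv hn hodd h1
  linarith

lemma erase_mass_lt {n : ℕ} (hP : PND n) (hsq : ∏ p ∈ n.primeFactors, p = n) {p : ℕ}
    (hp : p ∈ n.primeFactors) : mass (n.primeFactors.erase p) < Real.log 2 := by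
  obtain ⟨hn, _, hprop⟩ := hP
  set r := ∏ q ∈ n.primeFactors.erase p, q with hr
  have hpp := Nat.prime_of_mem_primeFactors hp
  have hrn : p * r = n := by
    have := mul_prod_erase n.primeFactors (fun q => q) hp
    rw [hsq] at this
    exact this
  have hr0 : 0 < r := by
    rcases Nat.eq_zero_or_pos r with h | h
    · rw [h, mul_zero] at hrn; omega
    · exact h
  have hrlt : r < n := by
    rw [← hrn]
    have := hpp.two_le
    nlinarith
  have hrf : r.primeFactors = n.primeFactors.erase p :=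
    Nat.primeFactors_prod (fun q hq => Nat.prime_of_mem_primeFactors (mem_of_mem_erase hq))
  have hdef := hprop r (Dvd.intro_left p hrn) hrlt
  have h1 := mass_lt_of_deficient hr0 (by rw [hrf]) hdef
  rwa [hrf] at h1

/-- bound for the ratio through one prime factor -/
lemma ratio_lt_prime {v : ℝ} (hv : Bnd v) {n : ℕ} (hodd : Odd n) (hP : PND n)
    (hsq : ∏ p ∈ n.primeFactors, p = n) {p : ℕ} (hp : p ∈ n.primeFactors) :
    (n:ℝ) / (Nat.totient n : ℝ) < 2 * Real.exp v * (1 + 1 / ((p:ℝ) - 1)) := by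
  have h1 := erase_mass_lt hP hsq hp
  have hpp := Nat.prime_of_mem_primeFactors hp
  have hp1 : (1:ℝ) < p := by exact_mod_cast hpp.one_lt
  have h2 := hv (n.primeFactors.erase p) (fun q hq => op_of_odd hodd q (mem_of_mem_erase hq)) h1.le
  rw [ratio_eq hP.1]
  have e1 : mass n.primeFactors = ell p + mass (n.primeFactors.erase p) :=
    (add_sum_erase _ _ hp).symm
  have e2 : wt n.primeFactors = ww p + wt (n.primeFactors.erase p) :=
    (add_sum_erase _ _ hp).symm
  have e3 : (1 - ((p:ℝ))⁻¹)⁻¹ = 1 + 1 / ((p:ℝ) - 1) := by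
    have : (p:ℝ) ≠ 0 := by positivity
    have h3 : (p:ℝ) - 1 ≠ 0 := by
      intro h; linarith
    have h6 : 1 - ((p:ℝ))⁻¹ = ((p:ℝ) - 1) / p := by field_simp
    rw [h6]; field_simp; ring
  rw [e1, e2, ← e3, ← exp_ell_add_ww hpp.two_le]
  calc Real.exp (ell p + mass (n.primeFactors.erase p) + (ww p + wt (n.primeFactors.erase p)))
      < Real.exp ((Real.log 2 + v) + (ell p + ww p)) := Real.exp_lt_exp.2 (by linarith)
    _ = 2 * Real.exp v * Real.exp (ell p + ww p) := by
        rw [Real.exp_add, Real.exp_add (Real.log 2), Real.exp_log (by norm_num)]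

/-- construction of odd primitive non-deficient numbers -/
lemma pnd_prod (B : Finset ℕ) (hB : ∀ p ∈ B, OP p) (h1 : Real.log 2 ≤ mass B)
    (h2 : ∀ p ∈ B, mass B - ell p < Real.log 2) : Odd (∏ p ∈ B, p) ∧ PND (∏ p ∈ B, p) := by
  classical
  have hBp : ∀ p ∈ B, p.Prime := fun p hp => (hB p hp).1
  have hpf : (∏ p ∈ B, p).primeFactors = B := Nat.primeFactors_prod hBp
  have hpos : 0 < ∏ p ∈ B, p := prod_pos fun p hp => (hBp p hp).pos
  refine ⟨?_, hpos, ?_, ?_⟩
  · apply Finset.prod_induction _ Odd (fun a b ha hb => ha.mul hb) odd_one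
    intro p hp
    rcases (hBp p hp).eq_two_or_odd' with h | h
    · have := (hB p hp).2; omega
    · exact h
  · have e1 := sigma_prod B hBp
    have e2 : (2:ℝ) ≤ Real.exp (mass B) := by
      rw [← Real.exp_log (show (0:ℝ) < 2 by norm_num)]
      exact Real.exp_le_exp.2 h1
    have e3 : prr B = ((∏ p ∈ B, p : ℕ) : ℝ) := by unfold prr; push_cast; rfl
    have e4 : (2 * ((∏ p ∈ B, p : ℕ) : ℝ)) ≤ ((∑ e ∈ (∏ p ∈ B, p).divisors, e : ℕ) : ℝ) := by
      rw [e1, e3, mul_comm]
      exact mul_le_mul_of_nonneg_left e2 (by positivity)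
    exact_mod_cast e4
  · intro d hd hdlt
    have hd0 : 0 < d := Nat.pos_of_dvd_of_pos hd hpos
    have hsqf : Squarefree (∏ p ∈ B, p) := by
      apply Finset.squarefree_prod_of_pairwise_isCoprime
      · intro p hp q hq hpq
        simp only [Function.onFun]
        rw [← Nat.coprime_iff_isRelPrime, Nat.coprime_primes (hBp p hp) (hBp q hq)]
        exact hpq
      · intro p hp
        exact (hBp p hp).prime.squarefree
    have hdsq : Squarefree d := hsqf.squarefree_of_dvd hd
    have hdprod : ∏ p ∈ d.primeFactors, p = d := Nat.prod_primeFactors_of_squarefree hdsq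
    have hsub : d.primeFactors ⊆ B := by
      have := Nat.primeFactors_mono hd hpos.ne'
      rwa [hpf] at this
    obtain ⟨p, hpB, hpd⟩ : ∃ p ∈ B, p ∉ d.primeFactors := by
      by_contra hcon
      push Not at hcon
      have heq : d.primeFactors = B := Finset.Subset.antisymm hsub hcon
      rw [heq] at hdprod
      omega
    have hmass : mass d.primeFactors ≤ mass B - ell p := by
      have e1 : mass B = ell p + mass (B.erase p) := (add_sum_erase _ _ hpB).symm
      have e2 : mass d.primeFactors ≤ mass (B.erase p) := by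
        apply sum_le_sum_of_subset_of_nonneg
        · intro q hq
          rw [mem_erase]
          refine ⟨?_, hsub hq⟩
          rintro rfl
          exact hpd hq
        · intro q hq _
          exact (ell_pos (hBp q (mem_of_mem_erase hq)).one_lt.le).le
      linarith
    have hlt : mass d.primeFactors < Real.log 2 := lt_of_le_of_lt hmass (h2 p hpB)
    have e1 := sigma_prod d.primeFactors (fun p hp => Nat.prime_of_mem_primeFactors hp)
    rw [hdprod] at e1
    have e3 : prr d.primeFactors = (d:ℝ) := by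
      unfold prr
      rw [← Nat.cast_prod, hdprod]
    rw [e3] at e1
    have e2 : Real.exp (mass d.primeFactors) < 2 := by
      rw [← Real.exp_log (show (0:ℝ) < 2 by norm_num)]
      exact Real.exp_lt_exp.2 hlt
    have hd0' : (0:ℝ) < d := by exact_mod_cast hd0
    have e4 : ((∑ e ∈ d.divisors, e : ℕ) : ℝ) < 2 * (d:ℝ) := by
      rw [e1, mul_comm 2]
      exact mul_lt_mul_of_pos_left e2 hd0'
    exact_mod_cast e4

end Pool.Agent.R40
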