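import Pool.Agent.R40.Cheb

set_option autoImplicit false

open Finset Filter Topology

namespace Pool.Agent.R40

/-- many pairs of primes with the same difference, close to each other -/
theorem chain_class (lam : ℝ) (hlam : 0 < lam) : ∀ᶠ N : ℕ in atTop, ∃ (d : ℕ) (C : Finset ℕ),
    1 ≤ d ∧ (d:ℝ) ≤ (N:ℝ) ^ (1/4 : ℝ) ∧ (N:ℝ) ^ (3/4 : ℝ) ≤ C.card ∧
    (∀ q ∈ C, q ∈ PI4 N ∧ q + d ∈ PI4 N) ∧ (∀ q ∈ C, ∀ q' ∈ C, q + d ≠ q') ∧
    (∀ q ∈ C, ∀ q' ∈ C, q ≤ q' → (d:ℝ) * ((q':ℝ) - q) ≤ lam * N) := by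
  classical
  -- analytic conditions
  have t1 : ∀ e : ℝ, 0 < e → Tendsto (fun x : ℝ => x ^ e) atTop atTop := fun e he =>
    tendsto_rpow_atTop he
  have c1 : ∀ᶠ x : ℝ in atTop, x ^ (49/50 : ℝ) ≤ x / Real.log (4 * x) := by
    filter_upwards [(t1 (1/100) (by norm_num)).eventually_ge_atTop 400, eventually_ge_atTop 4] with x hx hx4
    have hx0 : 0 < x := by linarith
    have hlog : 0 < Real.log (4 * x) := Real.log_pos (by linarith)
    rw [le_div_iff₀ hlog]
    have e1 : Real.log (4 * x) ≤ (4 * x) ^ (1/200 : ℝ) / (1/200) :=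
      Real.log_le_rpow_div (by linarith) (by norm_num)
    have e2 : (4 * x) ^ (1/200 : ℝ) ≤ (x * x) ^ (1/200 : ℝ) :=
      Real.rpow_le_rpow (by linarith) (by nlinarith) (by norm_num)
    have e3 : (x * x) ^ (1/200 : ℝ) = x ^ (1/100 : ℝ) := by
      rw [Real.mul_rpow hx0.le hx0.le, ← Real.rpow_add hx0]; norm_num
    have e4 : Real.log (4 * x) ≤ x ^ (1/50 : ℝ) := by
      calc Real.log (4 * x) ≤ 200 * x ^ (1/100 : ℝ) := by
            rw [e3] at e2
            have : (4 * x) ^ (1/200 : ℝ) / (1/200) = 200 * (4 * x) ^ (1/200 : ℝ) := by ring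
            rw [this] at e1
            linarith
        _ ≤ x ^ (1/100 : ℝ) * x ^ (1/100 : ℝ) := by
            apply mul_le_mul_of_nonneg_right (by linarith) (by positivity)
        _ = x ^ (1/50 : ℝ) := by rw [← Real.rpow_add hx0]; norm_num
    calc x ^ (49/50 : ℝ) * Real.log (4 * x) ≤ x ^ (49/50 : ℝ) * x ^ (1/50 : ℝ) :=
          mul_le_mul_of_nonneg_left e4 (by positivity)
      _ = x := by rw [← Real.rpow_add hx0]; norm_num
  have c2 : ∀ᶠ x : ℝ in atTop, 10 * x ^ (19/20 : ℝ) + 2 ≤ x ^ (49/50 : ℝ) := by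
    filter_upwards [(t1 (3/100) (by norm_num)).eventually_ge_atTop 12, eventually_ge_atTop 1] with x hx hx1
    have hx0 : 0 < x := by linarith
    have e1 : 1 ≤ x ^ (19/20 : ℝ) := Real.one_le_rpow hx1 (by norm_num)
    calc 10 * x ^ (19/20 : ℝ) + 2 ≤ 12 * x ^ (19/20 : ℝ) := by linarith
      _ ≤ x ^ (3/100 : ℝ) * x ^ (19/20 : ℝ) := mul_le_mul_of_nonneg_right hx (by positivity)
      _ = x ^ (49/50 : ℝ) := by rw [← Real.rpow_add hx0]; norm_num
  have c3 : ∀ᶠ x : ℝ in atTop, 4 / lam * 4 ≤ x ^ (19/20 : ℝ) := (t1 _ (by norm_num)).eventually_ge_atTop _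
  have c4 : ∀ᶠ x : ℝ in atTop, 1000 / lam + 1000 ≤ x ^ (1/20 : ℝ) :=
    (t1 _ (by norm_num)).eventually_ge_atTop _
  have c5 : ∀ᶠ x : ℝ in atTop, lam ≤ x ^ (1/20 : ℝ) :=
    (t1 _ (by norm_num)).eventually_ge_atTop _
  have cN := tendsto_natCast_atTop_atTop.eventually ((c1.and c2).and (c3.and (c4.and c5)))
  filter_upwards [cN, card_PI4, eventually_ge_atTop 4] with N hN hcard hN4
  obtain ⟨⟨h1, h2⟩, h3, h4, h5'⟩ := hN
  have hx4 : (4:ℝ) ≤ (N:ℝ) := by exact_mod_cast hN4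
  set x : ℝ := (N:ℝ) with hx
  have hx0 : 0 < x := by linarith
  have hx1 : 1 ≤ x := by linarith
  set D : ℕ := ⌈x ^ (1/20 : ℝ)⌉₊ with hD
  have hDlo : x ^ (1/20 : ℝ) ≤ D := Nat.le_ceil _
  have hone : 1 ≤ x ^ (1/20 : ℝ) := Real.one_le_rpow hx1 (by norm_num)
  have hDhi : (D:ℝ) ≤ 2 * x ^ (1/20 : ℝ) := by
    have := Nat.ceil_lt_add_one (show 0 ≤ x ^ (1/20 : ℝ) by positivity)
    linarith
  have hDr : (1:ℝ) ≤ D := hone.trans hDlo
  have hDpos : 0 < D := by exact_mod_cast (by linarith : (0:ℝ) < D)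
  set P := PI4 N with hP
  set T := P.image (fun p => p / D) with hT
  have hTcard : (T.card : ℝ) ≤ 4 * x ^ (19/20 : ℝ) + 1 := by
    have e1 : T ⊆ range (4 * N / D + 1) := by
      intro t ht
      rw [hT, mem_image] at ht
      obtain ⟨p, hp, rfl⟩ := ht
      rw [hP, mem_PI4] at hp
      rw [mem_range]
      have := Nat.div_le_div_right (c := D) hp.2.1
      omega
    have e2 : T.card ≤ 4 * N / D + 1 := by
      have := card_le_card e1
      rwa [card_range] at this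
    have e3 : ((4 * N / D : ℕ) : ℝ) ≤ 4 * x / D := by
      refine Nat.cast_div_le.trans ?_
      push_cast; exact le_rfl
    have e4 : 4 * x / D ≤ 4 * x ^ (19/20 : ℝ) := by
      rw [div_le_iff₀ (by linarith)]
      calc 4 * x = 4 * (x ^ (19/20 : ℝ) * x ^ (1/20 : ℝ)) := by
            rw [← Real.rpow_add hx0]; norm_num
        _ ≤ 4 * (x ^ (19/20 : ℝ) * D) := by
            apply mul_le_mul_of_nonneg_left _ (by norm_num)
            exact mul_le_mul_of_nonneg_left hDlo (by positivity)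
        _ = _ := by ring
    have e5 : (T.card : ℝ) ≤ ((4 * N / D : ℕ) : ℝ) + 1 := by exact_mod_cast e2
    linarith
  set T2 := T.filter (fun β => 1 < (P.filter (fun p => p / D = β)).card) with hT2
  have hfib : ∀ β, (P.filter (fun p => p / D = β)).card ≤ D := by
    intro β
    have e1 : P.filter (fun p => p / D = β) ⊆ Finset.Ico (D * β) (D * β + D) := by
      intro p hp
      rw [mem_filter] at hp
      rw [mem_Ico]
      have h5 := Nat.div_add_mod p D
      have h6 := Nat.mod_lt p hDpos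
      rw [hp.2] at h5
      omega
    have := card_le_card e1
    rwa [Nat.card_Ico, Nat.add_sub_cancel_left] at this
  have hPT : (P.card : ℝ) ≤ T.card + D * T2.card := by
    have e1 : P.card = ∑ β ∈ T, (P.filter (fun p => p / D = β)).card :=
      card_eq_sum_card_fiberwise (fun p hp => mem_image_of_mem _ hp)
    have e2 : ∀ β ∈ T, (P.filter (fun p => p / D = β)).card ≤
        1 + D * (if 1 < (P.filter (fun p => p / D = β)).card then 1 else 0) := by
      intro β _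
      split_ifs with h
      · have := hfib β; omega
      · omega
    have e3 : P.card ≤ T.card + D * T2.card := by
      rw [e1]
      refine (sum_le_sum e2).trans ?_
      rw [sum_add_distrib, ← mul_sum, hT2, card_filter]
      simp
    exact_mod_cast e3
  have hT2card : x ^ (9/10 : ℝ) ≤ T2.card := by
    have e1 : x ^ (49/50 : ℝ) ≤ P.card := h1.trans hcard
    have e2 : 3 * x ^ (19/20 : ℝ) ≤ D * T2.card := by
      have : 0 ≤ x ^ (19/20 : ℝ) := by positivity
      linarith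
    have e3 : (D:ℝ) * T2.card ≤ 2 * x ^ (1/20 : ℝ) * T2.card :=
      mul_le_mul_of_nonneg_right hDhi (by positivity)
    have e4 : x ^ (19/20 : ℝ) = x ^ (1/20 : ℝ) * x ^ (9/10 : ℝ) := by
      rw [← Real.rpow_add hx0]; norm_num
    rw [e4] at e2
    have e5 : x ^ (1/20 : ℝ) * (3 * x ^ (9/10 : ℝ)) ≤ x ^ (1/20 : ℝ) * (2 * T2.card) := by linarith
    have e6 := le_of_mul_le_mul_left e5 (by positivity)
    have : 0 ≤ x ^ (9/10 : ℝ) := by positivity
    linarith
  -- choice of pairs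
  have hpair : ∀ β ∈ T2, ∃ q q', q ∈ P ∧ q' ∈ P ∧ q / D = β ∧ q' / D = β ∧ q < q' := by
    intro β hβ
    rw [hT2, mem_filter] at hβ
    obtain ⟨a, ha, b, hb, hab⟩ := one_lt_card.1 hβ.2
    rw [mem_filter] at ha hb
    rcases lt_or_gt_of_ne hab with h | h
    · exact ⟨a, b, ha.1, hb.1, ha.2, hb.2, h⟩
    · exact ⟨b, a, hb.1, ha.1, hb.2, ha.2, h⟩
  choose! qf qf' hq1 hq2 hq3 hq4 hq5 using hpair
  set M : ℕ := ⌊lam * x / D⌋₊ with hM
  have hMhi : (M:ℝ) ≤ lam * x / D := Nat.floor_le (by positivity)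
  have hMlo : lam * x / (2 * D) ≤ M := by
    have e1 := Nat.lt_floor_add_one (lam * x / D)
    have e2 : 2 ≤ lam * x / D := by
      rw [le_div_iff₀ (by linarith)]
      have e3 : x = x ^ (19/20 : ℝ) * x ^ (1/20 : ℝ) := by
        rw [← Real.rpow_add hx0]; norm_num
      have e4 : 4 * 4 / lam * lam ≤ x ^ (19/20 : ℝ) * lam := by
        apply mul_le_mul_of_nonneg_right _ hlam.le
        have : 4 * 4 / lam = 4 / lam * 4 := by ring
        rw [this]; exact h3
      have e5 : 4 * 4 / lam * lam = 16 := by field_simp; norm_num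
      rw [e5] at e4
      calc 2 * (D:ℝ) ≤ 4 * x ^ (1/20 : ℝ) := by linarith
        _ ≤ (x ^ (19/20 : ℝ) * lam) * x ^ (1/20 : ℝ) := by
            apply mul_le_mul_of_nonneg_right _ (by positivity)
            linarith
        _ = lam * (x ^ (19/20 : ℝ) * x ^ (1/20 : ℝ)) := by ring
        _ = lam * x := by rw [← e3]
    have e6 : lam * x / (2 * D) = (lam * x / D) / 2 := by field_simp
    rw [e6]
    have e7 : (M:ℝ) + 1 > lam * x / D := e1
    linarith
  have hMpos : (0:ℝ) < M := lt_of_lt_of_le (by positivity) hMlo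
  have hMpos' : 0 < M := by exact_mod_cast hMpos
  -- pigeonhole
  set key : ℕ → ℕ × ℕ := fun β => (qf' β - qf β, qf β / M) with hkey
  set box : Finset (ℕ × ℕ) := range D ×ˢ range (4 * N / M + 1) with hbox
  have hmaps : ∀ β ∈ T2, key β ∈ box := by
    intro β hβ
    rw [hbox, mem_product, mem_range, mem_range]
    constructor
    · simp only [hkey]
      have e1 := Nat.div_add_mod (qf β) D
      have e2 := Nat.div_add_mod (qf' β) D
      have e3 := Nat.mod_lt (qf' β) hDpos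
      rw [hq3 β hβ] at e1
      rw [hq4 β hβ] at e2
      omega
    · simp only [hkey]
      have e1 := hq1 β hβ
      rw [hP, mem_PI4] at e1
      have := Nat.div_le_div_right (c := M) e1.2.1
      omega
  have hboxcard : (box.card : ℝ) ≤ 2 * x ^ (1/20 : ℝ) * (17 / lam * x ^ (1/20 : ℝ)) := by
    rw [hbox, card_product, card_range, card_range]
    push_cast
    apply mul_le_mul hDhi _ (by positivity) (by positivity)
    have e1 : ((4 * N / M : ℕ) : ℝ) ≤ 4 * x / M := by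
      refine Nat.cast_div_le.trans ?_
      push_cast; exact le_rfl
    have e2 : 4 * x / M ≤ 8 * D / lam := by
      rw [div_le_div_iff₀ hMpos hlam]
      have e3 : lam * x / (2 * D) * (8 * D) ≤ M * (8 * D) :=
        mul_le_mul_of_nonneg_right hMlo (by positivity)
      have e4 : lam * x / (2 * D) * (8 * D) = 4 * x * lam := by field_simp; norm_num
      rw [e4] at e3
      linarith
    have e5 : 8 * (D:ℝ) / lam ≤ 16 / lam * x ^ (1/20 : ℝ) := by
      rw [div_mul_eq_mul_div, div_le_div_iff_of_pos_right hlam]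
      linarith
    have e6 : 1 ≤ 1 / lam * x ^ (1/20 : ℝ) := by
      rw [one_div_mul_eq_div, le_div_iff₀ hlam, one_mul]
      exact h5'
    calc ((4 * N / M : ℕ) : ℝ) + 1 ≤ 16 / lam * x ^ (1/20 : ℝ) + 1 / lam * x ^ (1/20 : ℝ) := by
          linarith
      _ = 17 / lam * x ^ (1/20 : ℝ) := by ring
  set n0 : ℕ := ⌊x ^ (3/4 : ℝ)⌋₊ with hn0
  have hn0le : (n0:ℝ) ≤ x ^ (3/4 : ℝ) := Nat.floor_le (by positivity)
  have hcount : box.card * n0 < T2.card := by
    have hxx : x ^ (9/10 : ℝ) = x ^ (1/20 : ℝ) * (x ^ (1/20 : ℝ) * (x ^ (1/20 : ℝ) * x ^ (3/4 : ℝ))) := by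
      rw [← Real.rpow_add hx0, ← Real.rpow_add hx0, ← Real.rpow_add hx0]; norm_num
    have e0 : 0 < x ^ (3/4 : ℝ) := by positivity
    have e1 : (box.card : ℝ) * n0 ≤ 2 * x ^ (1/20 : ℝ) * (17 / lam * x ^ (1/20 : ℝ)) * x ^ (3/4 : ℝ) :=
      mul_le_mul hboxcard hn0le (by positivity) (by positivity)
    have e2 : 2 * x ^ (1/20 : ℝ) * (17 / lam * x ^ (1/20 : ℝ)) * x ^ (3/4 : ℝ) < x ^ (9/10 : ℝ) := by
      rw [hxx]
      have e3 : 34 / lam < x ^ (1/20 : ℝ) := by
        refine lt_of_lt_of_le ?_ h4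
        have : 34 / lam ≤ 1000 / lam := by
          apply div_le_div_of_nonneg_right (by norm_num) hlam.le
        linarith
      have e4 : 0 < x ^ (1/20 : ℝ) * (x ^ (1/20 : ℝ) * x ^ (3/4 : ℝ)) := by positivity
      calc 2 * x ^ (1/20 : ℝ) * (17 / lam * x ^ (1/20 : ℝ)) * x ^ (3/4 : ℝ)
          = (34 / lam) * (x ^ (1/20 : ℝ) * (x ^ (1/20 : ℝ) * x ^ (3/4 : ℝ))) := by ring
        _ < x ^ (1/20 : ℝ) * (x ^ (1/20 : ℝ) * (x ^ (1/20 : ℝ) * x ^ (3/4 : ℝ))) :=
            mul_lt_mul_of_pos_right e3 e4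
    have e5 : (box.card : ℝ) * n0 < T2.card := lt_of_le_of_lt e1 (lt_of_lt_of_le e2 hT2card)
    exact_mod_cast e5
  obtain ⟨⟨d, m⟩, hdm, hfibc⟩ := exists_lt_card_fiber_of_mul_lt_card_of_maps_to hmaps hcount
  set G := T2.filter (fun β => key β = (d, m)) with hG
  have hGmem : ∀ β ∈ G, β ∈ T2 ∧ qf' β - qf β = d ∧ qf β / M = m := by
    intro β hβ
    rw [hG, mem_filter] at hβ
    have := hβ.2
    simp only [hkey, Prod.mk.injEq] at this
    exact ⟨hβ.1, this.1, this.2⟩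
  have hGne : G.Nonempty := by
    rw [← card_pos]; omega
  have hinj : Set.InjOn qf G := by
    intro β hβ β' hβ' h
    have e1 := hq3 β (hGmem β hβ).1
    have e2 := hq3 β' (hGmem β' hβ').1
    rw [← e1, ← e2, h]
  have hdD : d < D := by
    rw [hbox, mem_product, mem_range, mem_range] at hdm
    exact hdm.1
  have hd1 : 1 ≤ d := by
    obtain ⟨β, hβ⟩ := hGne
    obtain ⟨h1, h2, h3⟩ := hGmem β hβ
    have := hq5 β h1
    omega
  refine ⟨d, G.image qf, hd1, ?_, ?_, ?_, ?_, ?_⟩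
  · have e1 : (d:ℝ) ≤ D := by exact_mod_cast hdD.le
    have e2 : 2 * x ^ (1/20 : ℝ) ≤ x ^ (1/4 : ℝ) := by
      have e3 : 2 ≤ x ^ (1/20 : ℝ) := by
        have : 0 < 1000 / lam := by positivity
        linarith
      have e4 : x ^ (1/20 : ℝ) * x ^ (1/20 : ℝ) ≤ x ^ (1/4 : ℝ) := by
        rw [← Real.rpow_add hx0]
        exact Real.rpow_le_rpow_of_exponent_le hx1 (by norm_num)
      have e5 : 2 * x ^ (1/20 : ℝ) ≤ x ^ (1/20 : ℝ) * x ^ (1/20 : ℝ) :=
        mul_le_mul_of_nonneg_right e3 (by positivity)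
      linarith
    linarith
  · rw [card_image_of_injOn hinj]
    have e1 := Nat.lt_floor_add_one (x ^ (3/4 : ℝ))
    have e2 : ((n0 + 1 : ℕ) : ℝ) ≤ G.card := by exact_mod_cast hfibc
    push_cast at e2
    linarith
  · intro q hq
    rw [mem_image] at hq
    obtain ⟨β, hβ, rfl⟩ := hq
    obtain ⟨h1, h2, h3⟩ := hGmem β hβ
    refine ⟨hq1 β h1, ?_⟩
    have e1 := hq5 β h1
    have e2 : qf β + d = qf' β := by omega
    rw [e2]
    exact hq2 β h1
  · intro q hq q' hq' heq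
    rw [mem_image] at hq hq'
    obtain ⟨β, hβ, rfl⟩ := hq
    obtain ⟨β', hβ', rfl⟩ := hq'
    obtain ⟨h1, h2, h3⟩ := hGmem β hβ
    obtain ⟨h1', h2', h3'⟩ := hGmem β' hβ'
    have e1 := hq5 β h1
    have e2 : qf β + d = qf' β := by omega
    have e3 : β = β' := by
      rw [← hq4 β h1, ← hq3 β' h1', ← e2, heq]
    subst e3
    omega
  · intro q hq q' hq' hle
    rw [mem_image] at hq hq'
    obtain ⟨β, hβ, rfl⟩ := hq
    obtain ⟨β', hβ', rfl⟩ := hq'
    obtain ⟨h1, h2, h3⟩ := hGmem β hβ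
    obtain ⟨h1', h2', h3'⟩ := hGmem β' hβ'
    have e1 := Nat.div_add_mod (qf β) M
    have e2 := Nat.div_add_mod (qf β') M
    have e3 := Nat.mod_lt (qf β') hMpos'
    rw [h3] at e1
    rw [h3'] at e2
    have e4 : qf β' ≤ qf β + M := by omega
    have e5 : ((qf β' : ℕ):ℝ) ≤ (qf β : ℝ) + M := by exact_mod_cast e4
    have e6 : (d:ℝ) ≤ D := by exact_mod_cast hdD.le
    calc (d:ℝ) * ((qf β' : ℝ) - qf β) ≤ D * (lam * x / D) := by
          apply mul_le_mul e6 (by linarith) _ (by positivity)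
          have : (qf β : ℝ) ≤ qf β' := by exact_mod_cast hle
          linarith
      _ = lam * x := by field_simp

end Pool.Agent.R40
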