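import Pool.Agent.R40.Fun

set_option autoImplicit false

open Finset Filter Topology Chebyshev

namespace Pool.Agent.R40

/-- primes in `(N, 4N]` -/
def PI4 (N : ℕ) : Finset ℕ := (Finset.Ioc N (4 * N)).filter Nat.Prime

lemma mem_PI4 {N p : ℕ} : p ∈ PI4 N ↔ N < p ∧ p ≤ 4 * N ∧ p.Prime := by
  unfold PI4
  rw [mem_filter, mem_Ioc]
  tauto

lemma log_littleO : Tendsto (fun x : ℝ => Real.log x / x) atTop (𝓝 0) := by
  have h := Real.tendsto_pow_log_div_mul_add_atTop 1 0 1 one_ne_zero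
  simpa using h

theorem card_PI4 : ∀ᶠ N : ℕ in atTop, (N:ℝ) / Real.log (4 * N) ≤ ((PI4 N).card : ℝ) := by
  have hev : ∀ᶠ x : ℝ in atTop, Real.log (4 * x + 1) + 2 * √(4 * x) * Real.log (4 * x) ≤
      (2 * Real.log 2 - 1) * x := by
    have hlog2 : (0.6931471803 : ℝ) < Real.log 2 := Real.log_two_gt_d9
    -- log t ≤ t^(1/4) * 4
    have h1 : ∀ᶠ x : ℝ in atTop, (4 * x) ^ (3/4 : ℝ) * 40 ≤ (2 * Real.log 2 - 1) * x := by
      have h2 : Tendsto (fun x : ℝ => (4 * x) ^ (1/4 : ℝ)) atTop atTop :=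
        (tendsto_rpow_atTop (by norm_num)).comp (tendsto_id.const_mul_atTop (by norm_num))
      filter_upwards [h2.eventually_ge_atTop (40 * 4 / 0.38), eventually_gt_atTop 0] with x hx hx0
      have h3 : (4 * x) ^ (3/4 : ℝ) * (4 * x) ^ (1/4 : ℝ) = 4 * x := by
        rw [← Real.rpow_add (by linarith)]; norm_num
      have h4 : 0 < (4 * x) ^ (3/4 : ℝ) := Real.rpow_pos_of_pos (by linarith) _
      have h5 : (4 * x) ^ (3/4 : ℝ) * (40 * 4 / 0.38) ≤ 4 * x :=
        (mul_le_mul_of_nonneg_left hx h4.le).trans (le_of_eq h3)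
      nlinarith
    filter_upwards [h1, eventually_ge_atTop 1] with x hx hx1
    refine le_trans ?_ hx
    have e0 : 1 ≤ 4 * x := by linarith
    have e1 : Real.log (4 * x) ≤ (4 * x) ^ (1/4 : ℝ) / (1/4) :=
      Real.log_le_rpow_div (by linarith) (by norm_num)
    have e2 : Real.log (4 * x + 1) ≤ Real.log (4 * x) + 1 := by
      have h3 : (4 * x + 1) = (4 * x) * (1 + 1 / (4 * x)) := by field_simp
      rw [h3, Real.log_mul (by linarith) (by positivity)]
      have h4 := Real.log_le_sub_one_of_pos (show (0:ℝ) < 1 + 1 / (4 * x) by positivity)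
      have h5 : 1 / (4 * x) ≤ 1 := by rw [div_le_one (by linarith)]; exact e0
      linarith
    have e3 : √(4 * x) = (4 * x) ^ (1/2 : ℝ) := Real.sqrt_eq_rpow _
    have e4 : 1 ≤ (4 * x) ^ (1/4 : ℝ) := Real.one_le_rpow e0 (by norm_num)
    have e5 : (4 * x) ^ (1/2 : ℝ) * (4 * x) ^ (1/4 : ℝ) = (4 * x) ^ (3/4 : ℝ) := by
      rw [← Real.rpow_add (by linarith)]; norm_num
    have e6 : (4 * x) ^ (1/4 : ℝ) ≤ (4 * x) ^ (3/4 : ℝ) :=
      Real.rpow_le_rpow_of_exponent_le e0 (by norm_num)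
    have e7 : 0 ≤ (4 * x) ^ (1/2 : ℝ) := by positivity
    rw [e3]
    have e8 : 2 * (4 * x) ^ (1/2 : ℝ) * Real.log (4 * x) ≤ 8 * (4 * x) ^ (3/4 : ℝ) := by
      calc 2 * (4 * x) ^ (1/2 : ℝ) * Real.log (4 * x) ≤
          2 * (4 * x) ^ (1/2 : ℝ) * ((4 * x) ^ (1/4 : ℝ) / (1/4)) :=
            mul_le_mul_of_nonneg_left e1 (by positivity)
        _ = 8 * ((4 * x) ^ (1/2 : ℝ) * (4 * x) ^ (1/4 : ℝ)) := by ring
        _ = 8 * (4 * x) ^ (3/4 : ℝ) := by rw [e5]
    linarith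
  have hevN := tendsto_natCast_atTop_atTop.eventually hev
  filter_upwards [hevN, eventually_ge_atTop 1] with N hN hN1
  have hNr : (1:ℝ) ≤ N := by exact_mod_cast hN1
  have hlog : 0 < Real.log (4 * N) := Real.log_pos (by linarith)
  rw [div_le_iff₀ hlog]
  have h1 := theta_ge (4 * N)
  have h2 := theta_le_log4_mul_x (x := (N:ℝ)) (by positivity)
  push_cast at h1
  have h3 : Real.log 4 = 2 * Real.log 2 := by
    rw [show (4:ℝ) = 2 ^ 2 by norm_num, Real.log_pow]; norm_num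
  rw [h3] at h2
  have h4 : θ ((4:ℝ) * N) - θ (N:ℝ) = ∑ p ∈ PI4 N, Real.log p := by
    unfold Chebyshev.theta
    have e1 : ⌊(4:ℝ) * N⌋₊ = 4 * N := by
      have : ((4:ℝ) * N) = ((4 * N : ℕ) : ℝ) := by push_cast; ring
      rw [this, Nat.floor_natCast]
    rw [e1, Nat.floor_natCast]
    have e2 : (Ioc 0 (4 * N)).filter Nat.Prime = (Ioc 0 N).filter Nat.Prime ∪ PI4 N := by
      ext p
      simp only [mem_filter, mem_union, mem_Ioc, mem_PI4]
      constructor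
      · rintro ⟨⟨h1, h2⟩, h3⟩
        by_cases h : p ≤ N
        · exact Or.inl ⟨⟨h1, h⟩, h3⟩
        · exact Or.inr ⟨by omega, h2, h3⟩
      · rintro (⟨⟨h1, h2⟩, h3⟩ | ⟨h1, h2, h3⟩)
        · exact ⟨⟨h1, by omega⟩, h3⟩
        · exact ⟨⟨by omega, h2⟩, h3⟩
    rw [e2, sum_union]
    · ring
    · rw [Finset.disjoint_left]
      intro p hp hp'
      rw [mem_filter, mem_Ioc] at hp
      rw [mem_PI4] at hp'
      omega
  have h5 : ∑ p ∈ PI4 N, Real.log p ≤ (PI4 N).card * Real.log (4 * N) := by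
    rw [← nsmul_eq_mul]
    apply sum_le_card_nsmul
    intro p hp
    rw [mem_PI4] at hp
    apply Real.log_le_log
    · exact_mod_cast hp.2.2.pos
    · exact_mod_cast hp.2.1
  nlinarith

theorem card_PI4_tendsto : Tendsto (fun N : ℕ => ((PI4 N).card : ℝ)) atTop atTop := by
  have h1 : Tendsto (fun x : ℝ => x / Real.log (4 * x)) atTop atTop := by
    have h2 : Tendsto (fun x : ℝ => (4 * x) ^ (1/2 : ℝ) * (1/8)) atTop atTop :=
      ((tendsto_rpow_atTop (by norm_num)).comp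
        (tendsto_id.const_mul_atTop (by norm_num))).atTop_mul_const (by norm_num)
    apply tendsto_atTop_mono' _ _ h2
    filter_upwards [eventually_gt_atTop 1] with x hx
    have hlog : 0 < Real.log (4 * x) := Real.log_pos (by linarith)
    rw [le_div_iff₀ hlog]
    have e1 : Real.log (4 * x) ≤ (4 * x) ^ (1/2 : ℝ) / (1/2) :=
      Real.log_le_rpow_div (by linarith) (by norm_num)
    have e2 : 0 < (4 * x) ^ (1/2 : ℝ) := Real.rpow_pos_of_pos (by linarith) _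
    have e3 : (4 * x) ^ (1/2 : ℝ) * (4 * x) ^ (1/2 : ℝ) = 4 * x := by
      rw [← Real.rpow_add (by linarith)]; norm_num
    calc (4 * x) ^ (1/2 : ℝ) * (1/8) * Real.log (4 * x) ≤
        (4 * x) ^ (1/2 : ℝ) * (1/8) * ((4 * x) ^ (1/2 : ℝ) / (1/2)) :=
          mul_le_mul_of_nonneg_left e1 (by positivity)
      _ = (1/4) * ((4 * x) ^ (1/2 : ℝ) * (4 * x) ^ (1/2 : ℝ)) := by ring
      _ = x := by rw [e3]; ring
  exact tendsto_atTop_mono' _ card_PI4 (h1.comp tendsto_natCast_atTop_atTop)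

lemma sum_inv_sqrt_le (w : ℕ) : ∑ n ∈ Finset.Ioc 0 w, (n:ℝ) ^ (-(1/2) : ℝ) ≤ 2 * √w := by
  induction w with
  | zero => simp
  | succ w ih =>
    rw [Finset.sum_Ioc_succ_top (by omega)]
    have h1 : (0:ℝ) < ((w + 1 : ℕ) : ℝ) := by positivity
    have h2 : ((w + 1 : ℕ) : ℝ) ^ (-(1/2) : ℝ) = 1 / √((w + 1 : ℕ) : ℝ) := by
      rw [Real.rpow_neg h1.le, ← Real.sqrt_eq_rpow, one_div]
    rw [h2]
    have h3 : √((w + 1 : ℕ) : ℝ) * √((w + 1 : ℕ) : ℝ) = w + 1 := by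
      rw [Real.mul_self_sqrt h1.le]; push_cast; ring
    have h4 : √(w:ℝ) * √(w:ℝ) = w := Real.mul_self_sqrt (Nat.cast_nonneg w)
    have h5 : 0 < √((w + 1 : ℕ) : ℝ) := Real.sqrt_pos.2 h1
    have h6 : 0 ≤ √(w:ℝ) := Real.sqrt_nonneg _
    have h7 : 1 / √((w + 1 : ℕ) : ℝ) ≤ 2 * √((w + 1 : ℕ) : ℝ) - 2 * √(w:ℝ) := by
      rw [div_le_iff₀ h5]
      nlinarith [sq_nonneg (√((w + 1 : ℕ) : ℝ) - √(w:ℝ))]
    linarith

lemma pi_small (η : ℝ) (hη : 0 < η) : ∀ᶠ z : ℕ in atTop,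
    (((range (z+1)).filter Nat.Prime).card : ℝ) ≤ η * z := by
  have h1 : Tendsto (fun x : ℝ => Real.log 4 / Real.log √x + 1 / √x) atTop (𝓝 (0 + 0)) := by
    apply Tendsto.add
    · apply Tendsto.const_div_atTop
      exact Real.tendsto_log_atTop.comp Real.tendsto_sqrt_atTop
    · apply Tendsto.const_div_atTop
      exact Real.tendsto_sqrt_atTop
  rw [add_zero] at h1
  have h2 := (h1.comp tendsto_natCast_atTop_atTop).eventually_lt_const hη
  filter_upwards [h2, eventually_ge_atTop 2] with z hz hz2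
  simp only [Function.comp_apply] at hz
  have hzr : (2:ℝ) ≤ z := by exact_mod_cast hz2
  have h3 := pi_le_log4_mul_div (x := (z:ℝ)) (by linarith)
  rw [Nat.floor_natCast] at h3
  have h4 : (((range (z+1)).filter Nat.Prime).card : ℝ) = (Nat.primeCounting z : ℝ) := by
    rw [Nat.primeCounting, Nat.primeCounting', Nat.count_eq_card_filter_range]
  rw [h4]
  refine h3.trans ?_
  have h5 : √(z:ℝ) * √(z:ℝ) = z := Real.mul_self_sqrt (by linarith)
  have h6 : 0 < √(z:ℝ) := Real.sqrt_pos.2 (by linarith)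
  have h7 : Real.log 4 * z / Real.log √(z:ℝ) + √(z:ℝ) =
      (Real.log 4 / Real.log √(z:ℝ) + 1 / √(z:ℝ)) * z := by
    rw [add_mul, one_div, ← div_eq_inv_mul]
    have h8 : (z:ℝ) / √(z:ℝ) = √(z:ℝ) := by rw [div_eq_iff h6.ne', h5]
    rw [h8]; ring
  rw [h7]
  exact mul_le_mul_of_nonneg_right hz.le (by linarith)

theorem sum_primes_inv_sqrt (δ : ℝ) (hδ : 0 < δ) : ∀ᶠ z : ℕ in atTop,
    ∑ p ∈ (range (z+1)).filter Nat.Prime, (p:ℝ) ^ (-(1/2) : ℝ) ≤ δ * √z := by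
  set η : ℝ := δ / 3 with hη
  have hη0 : 0 < η := by positivity
  filter_upwards [pi_small (η ^ 2) (by positivity), eventually_ge_atTop 1] with z hz hz1
  have hzr : (1:ℝ) ≤ z := by exact_mod_cast hz1
  have hz0 : (0:ℝ) < z := by linarith
  have hs : 0 < √(z:ℝ) := Real.sqrt_pos.2 hz0
  have hss : √(z:ℝ) * √(z:ℝ) = z := Real.mul_self_sqrt hz0.le
  set w : ℕ := ⌊η ^ 2 * z⌋₊ with hw
  have hwr : (w:ℝ) ≤ η ^ 2 * z := Nat.floor_le (by positivity)
  have h1 : ∀ p ∈ (range (z+1)).filter Nat.Prime, (p:ℝ) ^ (-(1/2) : ℝ) ≤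
      (if p ∈ Finset.Ioc 0 w then (p:ℝ) ^ (-(1/2) : ℝ) else 0) + 1 / (η * √z) := by
    intro p hp
    rw [mem_filter] at hp
    have hp0 : (0:ℝ) < p := by exact_mod_cast hp.2.pos
    by_cases h : p ∈ Finset.Ioc 0 w
    · rw [if_pos h]
      have : 0 ≤ 1 / (η * √z) := by positivity
      linarith
    · rw [if_neg h, zero_add]
      rw [mem_Ioc, not_and_or] at h
      have h2 : w < p := by
        rcases h with h | h
        · exact absurd hp.2.pos h
        · omega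
      have h3 : η ^ 2 * z < p := (Nat.floor_lt (by positivity)).1 h2
      rw [Real.rpow_neg hp0.le, ← Real.sqrt_eq_rpow, ← one_div]
      apply one_div_le_one_div_of_le (by positivity)
      apply Real.le_sqrt_of_sq_le
      calc (η * √z) ^ 2 = η ^ 2 * (√(z:ℝ) * √(z:ℝ)) := by ring
        _ = η ^ 2 * z := by rw [hss]
        _ ≤ p := h3.le
  have h2 : ∑ p ∈ (range (z+1)).filter Nat.Prime,
      (if p ∈ Finset.Ioc 0 w then (p:ℝ) ^ (-(1/2) : ℝ) else 0) ≤ 2 * √w := by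
    refine le_trans ?_ (sum_inv_sqrt_le w)
    rw [← sum_filter]
    apply sum_le_sum_of_subset_of_nonneg
    · intro p hp
      exact (mem_filter.1 hp).2
    · intro p _ _
      positivity
  have h3 : √(w:ℝ) ≤ η * √z := by
    rw [Real.sqrt_le_left (by positivity)]
    calc (w:ℝ) ≤ η ^ 2 * z := hwr
      _ = η ^ 2 * (√(z:ℝ) * √(z:ℝ)) := by rw [hss]
      _ = (η * √z) ^ 2 := by ring
  calc ∑ p ∈ (range (z+1)).filter Nat.Prime, (p:ℝ) ^ (-(1/2) : ℝ)
      ≤ ∑ p ∈ (range (z+1)).filter Nat.Prime,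
        ((if p ∈ Finset.Ioc 0 w then (p:ℝ) ^ (-(1/2) : ℝ) else 0) + 1 / (η * √z)) :=
        sum_le_sum h1
    _ = ∑ p ∈ (range (z+1)).filter Nat.Prime,
        (if p ∈ Finset.Ioc 0 w then (p:ℝ) ^ (-(1/2) : ℝ) else 0) +
        ((range (z+1)).filter Nat.Prime).card * (1 / (η * √z)) := by
        rw [sum_add_distrib, sum_const, nsmul_eq_mul]
    _ ≤ 2 * (η * √z) + η ^ 2 * z * (1 / (η * √z)) := by
        apply add_le_add (h2.trans (by linarith))
        exact mul_le_mul_of_nonneg_right hz (by positivity)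
    _ = 3 * η * √z := by
        have h4 : η ^ 2 * z * (1 / (η * √z)) = η * √z := by
          rw [mul_one_div, div_eq_iff (by positivity)]
          calc η ^ 2 * z = η ^ 2 * (√(z:ℝ) * √(z:ℝ)) := by rw [hss]
            _ = _ := by ring
        rw [h4]; ring
    _ = δ * √z := by rw [hη]; ring

end Pool.Agent.R40
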