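import Pool.Agent.R40.Fill
import Pool.Agent.R40.Chain

set_option autoImplicit false

open Finset Filter Topology

namespace Pool.Agent.R40

/-- The window for the mass of the added set of primes. -/
def Win (N : ℕ) (ε : ℝ) (F : Finset ℕ) : Prop :=
  F ⊆ PI4 N ∧ ε + 0.05 / N ≤ mass F ∧ mass F ≤ ε + 0.2 / N

theorem construct (C2 : ℝ) (hC2 : 0 < C2) : ∀ᶠ N : ℕ in atTop, ∀ ε : ℝ, 0.09 / √N ≤ ε →
    ε ≤ 0.1 / √N → ∃ F0 F' : Finset ℕ, Win N ε F0 ∧ Win N ε F' ∧
      prr F0 * (1 + C2 / N) ≤ prr F' ∧ prr F' ≤ 2 * prr F0 ∧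
      ∀ x : ℝ, prr F0 < x → x ≤ prr F' → ∃ F'' : Finset ℕ, Win N ε F'' ∧ prr F'' < x ∧
        x ≤ prr F'' * (1 + 0.02 / N) := by
  classical
  have c1 : ∀ᶠ x : ℝ in atTop, 4800 * C2 + 2500 ≤ x ^ (1/4 : ℝ) :=
    (tendsto_rpow_atTop (by norm_num)).eventually_ge_atTop _
  filter_upwards [tendsto_natCast_atTop_atTop.eventually c1, chain_class 0.02 (by norm_num),
    eventually_ge_atTop 1] with N hy hchain hN1 ε hε1 hε2
  obtain ⟨d, C, hd1, hdN, hCc, hCP, hCne, hCsep⟩ := hchain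
  have hx1 : (1:ℝ) ≤ (N:ℝ) := by exact_mod_cast hN1
  set x : ℝ := (N:ℝ) with hx
  have hx0 : 0 < x := by linarith
  set y : ℝ := x ^ (1/4 : ℝ) with hydef
  have hy0 : 0 < y := by positivity
  have hy4 : x = y ^ 4 := by
    rw [hydef, ← Real.rpow_natCast, ← Real.rpow_mul hx0.le]; norm_num
  have hy3 : x ^ (3/4 : ℝ) = y ^ 3 := by
    rw [hydef, ← Real.rpow_natCast, ← Real.rpow_mul hx0.le]; norm_num
  have hsq : √x = y ^ 2 := by
    rw [hy4, show y ^ 4 = (y ^ 2) ^ 2 by ring, Real.sqrt_sq (by positivity)]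
  rw [hy3] at hCc
  rw [hsq] at hε1 hε2
  have hy2500 : 2500 ≤ y := by linarith
  set s0 : ℕ := ⌊y ^ 3 / 3⌋₊ with hs0
  have hs0le : (s0:ℝ) ≤ y ^ 3 / 3 := Nat.floor_le (by positivity)
  have hs0gt : y ^ 3 / 3 < (s0:ℝ) + 1 := Nat.lt_floor_add_one _
  have h3s0 : 3 * s0 ≤ C.card := by
    have : 3 * (s0:ℝ) ≤ C.card := by linarith
    exact_mod_cast this
  obtain ⟨L, hLC, U, hUC, hLc, hUc, hLU⟩ := exists_separated C s0 h3s0
  set s : ℝ := (s0:ℝ) + 1 with hs
  have hspos : 0 < s := by positivity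
  set J : ℕ := ⌈16 * C2 * x / s⌉₊ with hJ
  have hJlo : 16 * C2 * x / s ≤ J := Nat.le_ceil _
  have hJhi : (J:ℝ) ≤ 0.01 * y ^ 2 := by
    have e1 : (J:ℝ) < 16 * C2 * x / s + 1 := Nat.ceil_lt_add_one (by positivity)
    have e2 : 16 * C2 * x / s ≤ 48 * C2 * y := by
      rw [div_le_iff₀ hspos]
      have : y ^ 3 / 3 * (48 * C2 * y) ≤ s * (48 * C2 * y) :=
        mul_le_mul_of_nonneg_right hs0gt.le (by positivity)
      calc 16 * C2 * x = y ^ 3 / 3 * (48 * C2 * y) := by rw [hy4]; ring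
        _ ≤ s * (48 * C2 * y) := this
        _ = 48 * C2 * y * s := by ring
    have e3 : (48 * C2 + 1) * y ≤ 0.01 * y * y := by
      apply mul_le_mul_of_nonneg_right _ hy0.le
      linarith
    have e4 : (1:ℝ) ≤ y := by linarith
    nlinarith
  have hy2 : y ^ 2 * 2500 ≤ y ^ 3 := by
    calc y ^ 2 * 2500 ≤ y ^ 2 * y := mul_le_mul_of_nonneg_left hy2500 (by positivity)
      _ = y ^ 3 := by ring
  have hy2' : (1:ℝ) ≤ y ^ 2 := one_le_pow₀ (by linarith)
  have hJs0 : J ≤ s0 := by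
    have : (J:ℝ) ≤ s0 := by linarith
    exact_mod_cast this
  obtain ⟨Ca, hCaL, hCac⟩ := exists_subset_card_eq (hJs0.trans hLc.ge)
  obtain ⟨Cb, hCbU, hCbc⟩ := exists_subset_card_eq (hJs0.trans hUc.ge)
  have hdisLU : Disjoint L U := by
    rw [Finset.disjoint_left]
    intro p hp hp'
    have := hLU p hp p hp'
    omega
  set Lr := L \ Ca with hLr
  set Ur := U \ Cb with hUr
  have hell1 : ∀ p ∈ PI4 N, ell p ≤ 1 / x := by
    intro p hp
    rw [mem_PI4] at hp
    refine (ell_le (by omega)).trans ?_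
    apply one_div_le_one_div_of_le hx0
    rw [hx]
    exact_mod_cast hp.1.le
  have hell0 : ∀ p ∈ PI4 N, 0 ≤ ell p := fun p hp => by
    rw [mem_PI4] at hp
    exact (ell_pos (by omega)).le
  set Cb' := Cb.image (fun b => b + d) with hCb'
  have hCb'c : Cb'.card ≤ J := hCbc ▸ card_image_le
  have hCaP : Ca ⊆ PI4 N := fun p hp => (hCP p (hLC (hCaL hp))).1
  have hCb'P : Cb' ⊆ PI4 N := by
    intro p hp
    rw [hCb', mem_image] at hp
    obtain ⟨b, hb, rfl⟩ := hp
    exact (hCP b (hUC (hCbU hb))).2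
  have hmassJ : ∀ B : Finset ℕ, B ⊆ PI4 N → B.card ≤ J → mass B ≤ 0.01 / y ^ 2 := by
    intro B hB hBc
    have e1 : mass B ≤ ∑ p ∈ B, 1 / x := sum_le_sum fun p hp => hell1 p (hB hp)
    rw [sum_const, nsmul_eq_mul, mul_one_div] at e1
    refine e1.trans ?_
    rw [div_le_div_iff₀ hx0 (by positivity)]
    have e2 : (B.card : ℝ) ≤ 0.01 * y ^ 2 := le_trans (by exact_mod_cast hBc) hJhi
    calc (B.card : ℝ) * y ^ 2 ≤ 0.01 * y ^ 2 * y ^ 2 := mul_le_mul_of_nonneg_right e2 (by positivity)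
      _ = 0.01 * x := by rw [hy4]; ring
  have hmass0 : ∀ B : Finset ℕ, B ⊆ PI4 N → 0 ≤ mass B := fun B hB =>
    sum_nonneg fun p hp => hell0 p (hB hp)
  have hmCa := hmassJ Ca hCaP hCac.le
  have hmCb := hmassJ Cb' hCb'P hCb'c
  have hmCa0 := hmass0 Ca hCaP
  have hmCb0 := hmass0 Cb' hCb'P
  set τ : ℝ := ε + 0.1 / x - mass Ca - mass Cb' with hτdef
  have hinvx : 1 / x ≤ 0.01 / y ^ 2 := by
    rw [div_le_div_iff₀ hx0 (by positivity), hy4]
    nlinarith
  have hinvx0 : 0 < 1 / x := by positivity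
  have h01 : 0.1 / x = 0.1 * (1 / x) := by ring
  have hy2inv : 0 < 1 / y ^ 2 := by positivity
  have hr1 : 0.01 / y ^ 2 = 0.01 * (1 / y ^ 2) := by ring
  have hr2 : 0.1 / y ^ 2 = 0.1 * (1 / y ^ 2) := by ring
  have hr3 : 0.09 / y ^ 2 = 0.09 * (1 / y ^ 2) := by ring
  rw [hr1] at hmCa hmCb hinvx
  rw [hr2] at hε2
  rw [hr3] at hε1
  have hτlo : 0.07 * (1 / y ^ 2) ≤ τ := by rw [hτdef, h01]; linarith
  have hτhi : τ ≤ 0.2 * (1 / y ^ 2) := by rw [hτdef, h01]; linarith
  have hcardr : ∀ (A B : Finset ℕ), B ⊆ A → A.card = s0 → B.card = J →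
      τ * (4 * x + 1) ≤ ((A \ B).card : ℝ) := by
    intro A B hBA hA hB
    have e0 : ((A \ B).card : ℝ) = s0 - J := by
      rw [card_sdiff_of_subset hBA, hA, hB, Nat.cast_sub hJs0]
    rw [e0]
    have e1 : τ * (4 * x + 1) ≤ 0.2 * (1 / y ^ 2) * (5 * x) :=
      mul_le_mul hτhi (by linarith) (by linarith) (by positivity)
    have e2 : 0.2 * (1 / y ^ 2) * (5 * x) = y ^ 2 := by
      rw [hy4]; field_simp; norm_num
    rw [e2] at e1
    linarith
  obtain ⟨X, hX, hX1, hX2⟩ := fill N hN1 Lr Ur s τ hspos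
    (fun p hp => (hCP p (hLC (mem_sdiff.1 hp).1)).1)
    (fun p hp => (hCP p (hUC (mem_sdiff.1 hp).1)).1)
    (disjoint_of_subset_left sdiff_subset (disjoint_of_subset_right sdiff_subset hdisLU))
    (by
      intro l hl u hu
      have h1 := hLU l (mem_sdiff.1 hl).1 u (mem_sdiff.1 hu).1
      have h2 : (l:ℝ) + s0 + 1 ≤ u := by exact_mod_cast h1
      refine ⟨by rw [hs]; linarith, ?_⟩
      have h3 := hCsep l (hLC (mem_sdiff.1 hl).1) u (hUC (mem_sdiff.1 hu).1) (by omega)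
      have h4 : (1:ℝ) ≤ d := by exact_mod_cast hd1
      have h5 : (0:ℝ) ≤ (u:ℝ) - l := by
        have : (0:ℝ) ≤ s0 := by positivity
        linarith
      calc (u:ℝ) - l = 1 * ((u:ℝ) - l) := by ring
        _ ≤ d * ((u:ℝ) - l) := mul_le_mul_of_nonneg_right h4 h5
        _ ≤ _ := h3)
    (hcardr L Ca hCaL hLc hCac) (hcardr U Cb hCbU hUc hCbc)
    (by linarith)
    (by
      have e1 : 0.06 * (1 / y ^ 2) ≤ τ - 1 / x := by linarith
      have e2 : 0.06 * (1 / y ^ 2) * x * (y ^ 3 / 3 / (40 * x ^ 2)) ≤ (τ - 1 / x) * x * (s / (40 * x ^ 2)) := by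
        apply mul_le_mul (mul_le_mul_of_nonneg_right e1 hx0.le) _ (by positivity)
          (mul_nonneg (by linarith [show 0 ≤ 0.06 * (1 / y ^ 2) by positivity]) hx0.le)
        apply div_le_div_of_nonneg_right hs0gt.le (by positivity)
      refine le_trans ?_ e2
      have e3 : 0.06 * (1 / y ^ 2) * x * (y ^ 3 / 3 / (40 * x ^ 2)) = (0.06 / 120 * y) * (1 / x) := by
        field_simp; ring
      rw [e3]
      have e4 : 1 ≤ 0.06 / 120 * y := by linarith
      calc 1 / x = 1 * (1 / x) := by ring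
        _ ≤ _ := mul_le_mul_of_nonneg_right e4 hinvx0.le)
  have hXC : X ⊆ C := by
    intro p hp
    rcases mem_union.1 (hX hp) with h | h
    · exact hLC (mem_sdiff.1 h).1
    · exact hUC (mem_sdiff.1 h).1
  have hCaC : Ca ⊆ C := fun p hp => hLC (hCaL hp)
  have hCbC : Cb ⊆ C := fun p hp => hUC (hCbU hp)
  have hXCa : Disjoint Ca X := by
    rw [Finset.disjoint_left]
    intro p hp hpX
    rcases mem_union.1 (hX hpX) with h | h
    · exact (mem_sdiff.1 h).2 hp
    · exact (Finset.disjoint_left.1 hdisLU) (hCaL hp) (mem_sdiff.1 h).1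
  have hXCb : Disjoint Cb X := by
    rw [Finset.disjoint_left]
    intro p hp hpX
    rcases mem_union.1 (hX hpX) with h | h
    · exact (Finset.disjoint_left.1 hdisLU) (mem_sdiff.1 h).1 (hCbU hp)
    · exact (mem_sdiff.1 h).2 hp
  have hCaCb : Disjoint Ca Cb := disjoint_of_subset_left hCaL (disjoint_of_subset_right hCbU hdisLU)
  have hXCb' : Disjoint Cb' X := by
    rw [Finset.disjoint_left]
    intro p hp hpX
    rw [hCb', mem_image] at hp
    obtain ⟨b, hb, rfl⟩ := hp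
    exact hCne b (hCbC hb) _ (hXC hpX) rfl
  have hCaCb' : Disjoint Ca Cb' := by
    rw [Finset.disjoint_left]
    intro p hp hp'
    rw [hCb', mem_image] at hp'
    obtain ⟨b, hb, rfl⟩ := hp'
    exact hCne b (hCbC hb) _ (hCaC hp) rfl
  set F0 := Ca ∪ (Cb' ∪ X) with hF0
  have hmassF0 : mass F0 = mass Ca + (mass Cb' + mass X) := by
    have h1 : Disjoint Ca (Cb' ∪ X) := by
      rw [disjoint_union_right]; exact ⟨hCaCb', hXCa⟩
    unfold mass
    rw [hF0, sum_union h1, sum_union hXCb']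
  have hF0lo : ε + 0.1 * (1 / x) ≤ mass F0 := by
    rw [hmassF0, ← h01]; rw [hτdef] at hX1; linarith
  have hF0hi : mass F0 ≤ ε + 0.12 * (1 / x) := by
    rw [hmassF0]
    have : (0.02:ℝ) / x = 0.02 * (1 / x) := by ring
    rw [hτdef, h01, this] at hX2
    linarith
  have hF0P : F0 ⊆ PI4 N := by
    intro p hp
    rw [hF0, mem_union, mem_union] at hp
    rcases hp with h | h | h
    · exact hCaP h
    · exact hCb'P h
    · exact (hCP p (hXC h)).1
  set rho : ℝ := s / (16 * x ^ 2) with hrho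
  obtain ⟨F', hF'P, hF'm, hp1, hp2, hcov⟩ := chain_swaps N d rho s hN1 hd1 hspos hrho J F0 Ca Cb hCac
    hCbc hF0P
    (by
      intro a ha
      refine ⟨mem_union_left _ ha, ?_, (hCP a (hCaC ha)).2⟩
      rw [hF0, mem_union, mem_union, not_or, not_or]
      refine ⟨fun h => hCne a (hCaC ha) _ (hCaC h) rfl, ?_, fun h => hCne a (hCaC ha) _ (hXC h) rfl⟩
      rw [hCb', mem_image]
      rintro ⟨b, hb, hbd⟩
      have hab : a = b := by omega
      subst hab
      exact (Finset.disjoint_left.1 hCaCb) ha hb)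
    (by
      intro b hb
      refine ⟨?_, (hCP b (hCbC hb)).1, ?_⟩
      · rw [hF0, mem_union, mem_union, not_or, not_or]
        refine ⟨fun h => (Finset.disjoint_left.1 hCaCb) h hb, ?_, fun h => (Finset.disjoint_left.1 hXCb) hb h⟩
        rw [hCb', mem_image]
        rintro ⟨b', hb', hbd⟩
        exact hCne b' (hCbC hb') b (hCbC hb) hbd
      · rw [hF0]
        exact mem_union_right _ (mem_union_left _ (mem_image_of_mem _ hb)))
    (by
      intro q hq q' hq'
      refine hCne q ?_ q' ?_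
      · rcases mem_union.1 hq with h | h
        · exact hCaC h
        · exact hCbC h
      · rcases mem_union.1 hq' with h | h
        · exact hCaC h
        · exact hCbC h)
    (by
      intro a ha b hb
      have h1 := hLU a (hCaL ha) b (hCbU hb)
      have h2 : (a:ℝ) + s0 + 1 ≤ b := by exact_mod_cast h1
      exact ⟨by rw [hs]; linarith, hCsep a (hCaC ha) b (hCbC hb) (by omega)⟩)
  have hPF0 : 0 < prr F0 := prr_pos fun p hp => by
    have := mem_PI4.1 (hF0P hp); omega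
  have hdy : (d:ℝ) ≤ y := hdN
  have hdev : (J:ℝ) * (d / x ^ 2) ≤ 0.05 * (1 / x) := by
    have e1 : (J:ℝ) * d ≤ 0.01 * y ^ 2 * y := mul_le_mul hJhi hdy (by positivity) (by positivity)
    have e2 : 0.01 * y ^ 2 * y ≤ 0.05 * x := by
      rw [hy4]
      have : y ^ 3 * 1 ≤ y ^ 3 * y := mul_le_mul_of_nonneg_left (by linarith) (by positivity)
      calc 0.01 * y ^ 2 * y = 0.01 * (y ^ 3 * 1) := by ring
        _ ≤ 0.01 * (y ^ 3 * y) := mul_le_mul_of_nonneg_left this (by norm_num)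
        _ ≤ 0.05 * y ^ 4 := by
            have : 0 ≤ y ^ 4 := by positivity
            calc 0.01 * (y ^ 3 * y) = 0.01 * y ^ 4 := by ring
              _ ≤ 0.05 * y ^ 4 := by linarith
    calc (J:ℝ) * (d / x ^ 2) = (J * d) / x ^ 2 := by ring
      _ ≤ (0.05 * x) / x ^ 2 := div_le_div_of_nonneg_right (e1.trans e2) (by positivity)
      _ = 0.05 * (1 / x) := by field_simp
  have hwin : ∀ F : Finset ℕ, F ⊆ PI4 N → |mass F - mass F0| ≤ J * (d / x ^ 2) → Win N ε F := by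
    intro F hF hm
    rw [abs_le] at hm
    refine ⟨hF, ?_, ?_⟩
    · have : (0.05:ℝ) / x = 0.05 * (1 / x) := by ring
      rw [this]; linarith [hm.1]
    · have : (0.2:ℝ) / x = 0.2 * (1 / x) := by ring
      rw [this]; linarith [hm.2]
  refine ⟨F0, F', hwin F0 hF0P (by rw [sub_self, abs_zero]; positivity), hwin F' hF'P hF'm, ?_, ?_, ?_⟩
  · refine le_trans ?_ hp1
    apply mul_le_mul_of_nonneg_left _ hPF0.le
    have e1 : 1 + (J:ℝ) * rho ≤ (1 + rho) ^ J := one_add_mul_le_pow (by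
      have : 0 ≤ rho := by positivity
      linarith) J
    have e2 : C2 / x ≤ J * rho := by
      calc C2 / x = 16 * C2 * x / s * rho := by rw [hrho]; field_simp
        _ ≤ J * rho := mul_le_mul_of_nonneg_right hJlo (by positivity)
    linarith
  · refine hp2.trans ?_
    rw [mul_comm 2 (prr F0)]
    apply mul_le_mul_of_nonneg_left _ hPF0.le
    have e1 : (1 + 0.02 / x) ≤ Real.exp (0.02 / x) := by
      have := Real.add_one_le_exp (0.02 / x)
      linarith
    have e2 : (1 + 0.02 / x) ^ J ≤ Real.exp (0.02 / x) ^ J := pow_le_pow_left₀ (by positivity) e1 J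
    refine e2.trans ?_
    rw [← Real.exp_nat_mul]
    have e3 : (J:ℝ) * (0.02 / x) ≤ 0.5 := by
      calc (J:ℝ) * (0.02 / x) ≤ 0.01 * y ^ 2 * (0.02 / x) := mul_le_mul_of_nonneg_right hJhi (by positivity)
        _ = 0.0002 * (y ^ 2 / x) := by ring
        _ ≤ 0.0002 * 1 := by
            apply mul_le_mul_of_nonneg_left _ (by norm_num)
            rw [div_le_one hx0, hy4]
            calc y ^ 2 = y ^ 2 * 1 := by ring
              _ ≤ y ^ 2 * y ^ 2 := mul_le_mul_of_nonneg_left hy2' (by positivity)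
              _ = y ^ 4 := by ring
        _ ≤ 0.5 := by norm_num
    have e4 : (0.5:ℝ) ≤ Real.log 2 := by
      have := Real.log_two_gt_d9
      linarith
    calc Real.exp ((J:ℝ) * (0.02 / x)) ≤ Real.exp (Real.log 2) := Real.exp_le_exp.2 (e3.trans e4)
      _ = 2 := Real.exp_log (by norm_num)
  · intro t ht1 ht2
    obtain ⟨F'', hF'', hm'', h1, h2⟩ := hcov t ht1 ht2
    exact ⟨F'', hwin F'' hF'' hm'', h1, h2⟩

end Pool.Agent.R40
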