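import Pool.Agent.R40.Omega
import Pool.Agent.R40.Cheb

set_option autoImplicit false

open Finset Filter Topology

namespace Pool.Agent.R40

/-- `v` bounds the weight of every finite set of odd primes of mass at most `log 2` -/
def Bnd (v : ℝ) : Prop := ∀ B : Finset ℕ, (∀ p ∈ B, OP p) → mass B ≤ Real.log 2 → wt B ≤ v

lemma exchange {v : ℝ} (hv : Bnd v) (m : Finset ℕ) (hm : ∀ p ∈ m, OP p)
    (hmass : mass m ≤ Real.log 2) (q : ℕ) (hq : OP q) (hqm : q ∉ m) (x : ℕ) (hx : 4 * q ≤ x)
    (htail : ell q ≤ mass (m.filter (fun p => x < p))) : wt m + 1 / (2 * (q:ℝ) ^ 2) ≤ v := by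
  have hq3 := hq.2
  have hq0 : (0:ℝ) < q := by
    have : 0 < q := by omega
    exact_mod_cast this
  have hx0 : (0:ℝ) < x := by
    have : 0 < x := by omega
    exact_mod_cast this
  have hxq : 4 * (q:ℝ) ≤ x := by exact_mod_cast hx
  obtain ⟨D, hD, hD1, hD2⟩ := exists_subset_mass_ge (m.filter (fun p => x < p)) ell (1 / x) (ell q)
    (by
      intro p hp
      rw [mem_filter] at hp
      refine (ell_le (by omega)).trans ?_
      apply one_div_le_one_div_of_le hx0
      exact_mod_cast hp.2.le) htail (ell_pos (by omega)).le (by positivity)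
  have hDm : D ⊆ m := hD.trans (filter_subset _ _)
  have hqD : q ∉ m \ D := fun h => hqm (mem_sdiff.1 h).1
  have hmass' : mass (insert q (m \ D)) ≤ Real.log 2 := by
    unfold mass at *
    rw [sum_insert hqD]
    have := sum_sdiff (f := ell) hDm
    linarith
  have hOP' : ∀ p ∈ insert q (m \ D), OP p := by
    intro p hp
    rw [mem_insert] at hp
    rcases hp with rfl | hp
    · exact hq
    · exact hm p (mem_sdiff.1 hp).1
  have h1 := hv _ hOP' hmass'
  have h2 : wt (insert q (m \ D)) = ww q + (wt m - wt D) := by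
    unfold wt
    rw [sum_insert hqD]
    have := sum_sdiff (f := ww) hDm
    linarith
  have h3 : wt D ≤ mass D / x := by
    unfold wt mass
    rw [sum_div]
    refine sum_le_sum fun p hp => ?_
    have hp' := hD hp
    rw [mem_filter] at hp'
    have hpx : (x:ℝ) + 1 ≤ p := by exact_mod_cast hp'.2
    refine (ww_le_ell_div (by omega)).trans ?_
    apply div_le_div_of_nonneg_left (ell_pos (by omega)).le hx0
    linarith
  have h4 : mass D ≤ 5 / (4 * q) := by
    have h5 : mass D ≤ ell q + 1 / x := hD2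
    have h6 := ell_le (p := q) (by omega)
    have h7 : (1:ℝ) / x ≤ 1 / (4 * q) := one_div_le_one_div_of_le (by positivity) hxq
    have h8 : (5:ℝ) / (4 * q) = 1 / q + 1 / (4 * q) := by field_simp; norm_num
    linarith
  have h5 : wt D ≤ 5 / (16 * (q:ℝ) ^ 2) := by
    calc wt D ≤ mass D / x := h3
      _ ≤ (5 / (4 * q)) / (4 * q) := by
          apply div_le_div₀ (by positivity) h4 (by positivity) hxq
      _ = 5 / (16 * (q:ℝ) ^ 2) := by field_simp; norm_num
  have h6 := le_ww (p := q) (by omega)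
  have h7 : (1:ℝ) / q ^ 2 - 5 / (16 * (q:ℝ) ^ 2) ≥ 1 / (2 * (q:ℝ) ^ 2) := by
    have : (1:ℝ) / q ^ 2 - 5 / (16 * (q:ℝ) ^ 2) - 1 / (2 * (q:ℝ) ^ 2) = 3 / (16 * (q:ℝ) ^ 2) := by
      field_simp; norm_num
    have h8 : 0 < 3 / (16 * (q:ℝ) ^ 2) := by positivity
    linarith
  linarith

/-- the tail is small as soon as there is a missing prime and the set is nearly optimal -/
lemma tail_lt {v : ℝ} (hv : Bnd v) (m : Finset ℕ) (hm : ∀ p ∈ m, OP p)
    (hmass : mass m ≤ Real.log 2) (q : ℕ) (hq : OP q) (hqm : q ∉ m)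
    (hopt : v - wt m < 1 / (2 * (q:ℝ) ^ 2)) : mass (m.filter (fun p => 4 * q < p)) < 1 / q := by
  by_contra hcon
  push Not at hcon
  have h1 := exchange hv m hm hmass q hq hqm (4 * q) le_rfl
    ((ell_le (by have := hq.2; omega)).trans hcon)
  linarith

lemma mass_mono {B B' : Finset ℕ} (h : B ⊆ B') (hB : ∀ p ∈ B', 1 ≤ p) : mass B ≤ mass B' :=
  sum_le_sum_of_subset_of_nonneg h fun p hp _ => (ell_pos (hB p hp)).le

theorem exists_missing {v : ℝ} (hv : Bnd v) : ∃ b0 : ℕ, 1 ≤ b0 ∧ ∀ m : Finset ℕ,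
    (∀ p ∈ m, OP p) → mass m ≤ Real.log 2 → ∀ T : ℕ, b0 ≤ T → v - wt m < 1 / (2 * (T:ℝ) ^ 2) →
    ∃ q, OP q ∧ q ∉ m ∧ q ≤ T ∧ T < 16 * q := by
  classical
  obtain ⟨a0, ha0⟩ := eventually_atTop.1 (card_PI4_tendsto.eventually_ge_atTop 18)
  -- divergence gives a first missing prime
  obtain ⟨b0, hb0⟩ : ∃ b0 : ℕ, Real.log 2 <
      mass ((range b0).filter (fun p => OP p ∧ a0 ≤ p)) := by
    by_contra hcon
    push Not at hcon
    apply not_summable_one_div_on_primes
    have hs : Summable (fun n : ℕ => if OP n ∧ a0 ≤ n then ell n else 0) := by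
      apply summable_of_sum_range_le (c := Real.log 2)
      · intro n
        split_ifs with h
        · exact (ell_pos (by have := h.1.2; omega)).le
        · exact le_rfl
      · intro n
        rw [← sum_filter]
        exact hcon n
    have h1 : Summable (fun n : ℕ => 2 * (if OP n ∧ a0 ≤ n then ell n else 0) +
        (if n ∈ range (a0 + 3) then (1:ℝ) else 0)) := by
      apply (hs.mul_left 2).add
      apply summable_of_ne_finset_zero (s := range (a0+3))
      intro n hn
      rw [if_neg hn]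
    apply Summable.of_nonneg_of_le _ _ h1
    · intro n
      apply Set.indicator_nonneg
      intro n _
      positivity
    · intro n
      have h3 : 0 ≤ (if OP n ∧ a0 ≤ n then ell n else 0) := by
        split_ifs with h
        · exact (ell_pos (by have := h.1.2; omega)).le
        · exact le_rfl
      by_cases hn : n.Prime
      · rw [Set.indicator_of_mem (show n ∈ {p : ℕ | p.Prime} from hn)]
        have hn1 : (1:ℝ) ≤ n := by exact_mod_cast hn.one_lt.le
        by_cases hnM : n < a0 + 3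
        · rw [if_pos (mem_range.2 hnM)]
          have h2 : (1:ℝ) / n ≤ 1 := by rw [div_le_one (by linarith)]; exact hn1
          linarith
        · rw [if_neg (show n ∉ range (a0+3) by rw [mem_range]; exact hnM), add_zero,
            if_pos (show OP n ∧ a0 ≤ n from ⟨⟨hn, by omega⟩, by omega⟩)]
          have h6 := le_ell (p := n) (by omega)
          have h7 : (1:ℝ) / n ≤ 2 * (1 / ((n:ℝ) + 1)) := by
            rw [mul_one_div, div_le_div_iff₀ (by linarith) (by linarith)]
            linarith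
          linarith
      · rw [Set.indicator_of_notMem (show n ∉ {p : ℕ | p.Prime} from hn)]
        have h4 : 0 ≤ (if n ∈ range (a0 + 3) then (1:ℝ) else 0) := by split_ifs <;> norm_num
        linarith
  refine ⟨b0 + 1, by omega, ?_⟩
  intro m hm hmass T hT hopt
  set M := (range (T+1)).filter (fun p => (OP p ∧ a0 ≤ p) ∧ p ∉ m) with hM
  have hMne : M.Nonempty := by
    by_contra hemp
    rw [not_nonempty_iff_eq_empty] at hemp
    have hsub : (range b0).filter (fun p => OP p ∧ a0 ≤ p) ⊆ m := by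
      intro p hp
      rw [mem_filter, mem_range] at hp
      by_contra hpm
      have : p ∈ M := by
        rw [hM, mem_filter, mem_range]
        exact ⟨by omega, hp.2, hpm⟩
      rw [hemp] at this
      exact absurd this (notMem_empty _)
    have := mass_mono hsub (fun p hp => by have := (hm p hp).2; omega)
    linarith
  set q := M.max' hMne with hqdef
  have hqM : q ∈ M := M.max'_mem hMne
  have hqmax : ∀ p ∈ M, p ≤ q := fun p hp => M.le_max' p hp
  rw [hM, mem_filter, mem_range] at hqM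
  obtain ⟨hqT, ⟨hqOP, hqa0⟩, hqm⟩ := hqM
  refine ⟨q, hqOP, hqm, by omega, ?_⟩
  by_contra hcon
  push Not at hcon
  have hq3 := hqOP.2
  have hq0 : (0:ℝ) < q := by
    have : 0 < q := by omega
    exact_mod_cast this
  have hsub : PI4 (4 * q) ⊆ m.filter (fun p => 4 * q < p) := by
    intro p hp
    rw [mem_PI4] at hp
    rw [mem_filter]
    refine ⟨?_, hp.1⟩
    by_contra hpm
    have : p ∈ M := by
      rw [hM, mem_filter, mem_range]
      exact ⟨by omega, ⟨⟨hp.2.2, by omega⟩, by omega⟩, hpm⟩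
    have := hqmax p this
    omega
  have h1 : (1:ℝ) / q ≤ mass (m.filter (fun p => 4 * q < p)) := by
    refine le_trans ?_ (mass_mono hsub (fun p hp => by
      rw [mem_filter] at hp; have := (hm p hp.1).2; omega))
    have h2 : (18:ℝ) ≤ ((PI4 (4 * q)).card : ℝ) := ha0 (4 * q) (by omega)
    have h3 : ((PI4 (4 * q)).card : ℝ) * (1 / (17 * q)) ≤ mass (PI4 (4 * q)) := by
      unfold mass
      rw [← nsmul_eq_mul]
      apply card_nsmul_le_sum
      intro p hp
      rw [mem_PI4] at hp
      refine le_trans ?_ (le_ell (by omega))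
      apply one_div_le_one_div_of_le (by positivity)
      have h4 : (p:ℝ) ≤ 4 * (4 * q) := by exact_mod_cast hp.2.1
      have h5 : (1:ℝ) ≤ q := by exact_mod_cast (by omega : 1 ≤ q)
      linarith
    refine le_trans ?_ h3
    calc (1:ℝ) / q ≤ 18 * (1 / (17 * q)) := by
          rw [mul_one_div, div_le_div_iff₀ hq0 (by positivity)]; linarith
      _ ≤ _ := mul_le_mul_of_nonneg_right h2 (by positivity)
  have h2 := tail_lt hv m hm hmass q hqOP hqm (by
    refine hopt.trans_le ?_
    apply one_div_le_one_div_of_le (by positivity)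
    have : (q:ℝ) ≤ T := by exact_mod_cast (by omega : q ≤ T)
    have h6 : (q:ℝ) ^ 2 ≤ (T:ℝ) ^ 2 := pow_le_pow_left₀ hq0.le this 2
    linarith)
  linarith

theorem tail_bound {v : ℝ} (hv : Bnd v) : ∃ b0 : ℕ, 1 ≤ b0 ∧ ∀ m : Finset ℕ,
    (∀ p ∈ m, OP p) → mass m ≤ Real.log 2 → ∀ T : ℕ, b0 ≤ T → v - wt m < 1 / (2 * (T:ℝ) ^ 2) →
    mass (m.filter (fun p => 4 * T < p)) ≤ 16 / T := by
  obtain ⟨b0, hb0, h⟩ := exists_missing hv
  refine ⟨b0, hb0, ?_⟩
  intro m hm hmass T hT hopt
  obtain ⟨q, hq, hqm, hqT, hTq⟩ := h m hm hmass T hT hopt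
  have hq0 : (0:ℝ) < q := by
    have := hq.2
    have : 0 < q := by omega
    exact_mod_cast this
  have hT0 : (0:ℝ) < T := by
    have : 0 < T := by omega
    exact_mod_cast this
  have h1 := tail_lt hv m hm hmass q hq hqm (by
    refine hopt.trans_le ?_
    apply one_div_le_one_div_of_le (by positivity)
    have : (q:ℝ) ≤ T := by exact_mod_cast hqT
    have h6 : (q:ℝ) ^ 2 ≤ (T:ℝ) ^ 2 := pow_le_pow_left₀ hq0.le this 2
    linarith)
  have h2 : mass (m.filter (fun p => 4 * T < p)) ≤ mass (m.filter (fun p => 4 * q < p)) := by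
    apply mass_mono
    · intro p hp
      rw [mem_filter] at hp ⊢
      exact ⟨hp.1, by omega⟩
    · intro p hp
      rw [mem_filter] at hp
      have := (hm p hp.1).2
      omega
  have h3 : (1:ℝ) / q ≤ 16 / T := by
    rw [div_le_div_iff₀ hq0 hT0]
    have : (T:ℝ) < 16 * q := by exact_mod_cast hTq
    linarith
  linarith

/-- the base sets -/
theorem exists_base : ∃ v : ℝ, Bnd v ∧ ∀ Y : ℕ, ∃ (z : ℕ) (A : Finset ℕ) (ε : ℝ), Y ≤ z ∧ 0 < ε ∧
    ε ≤ 4 / z ∧ (∀ p ∈ A, OP p ∧ p ≤ z) ∧ mass A = Real.log 2 - ε ∧ v - wt A ≤ 2 * ε ^ 2 := by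
  classical
  obtain ⟨v, Ω, hΩ, hv, hlt, hm, hw, hmiss⟩ := exists_omega
  refine ⟨v, hv, ?_⟩
  intro Y
  obtain ⟨q, hqY, hqOP, hqΩ⟩ := hmiss Y
  have hq3 := hqOP.2
  have hq0 : (0:ℝ) < q := by
    have : 0 < q := by omega
    exact_mod_cast this
  have hAOP : ∀ X, ∀ p ∈ AX Ω X, OP p := fun X p hp => hΩ p (mem_AX.1 hp).2
  -- splitting
  have hsplit : ∀ X, 4 * q ≤ X → AX Ω X = AX Ω (4 * q) ∪ (AX Ω X).filter (fun p => 4 * q < p) := by
    intro X hX
    ext p
    rw [mem_union, mem_filter, mem_AX, mem_AX]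
    constructor
    · rintro ⟨h1, h2⟩
      by_cases h : p ≤ 4 * q
      · exact Or.inl ⟨h, h2⟩
      · exact Or.inr ⟨⟨h1, h2⟩, by omega⟩
    · rintro (⟨h1, h2⟩ | ⟨⟨h1, h2⟩, h3⟩)
      · exact ⟨by omega, h2⟩
      · exact ⟨h1, h2⟩
  have hdisj : ∀ X, Disjoint (AX Ω (4 * q)) ((AX Ω X).filter (fun p => 4 * q < p)) := by
    intro X
    rw [Finset.disjoint_left]
    intro p hp hp'
    rw [mem_AX] at hp
    rw [mem_filter] at hp'
    omega
  have hms : ∀ X, 4 * q ≤ X → mass ((AX Ω X).filter (fun p => 4 * q < p)) =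
      mass (AX Ω X) - mass (AX Ω (4 * q)) := by
    intro X hX
    have : mass (AX Ω X) = mass (AX Ω (4 * q)) + mass ((AX Ω X).filter (fun p => 4 * q < p)) := by
      conv_lhs => rw [hsplit X hX]
      exact sum_union (hdisj X)
    linarith
  have hws : ∀ X, 4 * q ≤ X → wt ((AX Ω X).filter (fun p => 4 * q < p)) =
      wt (AX Ω X) - wt (AX Ω (4 * q)) := by
    intro X hX
    have : wt (AX Ω X) = wt (AX Ω (4 * q)) + wt ((AX Ω X).filter (fun p => 4 * q < p)) := by
      conv_lhs => rw [hsplit X hX]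
      exact sum_union (hdisj X)
    linarith
  set ε : ℝ := Real.log 2 - mass (AX Ω (4 * q)) with hε
  have hε0 : 0 < ε := by have := hlt (4 * q); linarith
  have hεq : ε ≤ 1 / q := by
    have hev : ∀ᶠ X in atTop, mass (AX Ω X) ≤ mass (AX Ω (4 * q)) + 1 / q := by
      have h1 : ∀ᶠ X in atTop, v - 1 / (2 * (q:ℝ) ^ 2) < wt (AX Ω X) := by
        apply hw.eventually_const_lt
        have : 0 < 1 / (2 * (q:ℝ) ^ 2) := by positivity
        linarith
      filter_upwards [h1, eventually_ge_atTop (4 * q)] with X hX hX4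
      have h2 := tail_lt hv (AX Ω X) (hAOP X) (hlt X).le q hqOP
        (fun h => hqΩ (mem_AX.1 h).2) (by linarith)
      rw [hms X hX4] at h2
      linarith
    have := le_of_tendsto hm hev
    linarith
  have hεw : v - wt (AX Ω (4 * q)) ≤ 2 * ε ^ 2 := by
    have hev : ∀ᶠ X in atTop, wt (AX Ω X) ≤ wt (AX Ω (4 * q)) + 2 * ε ^ 2 := by
      filter_upwards [eventually_ge_atTop (4 * q)] with X hX
      have h1 : wt ((AX Ω X).filter (fun p => 4 * q < p)) ≤
          2 * (mass ((AX Ω X).filter (fun p => 4 * q < p))) ^ 2 := by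
        unfold wt mass
        calc ∑ p ∈ (AX Ω X).filter (fun p => 4 * q < p), ww p
            ≤ ∑ p ∈ (AX Ω X).filter (fun p => 4 * q < p), 2 * ell p ^ 2 := by
              refine sum_le_sum fun p hp => ?_
              rw [mem_filter] at hp
              exact ww_le_ell_sq (by omega)
          _ = 2 * ∑ p ∈ (AX Ω X).filter (fun p => 4 * q < p), ell p ^ 2 := by rw [mul_sum]
          _ ≤ 2 * (∑ p ∈ (AX Ω X).filter (fun p => 4 * q < p), ell p) ^ 2 := by
              apply mul_le_mul_of_nonneg_left _ (by norm_num)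
              apply sum_sq_le_sq_sum_of_nonneg
              intro p hp
              rw [mem_filter] at hp
              exact (ell_pos (by omega)).le
      rw [hws X hX] at h1
      have h2 : mass ((AX Ω X).filter (fun p => 4 * q < p)) ≤ ε := by
        rw [hms X hX]
        have := hlt X
        linarith
      have h3 : 0 ≤ mass ((AX Ω X).filter (fun p => 4 * q < p)) := by
        apply mass_nonneg
        intro p hp
        rw [mem_filter] at hp
        omega
      have h4 : (mass ((AX Ω X).filter (fun p => 4 * q < p))) ^ 2 ≤ ε ^ 2 :=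
        pow_le_pow_left₀ h3 h2 2
      linarith
    have := le_of_tendsto hw hev
    linarith
  refine ⟨4 * q, AX Ω (4 * q), ε, by omega, hε0, ?_, ?_, by rw [hε]; ring, hεw⟩
  · push_cast
    refine hεq.trans (le_of_eq ?_)
    field_simp
  · intro p hp
    exact ⟨hAOP _ p hp, (mem_AX.1 hp).1⟩

end Pool.Agent.R40
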