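import Pool.Agent.R40.Swap

set_option autoImplicit false

open Finset Filter Topology

namespace Pool.Agent.R40

theorem fill (N : ℕ) (hN : 1 ≤ N) (L U : Finset ℕ) (s τ : ℝ) (hs : 0 < s)
    (hL : L ⊆ PI4 N) (hU : U ⊆ PI4 N) (hdisj : Disjoint L U)
    (hsep : ∀ l ∈ L, ∀ u ∈ U, (l:ℝ) + s ≤ u ∧ (u:ℝ) - l ≤ 0.02 * N)
    (hLc : τ * (4 * N + 1) ≤ L.card) (hUc : τ * (4 * N + 1) ≤ U.card) (hτ : 1 / (N:ℝ) ≤ τ)
    (hbig : 1 / (N:ℝ) ≤ (τ - 1 / N) * N * (s / (40 * (N:ℝ) ^ 2))) :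
    ∃ X ⊆ L ∪ U, τ ≤ mass X ∧ mass X ≤ τ + 0.02 / N := by
  classical
  have hNr : (1:ℝ) ≤ N := by exact_mod_cast hN
  have hN0 : (0:ℝ) < N := by linarith
  have hell1 : ∀ p ∈ PI4 N, ell p ≤ 1 / N := by
    intro p hp
    rw [mem_PI4] at hp
    refine (ell_le (by omega)).trans ?_
    apply one_div_le_one_div_of_le hN0
    exact_mod_cast hp.1.le
  have hell2 : ∀ p ∈ PI4 N, 1 / (4 * (N:ℝ) + 1) ≤ ell p := by
    intro p hp
    rw [mem_PI4] at hp
    refine le_trans ?_ (le_ell (by omega))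
    have : (p:ℝ) ≤ 4 * N := by exact_mod_cast hp.2.1
    apply one_div_le_one_div_of_le (by positivity)
    linarith
  have hell3 : ∀ p ∈ PI4 N, 0 ≤ ell p := fun p hp => le_trans (by positivity) (hell2 p hp)
  have hτ0 : 0 ≤ τ := le_trans (by positivity) hτ
  have hmU : τ ≤ ∑ p ∈ U, ell p := by
    have e1 : ∑ p ∈ U, (1 / (4 * (N:ℝ) + 1)) ≤ ∑ p ∈ U, ell p :=
      sum_le_sum fun p hp => hell2 p (hU hp)
    rw [sum_const, nsmul_eq_mul, mul_one_div] at e1
    refine le_trans ?_ e1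
    rw [le_div_iff₀ (by positivity)]
    exact hUc
  obtain ⟨U0, hU0, hm1, hm2⟩ := exists_subset_mass_le U ell (1 / N) τ (fun p hp => hell1 p (hU hp))
    (fun p hp => hell3 p (hU hp)) hmU hτ0 (by positivity)
  have ht1 : (U0.card : ℝ) ≤ τ * (4 * N + 1) := by
    have e1 : ∑ p ∈ U0, (1 / (4 * (N:ℝ) + 1)) ≤ ∑ p ∈ U0, ell p :=
      sum_le_sum fun p hp => hell2 p (hU (hU0 hp))
    rw [sum_const, nsmul_eq_mul, mul_one_div] at e1
    have e2 := e1.trans hm2
    rwa [div_le_iff₀ (by positivity)] at e2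
  have ht2 : (τ - 1 / N) * N ≤ U0.card := by
    have e1 : ∑ p ∈ U0, ell p ≤ ∑ p ∈ U0, (1 / (N:ℝ)) :=
      sum_le_sum fun p hp => hell1 p (hU (hU0 hp))
    rw [sum_const, nsmul_eq_mul, mul_one_div] at e1
    have e2 := hm1.trans e1
    rwa [le_div_iff₀ hN0] at e2
  have ht3 : U0.card ≤ L.card := by
    have : (U0.card : ℝ) ≤ L.card := ht1.trans hLc
    exact_mod_cast this
  obtain ⟨L0, hL0, hL0c⟩ := exists_subset_card_eq ht3
  have hgap : ∀ l ∈ L0, ∀ u ∈ U0, s / (40 * (N:ℝ) ^ 2) ≤ ell l - ell u ∧ ell l - ell u ≤ 0.02 / N := by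
    intro l hl u hu
    obtain ⟨h1, h2⟩ := hsep l (hL0 hl) u (hU0 hu)
    have hlP := mem_PI4.1 (hL (hL0 hl))
    have huP := mem_PI4.1 (hU (hU0 hu))
    have hlu : l ≤ u := by
      have : (l:ℝ) ≤ u := by linarith
      exact_mod_cast this
    have e := ell_sub (a := l) (b := u) (by omega) hlu
    have hlN : (N:ℝ) ≤ l := by exact_mod_cast hlP.1.le
    have huN : (N:ℝ) ≤ u := by exact_mod_cast huP.1.le
    have hu4 : (u:ℝ) ≤ 4 * N := by exact_mod_cast huP.2.1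
    have hl0 : (0:ℝ) < l := by linarith
    have hu0 : (0:ℝ) < u := by linarith
    constructor
    · refine le_trans ?_ e.2
      have e1 : 2 * ((u:ℝ) * (u + 1)) ≤ 40 * (N:ℝ) ^ 2 := by
        have : (u:ℝ) * (u + 1) ≤ (4 * N) * (5 * N) :=
          mul_le_mul hu4 (by linarith) (by linarith) (by linarith)
        linarith
      apply div_le_div₀ (by linarith) (by linarith) (by positivity) e1
    · refine e.1.trans ?_
      rw [div_le_div_iff₀ (by positivity) hN0]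
      have e1 : (N:ℝ) * N ≤ l * (u + 1) := mul_le_mul hlN (by linarith) (by linarith) (by linarith)
      calc ((u:ℝ) - l) * N ≤ 0.02 * N * N := mul_le_mul_of_nonneg_right h2 hN0.le
        _ = 0.02 * (N * N) := by ring
        _ ≤ 0.02 * (l * (u + 1)) := mul_le_mul_of_nonneg_left e1 (by norm_num)
  have hmL0 : ∑ p ∈ U0, ell p + U0.card * (s / (40 * (N:ℝ) ^ 2)) ≤ ∑ p ∈ L0, ell p := by
    set e := Finset.equivOfCardEq hL0c.symm with he
    have e1 : ∑ p ∈ U0, ell p = ∑ p : U0, ell p := (sum_coe_sort U0 ell).symm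
    have e2 : ∑ p ∈ L0, ell p = ∑ p : L0, ell p := (sum_coe_sort L0 ell).symm
    have e3 : ∑ p : L0, ell p = ∑ p : U0, ell (e p) := (Equiv.sum_comp e (fun q : L0 => ell q)).symm
    rw [e1, e2, e3]
    have e4 : ((U0.card : ℝ)) * (s / (40 * (N:ℝ) ^ 2)) = ∑ p : U0, s / (40 * (N:ℝ) ^ 2) := by
      rw [sum_const, card_univ, Fintype.card_coe, nsmul_eq_mul]
    rw [e4, ← sum_add_distrib]
    apply sum_le_sum
    intro p _
    have := (hgap (e p) (e p).2 p p.2).1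
    linarith
  have hL0mass : τ ≤ ∑ p ∈ L0, ell p := by
    have e1 : (τ - 1 / N) * N * (s / (40 * (N:ℝ) ^ 2)) ≤ U0.card * (s / (40 * (N:ℝ) ^ 2)) :=
      mul_le_mul_of_nonneg_right ht2 (by positivity)
    linarith
  have hdis : Disjoint U0 L0 := disjoint_of_subset_left hU0 (disjoint_of_subset_right hL0 hdisj.symm)
  obtain ⟨X, hX, hX1, hX2⟩ := exists_interpolation ell (0.02 / N) τ (by positivity) U0.card ∅ U0 L0 rfl
    hL0c hdis (disjoint_empty_left _) (disjoint_empty_left _)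
    (fun u hu l hl => (hgap l hl u hu).2) (by simpa using hm2) (by simpa using hL0mass)
  refine ⟨X, ?_, hX1, hX2⟩
  intro p hp
  have := hX hp
  simp only [mem_union, notMem_empty, false_or] at this
  rcases this with h | h
  · exact mem_union_right _ (hU0 h)
  · exact mem_union_left _ (hL0 h)

end Pool.Agent.R40
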