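import Mathlib

set_option autoImplicit false

open Finset

namespace Pool.Agent.R40

/-- logarithm of `1 + 1/p` -/
noncomputable def ell (p : ℕ) : ℝ := Real.log (1 + 1 / (p:ℝ))

/-- minus the logarithm of `1 - 1/p^2` -/
noncomputable def ww (p : ℕ) : ℝ := - Real.log (1 - 1 / (p:ℝ) ^ 2)

lemma ell_le {p : ℕ} (hp : 1 ≤ p) : ell p ≤ 1 / p := by
  have hp0 : (0:ℝ) < p := by exact_mod_cast hp
  unfold ell
  have := Real.log_le_sub_one_of_pos (show (0:ℝ) < 1 + 1 / p by positivity)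
  linarith

lemma le_ell {p : ℕ} (hp : 1 ≤ p) : 1 / ((p:ℝ) + 1) ≤ ell p := by
  have hp0 : (0:ℝ) < p := by exact_mod_cast hp
  unfold ell
  have h1 := Real.one_sub_inv_le_log_of_pos (show (0:ℝ) < 1 + 1 / p by positivity)
  have h2 : 1 - (1 + 1 / (p:ℝ))⁻¹ = 1 / ((p:ℝ) + 1) := by field_simp; ring
  rwa [h2] at h1

lemma ell_pos {p : ℕ} (hp : 1 ≤ p) : 0 < ell p :=
  lt_of_lt_of_le (by positivity) (le_ell hp)

lemma ww_le {p : ℕ} (hp : 2 ≤ p) : ww p ≤ 1 / ((p:ℝ) ^ 2 - 1) := by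
  have hp0 : (2:ℝ) ≤ p := by exact_mod_cast hp
  have h0 : 0 < (p:ℝ) ^ 2 - 1 := by nlinarith
  have h1 : 0 < 1 - 1 / (p:ℝ) ^ 2 := by
    rw [sub_pos, div_lt_one (by positivity)]; linarith
  unfold ww
  have h2 := Real.one_sub_inv_le_log_of_pos h1
  have h3 : 1 - (1 - 1 / (p:ℝ) ^ 2)⁻¹ = - (1 / ((p:ℝ) ^ 2 - 1)) := by
    have : (p:ℝ) ^ 2 ≠ 0 := by positivity
    field_simp; ring
  rw [h3] at h2
  linarith

lemma le_ww {p : ℕ} (hp : 2 ≤ p) : 1 / (p:ℝ) ^ 2 ≤ ww p := by
  have hp0 : (2:ℝ) ≤ p := by exact_mod_cast hp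
  have h1 : 0 < 1 - 1 / (p:ℝ) ^ 2 := by
    rw [sub_pos, div_lt_one (by positivity)]; nlinarith
  unfold ww
  have h2 := Real.log_le_sub_one_of_pos h1
  linarith

lemma ww_pos {p : ℕ} (hp : 2 ≤ p) : 0 < ww p := by
  have hp0 : (2:ℝ) ≤ p := by exact_mod_cast hp
  exact lt_of_lt_of_le (by positivity) (le_ww hp)

lemma ww_le_ell_div {p : ℕ} (hp : 2 ≤ p) : ww p ≤ ell p / ((p:ℝ) - 1) := by
  have hp0 : (2:ℝ) ≤ p := by exact_mod_cast hp
  have h1 := le_ell (p := p) (by omega)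
  have h2 : (0:ℝ) < p - 1 := by linarith
  refine (ww_le hp).trans ?_
  rw [le_div_iff₀ h2]
  refine le_trans (le_of_eq ?_) h1
  have h3 : (p:ℝ) ^ 2 - 1 = (p - 1) * (p + 1) := by ring
  rw [h3]; field_simp

lemma ww_le_ell_sq {p : ℕ} (hp : 3 ≤ p) : ww p ≤ 2 * ell p ^ 2 := by
  have hp0 : (3:ℝ) ≤ p := by exact_mod_cast hp
  have h1 := le_ell (p := p) (by omega)
  refine (ww_le (by omega)).trans ?_
  have h2 : (1 / ((p:ℝ) + 1)) ^ 2 ≤ ell p ^ 2 := pow_le_pow_left₀ (by positivity) h1 2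
  refine le_trans ?_ (mul_le_mul_of_nonneg_left h2 (by norm_num))
  have h3 : 0 < (p:ℝ) ^ 2 - 1 := by nlinarith
  rw [div_pow, one_pow, mul_one_div, div_le_div_iff₀ h3 (by positivity)]
  nlinarith

lemma ww_le_tele {p : ℕ} (hp : 2 ≤ p) : ww p ≤ 1 / ((p:ℝ) - 1) - 1 / p := by
  have hp0 : (2:ℝ) ≤ p := by exact_mod_cast hp
  refine (ww_le hp).trans ?_
  have h2 : (0:ℝ) < p - 1 := by linarith
  have h3 : 0 < (p:ℝ) ^ 2 - 1 := by nlinarith
  have h4 : 1 / ((p:ℝ) - 1) - 1 / p = 1 / ((p - 1) * p) := by field_simp; ring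
  rw [h4]
  apply one_div_le_one_div_of_le (by positivity)
  nlinarith

/-- the difference of two values of `ell` -/
lemma ell_sub {a b : ℕ} (ha : 1 ≤ a) (hab : a ≤ b) :
    ell a - ell b ≤ ((b:ℝ) - a) / (a * (b + 1)) ∧
    ((b:ℝ) - a) / (2 * (b * (b + 1))) ≤ ell a - ell b := by
  have ha0 : (1:ℝ) ≤ a := by exact_mod_cast ha
  have hb0 : (a:ℝ) ≤ b := by exact_mod_cast hab
  have hb1 : (1:ℝ) ≤ b := by linarith
  have e1 : ell a - ell b = Real.log (1 + ((b:ℝ) - a) / (a * (b + 1))) := by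
    unfold ell
    rw [← Real.log_div (by positivity) (by positivity)]
    congr 1
    field_simp; ring
  have hx0 : 0 ≤ ((b:ℝ) - a) / (a * (b + 1)) := div_nonneg (by linarith) (by positivity)
  rw [e1]
  constructor
  · have := Real.log_le_sub_one_of_pos (show (0:ℝ) < 1 + ((b:ℝ) - a) / (a * (b + 1)) by positivity)
    linarith
  · have h1 := Real.one_sub_inv_le_log_of_pos
      (show (0:ℝ) < 1 + ((b:ℝ) - a) / (a * (b + 1)) by positivity)
    refine le_trans ?_ h1
    have h2 : 1 - (1 + ((b:ℝ) - a) / (a * (b + 1)))⁻¹ = ((b:ℝ) - a) / (a * (b + 1) + (b - a)) := by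
      have h3 : (a:ℝ) * (b + 1) + (b - a) ≠ 0 := by nlinarith
      have h4 : 1 + ((b:ℝ) - a) / (a * (b + 1)) = (a * (b + 1) + (b - a)) / (a * (b + 1)) := by
        field_simp
      rw [h4]
      field_simp; ring
    rw [h2]
    apply div_le_div_of_nonneg_left (by linarith)
    · nlinarith
    · nlinarith

/-- mass and weight of a finite set -/
noncomputable def mass (B : Finset ℕ) : ℝ := ∑ p ∈ B, ell p
/-- weight -/
noncomputable def wt (B : Finset ℕ) : ℝ := ∑ p ∈ B, ww p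

lemma mass_nonneg {B : Finset ℕ} (hB : ∀ p ∈ B, 1 ≤ p) : 0 ≤ mass B :=
  sum_nonneg fun p hp => (ell_pos (hB p hp)).le

lemma wt_nonneg {B : Finset ℕ} (hB : ∀ p ∈ B, 2 ≤ p) : 0 ≤ wt B :=
  sum_nonneg fun p hp => (ww_pos (hB p hp)).le

lemma wt_le_half {B : Finset ℕ} (hB : ∀ p ∈ B, 3 ≤ p) : wt B ≤ 1 / 2 := by
  have h1 : ∀ N : ℕ, 2 ≤ N → ∑ n ∈ Finset.Ioc 2 N, (1 / ((n:ℝ) - 1) - 1 / n) = 1 / 2 - 1 / N := by
    intro N hN
    induction N, hN using Nat.le_induction with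
    | base => norm_num
    | succ N hN ih =>
      rw [Finset.sum_Ioc_succ_top (by omega), ih]
      push_cast
      ring
  obtain ⟨N, hN⟩ := B.exists_nat_subset_range
  have hsub : B ⊆ Finset.Ioc 2 (max N 2) := by
    intro p hp
    have h2 := hB p hp
    have h3 := Finset.mem_range.1 (hN hp)
    rw [Finset.mem_Ioc]
    have := le_max_left N 2
    omega
  calc wt B ≤ ∑ p ∈ B, (1 / ((p:ℝ) - 1) - 1 / p) :=
        sum_le_sum fun p hp => ww_le_tele (by have := hB p hp; omega)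
    _ ≤ ∑ n ∈ Finset.Ioc 2 (max N 2), (1 / ((n:ℝ) - 1) - 1 / n) := by
        apply sum_le_sum_of_subset_of_nonneg hsub
        intro n hn _
        rw [Finset.mem_Ioc] at hn
        have : (2:ℝ) < n := by exact_mod_cast hn.1
        rw [sub_nonneg]
        apply one_div_le_one_div_of_le <;> linarith
    _ = 1 / 2 - 1 / ((max N 2 : ℕ) : ℝ) := h1 _ (le_max_right _ _)
    _ ≤ 1 / 2 := by
        have : (0:ℝ) ≤ 1 / ((max N 2 : ℕ) : ℝ) := by positivity
        linarith

/-- a subset with prescribed mass, from above -/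
lemma exists_subset_mass_ge (T : Finset ℕ) (f : ℕ → ℝ) (δ τ : ℝ) (hf : ∀ p ∈ T, f p ≤ δ)
    (hτ : τ ≤ ∑ p ∈ T, f p) (hτ0 : 0 ≤ τ) (hδ : 0 ≤ δ) :
    ∃ D ⊆ T, τ ≤ ∑ p ∈ D, f p ∧ ∑ p ∈ D, f p ≤ τ + δ := by
  classical
  induction T using Finset.induction_on with
  | empty =>
    refine ⟨∅, le_rfl, hτ, ?_⟩
    simp; linarith
  | insert a T ha ih =>
    by_cases h : τ ≤ ∑ p ∈ T, f p
    · obtain ⟨D, hD, h1, h2⟩ := ih (fun p hp => hf p (mem_insert_of_mem hp)) h
      exact ⟨D, hD.trans (subset_insert _ _), h1, h2⟩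
    · push Not at h
      refine ⟨insert a T, le_rfl, hτ, ?_⟩
      rw [sum_insert ha]
      have := hf a (mem_insert_self _ _)
      linarith

/-- a subset with prescribed mass, from below -/
lemma exists_subset_mass_le (T : Finset ℕ) (f : ℕ → ℝ) (δ τ : ℝ) (hf : ∀ p ∈ T, f p ≤ δ)
    (hf0 : ∀ p ∈ T, 0 ≤ f p) (hτ : τ ≤ ∑ p ∈ T, f p) (hτ0 : 0 ≤ τ) (hδ : 0 ≤ δ) :
    ∃ D ⊆ T, τ - δ ≤ ∑ p ∈ D, f p ∧ ∑ p ∈ D, f p ≤ τ := by
  classical
  induction T using Finset.induction_on with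
  | empty =>
    refine ⟨∅, le_rfl, ?_, ?_⟩
    · simp at hτ ⊢; linarith
    · simpa using hτ0
  | insert a T ha ih =>
    by_cases h : τ ≤ ∑ p ∈ T, f p
    · obtain ⟨D, hD, h1, h2⟩ := ih (fun p hp => hf p (mem_insert_of_mem hp))
        (fun p hp => hf0 p (mem_insert_of_mem hp)) h
      exact ⟨D, hD.trans (subset_insert _ _), h1, h2⟩
    · push Not at h
      rw [sum_insert ha] at hτ
      have := hf a (mem_insert_self _ _)
      exact ⟨T, subset_insert _ _, by linarith, h.le⟩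

/-- interpolation between two sets of the same size -/
lemma exists_interpolation (f : ℕ → ℝ) (δ τ : ℝ) (hδ : 0 ≤ δ) (t : ℕ) :
    ∀ (Z U L : Finset ℕ), U.card = t → L.card = t → Disjoint U L → Disjoint Z U → Disjoint Z L →
    (∀ u ∈ U, ∀ l ∈ L, f l - f u ≤ δ) → ∑ p ∈ Z, f p + ∑ p ∈ U, f p ≤ τ →
    τ ≤ ∑ p ∈ Z, f p + ∑ p ∈ L, f p →
    ∃ X ⊆ Z ∪ (U ∪ L), τ ≤ ∑ p ∈ X, f p ∧ ∑ p ∈ X, f p ≤ τ + δ := by
  classical
  induction t with
  | zero =>
    intro Z U L hU hL _ _ _ _ h1 h2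
    rw [Finset.card_eq_zero] at hU hL
    subst hU hL
    simp at h1 h2
    exact ⟨Z, by simp, h2, by linarith⟩
  | succ t ih =>
    intro Z U L hU hL hUL hZU hZL hf h1 h2
    obtain ⟨u, hu⟩ : U.Nonempty := by rw [← Finset.card_pos]; omega
    obtain ⟨l, hl⟩ : L.Nonempty := by rw [← Finset.card_pos]; omega
    have hlZ : l ∉ Z := fun h => (Finset.disjoint_left.1 hZL h) hl
    have hsumU : ∑ p ∈ U, f p = f u + ∑ p ∈ U.erase u, f p := (add_sum_erase _ _ hu).symm
    have hsumL : ∑ p ∈ L, f p = f l + ∑ p ∈ L.erase l, f p := (add_sum_erase _ _ hl).symm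
    have hsumZ : ∑ p ∈ insert l Z, f p = f l + ∑ p ∈ Z, f p := sum_insert hlZ
    have hlU : l ∉ U := fun h => (Finset.disjoint_left.1 hUL h) hl
    by_cases h : ∑ p ∈ insert l Z, f p + ∑ p ∈ U.erase u, f p ≤ τ
    · obtain ⟨X, hX, hX1, hX2⟩ := ih (insert l Z) (U.erase u) (L.erase l)
        (by rw [card_erase_of_mem hu]; omega) (by rw [card_erase_of_mem hl]; omega)
        (disjoint_of_subset_left (erase_subset _ _) (disjoint_of_subset_right (erase_subset _ _) hUL))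
        (by
          rw [disjoint_insert_left]
          exact ⟨fun h' => hlU (mem_of_mem_erase h'), disjoint_of_subset_right (erase_subset _ _) hZU⟩)
        (by
          rw [disjoint_insert_left]
          exact ⟨notMem_erase _ _, disjoint_of_subset_right (erase_subset _ _) hZL⟩)
        (fun u' hu' l' hl' => hf u' (mem_of_mem_erase hu') l' (mem_of_mem_erase hl'))
        h (by rw [hsumZ]; linarith)
      refine ⟨X, hX.trans ?_, hX1, hX2⟩
      intro a ha
      simp only [mem_union, mem_insert, mem_erase] at ha ⊢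
      rcases ha with (rfl | h) | (h | h)
      · exact Or.inr (Or.inr hl)
      · exact Or.inl h
      · exact Or.inr (Or.inl h.2)
      · exact Or.inr (Or.inr h.2)
    · push Not at h
      refine ⟨insert l Z ∪ U.erase u, ?_, ?_, ?_⟩
      · intro a ha
        simp only [mem_union, mem_insert, mem_erase] at ha ⊢
        rcases ha with (rfl | h) | h
        · exact Or.inr (Or.inr hl)
        · exact Or.inl h
        · exact Or.inr (Or.inl h.2)
      · rw [sum_union]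
        · exact h.le
        · rw [disjoint_insert_left]
          exact ⟨fun h' => hlU (mem_of_mem_erase h'), disjoint_of_subset_right (erase_subset _ _) hZU⟩
      · rw [sum_union]
        · have := hf u hu l hl
          rw [hsumZ]; linarith
        · rw [disjoint_insert_left]
          exact ⟨fun h' => hlU (mem_of_mem_erase h'), disjoint_of_subset_right (erase_subset _ _) hZU⟩

/-- separation of a finite set of naturals -/
lemma exists_separated (C : Finset ℕ) (s : ℕ) (hC : 3 * s ≤ C.card) :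
    ∃ L ⊆ C, ∃ U ⊆ C, L.card = s ∧ U.card = s ∧ ∀ l ∈ L, ∀ u ∈ U, l + s + 1 ≤ u := by
  classical
  set n := C.card with hn
  set e := C.orderEmbOfFin hn.symm with he
  have hstep : ∀ (i j : ℕ) (hi : i < n) (hj : j < n), i ≤ j →
      (e ⟨i, hi⟩ : ℕ) + (j - i) ≤ e ⟨j, hj⟩ := by
    intro i j hi hj hij
    induction j, hij using Nat.le_induction with
    | base => simp
    | succ j hij ih =>
      have h1 := ih (by omega)
      have h2 : e ⟨j, by omega⟩ < e ⟨j+1, hj⟩ := by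
        apply (OrderEmbedding.lt_iff_lt _).2
        exact Fin.mk_lt_mk.2 (by omega)
      omega
  have hinj : Function.Injective e := e.injective
  set L : Finset ℕ := (Finset.univ.filter (fun i : Fin n => (i:ℕ) < s)).image e with hL
  set U : Finset ℕ := (Finset.univ.filter (fun i : Fin n => 2 * s ≤ (i:ℕ) ∧ (i:ℕ) < 3 * s)).image e
    with hU
  have hcardL : L.card = s := by
    rw [hL, card_image_of_injective _ hinj]
    rw [← Fintype.card_subtype]
    have : Fintype.card {i : Fin n // (i:ℕ) < s} = Fintype.card (Fin s) := by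
      apply Fintype.card_congr
      exact ⟨fun i => ⟨i.1, i.2⟩, fun i => ⟨⟨i, by omega⟩, i.2⟩, fun i => rfl, fun i => rfl⟩
    rw [this, Fintype.card_fin]
  have hcardU : U.card = s := by
    rw [hU, card_image_of_injective _ hinj]
    rw [← Fintype.card_subtype]
    have : Fintype.card {i : Fin n // 2 * s ≤ (i:ℕ) ∧ (i:ℕ) < 3 * s} = Fintype.card (Fin s) := by
      apply Fintype.card_congr
      refine ⟨fun i => ⟨i.1 - 2 * s, by have := i.2; omega⟩,
        fun i => ⟨⟨i + 2 * s, by omega⟩, ⟨by simp, by have := i.2; simp; omega⟩⟩, ?_, ?_⟩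
      · intro i
        apply Subtype.ext
        apply Fin.ext
        have := i.2.1
        simp only
        omega
      · intro i
        apply Fin.ext
        simp
    rw [this, Fintype.card_fin]
  refine ⟨L, ?_, U, ?_, hcardL, hcardU, ?_⟩
  · intro x hx
    rw [hL, mem_image] at hx
    obtain ⟨i, _, rfl⟩ := hx
    exact C.orderEmbOfFin_mem hn.symm i
  · intro x hx
    rw [hU, mem_image] at hx
    obtain ⟨i, _, rfl⟩ := hx
    exact C.orderEmbOfFin_mem hn.symm i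
  · intro l hl u hu
    rw [hL, mem_image] at hl
    rw [hU, mem_image] at hu
    obtain ⟨i, hi, rfl⟩ := hl
    obtain ⟨j, hj, rfl⟩ := hu
    rw [mem_filter] at hi hj
    have h1 := hstep i.1 j.1 i.2 j.2 (by omega)
    have h2 : (e ⟨i.1, i.2⟩ : ℕ) = e i := rfl
    have h3 : (e ⟨j.1, j.2⟩ : ℕ) = e j := rfl
    rw [h2, h3] at h1
    omega

end Pool.Agent.R40
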