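import Pool.Agent.R40.Step

set_option autoImplicit false

open Finset Filter Topology

namespace Pool.Agent.R40

lemma exists_record (n : ℕ) : Odd n → PND n → ∃ b, b ≤ n ∧ B2 b ∧ g n ≤ g b := by
  induction n using Nat.strong_induction_on with
  | _ n ih =>
    intro hn hP
    by_cases h : B2 n
    · exact ⟨n, le_rfl, h, le_rfl⟩
    · unfold B2 at h
      push Not at h
      obtain ⟨k, hk, hko, hkP, hgk⟩ := h hn hP
      obtain ⟨b, hb, hB, hgb⟩ := ih k hk hko hkP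
      exact ⟨b, by omega, hB, hgk.trans hgb⟩

lemma record_mono {b b' : ℕ} (hb : B2 b) (hb' : B2 b') (h : b ≤ b') : g b ≤ g b' := by
  rcases h.eq_or_lt with h | h
  · rw [h]
  · exact (hb'.2.2 b h hb.1 hb.2.1).le

theorem records_infinite : (Set.ofPred B2).Infinite := by
  obtain ⟨v, hv, hV2, hV8, hbase⟩ := base_N
  intro hfin
  obtain ⟨G, hG⟩ : ∃ G : ℝ, ∀ b, B2 b → g b ≤ G := by
    obtain ⟨G, hG⟩ := (hfin.image g).bddAbove
    exact ⟨G, fun b hb => hG (Set.mem_image_of_mem g hb)⟩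
  have ht : Tendsto (fun x : ℝ => √x * Real.log x) atTop atTop :=
    Filter.Tendsto.atTop_mul_atTop₀ Real.tendsto_sqrt_atTop Real.tendsto_log_atTop
  have hev := (step hv hV2 hV8).and (tendsto_natCast_atTop_atTop.eventually
    (ht.eventually_gt_atTop (2 * Real.log (4 * G) / 0.09)))
  obtain ⟨Y, hY⟩ := eventually_atTop.1 hev
  obtain ⟨N, hNY, A, ε, hε0, hε1, hε2, hA, hmA, hwA⟩ := hbase Y
  obtain ⟨hstep, hbig⟩ := hY N hNY
  obtain ⟨k0, k1, ⟨hk0o, hk0P⟩, _, _, _, hlog, _, hg0, _, _⟩ := hstep A ε hε0 hε1 hε2 hA hmA hwA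
  obtain ⟨b, _, hb, hgb⟩ := exists_record k0 hk0o hk0P
  have h1 : (1/4) * √(k0:ℝ) ≤ G := hg0.trans (hgb.trans (hG b hb))
  have hk0pos : (0:ℝ) < k0 := by exact_mod_cast hk0P.1
  have hs : 0 < √(k0:ℝ) := Real.sqrt_pos.2 hk0pos
  have h2 : √(k0:ℝ) ≤ 4 * G := by linarith
  have h3 : Real.log (√(k0:ℝ)) ≤ Real.log (4 * G) := Real.log_le_log hs h2
  rw [Real.log_sqrt hk0pos.le] at h3
  rw [div_lt_iff₀ (by norm_num)] at hbig
  have e1 : 0.09 * √(N:ℝ) * Real.log N = √(N:ℝ) * Real.log N * 0.09 := by ring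
  rw [e1] at hlog
  linarith

theorem main_unbounded (C : ℝ) : ∃ j, C < g (Nat.nth B2 (j+1)) - g (Nat.nth B2 j) := by
  classical
  by_contra hcon
  push Not at hcon
  obtain ⟨v, hv, hV2, hV8, hbase⟩ := base_N
  set D : ℝ := max C 1 with hD
  have hD1 : 1 ≤ D := le_max_right _ _
  have hDC : C ≤ D := le_max_left _ _
  have hinc : ∀ j, g (Nat.nth B2 (j+1)) - g (Nat.nth B2 j) ≤ D := fun j => (hcon j).trans hDC
  have hinf := records_infinite
  -- analytic conditions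
  have hsmall : Tendsto (fun x : ℝ => x ^ 2 * Real.exp (-x)) atTop (𝓝 0) :=
    Real.tendsto_pow_mul_exp_neg_atTop_nhds_zero 2
  have ht2 : Tendsto (fun x : ℝ => 0.04 * √x) atTop atTop :=
    Real.tendsto_sqrt_atTop.const_mul_atTop (by norm_num)
  have hev1 : ∀ᶠ x : ℝ in atTop, (0.04 * √x) ^ 2 * Real.exp (-(0.04 * √x)) < 0.04 ^ 2 / (2 * D) :=
    (hsmall.comp ht2).eventually_lt_const (by positivity)
  have ht135 : Tendsto (fun N : ℕ => 135 * N) atTop atTop :=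
    tendsto_id.const_mul_atTop' (by norm_num)
  have hev := ((step hv hV2 hV8).and (tendsto_natCast_atTop_atTop.eventually hev1)).and
    ((ht135.eventually (rankin 0.001 (by norm_num))).and (eventually_ge_atTop 20000))
  obtain ⟨Y, hY⟩ := eventually_atTop.1 hev
  obtain ⟨N, hNY, A, ε, hε0, hε1, hε2, hA, hmA, hwA⟩ := hbase Y
  obtain ⟨⟨hstep, hexp⟩, hrank, hN⟩ := hY N hNY
  obtain ⟨k0, k1, ⟨hk0o, hk0P⟩, ⟨hk1o, hk1P⟩, hk01, hk10, hlog, hg1, _, hupp, hrec⟩ :=
    hstep A ε hε0 hε1 hε2 hA hmA hwA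
  have hk0pos : (0:ℝ) < k0 := by exact_mod_cast hk0P.1
  have hk1pos : (0:ℝ) < k1 := by exact_mod_cast hk1P.1
  have hs0 : 0 < √(k0:ℝ) := Real.sqrt_pos.2 hk0pos
  have hNr : (20000:ℝ) ≤ N := by exact_mod_cast hN
  have hN0 : (0:ℝ) < N := by linarith
  -- counting
  set r0 := Nat.count B2 (k0 + 1) with hr0
  set r1 := Nat.count B2 (k1 + 1) with hr1
  have hr01 : r0 ≤ r1 := Nat.count_monotone _ (by omega)
  obtain ⟨b0, hb0k, hb0, hgb0⟩ := exists_record k0 hk0o hk0P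
  obtain ⟨b1, hb1k, hb1, hgb1⟩ := exists_record k1 hk1o hk1P
  have hr0pos : 1 ≤ r0 := by
    have h1 : Nat.count B2 b0 < r0 := Nat.count_strict_mono hb0 (by omega)
    omega
  have hr1pos : 1 ≤ r1 := hr0pos.trans hr01
  have hn0 : Nat.nth B2 (r0 - 1) < k0 + 1 := Nat.nth_lt_of_lt_count (by omega)
  have hB0 : B2 (Nat.nth B2 (r0 - 1)) := Nat.nth_mem_of_infinite hinf _
  have hB1 : B2 (Nat.nth B2 (r1 - 1)) := Nat.nth_mem_of_infinite hinf _
  have hup : g (Nat.nth B2 (r0 - 1)) ≤ (2 * Real.exp v - 2 + 400000000 / N) * √(k0:ℝ) :=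
    hupp _ (by omega) hB0.1 hB0.2.1
  have hlow : (2 * Real.exp v - 2 + 400000001 / N) * √(k0:ℝ) ≤ g (Nat.nth B2 (r1 - 1)) := by
    refine hg1.trans (hgb1.trans ?_)
    apply record_mono hb1 hB1
    have h1 : Nat.count B2 b1 < r1 := Nat.count_strict_mono hb1 (by omega)
    have h2 : Nat.nth B2 (Nat.count B2 b1) = b1 := Nat.nth_count hb1
    rw [← h2]
    exact Nat.nth_monotone hinf (by omega)
  have hdiff : √(k0:ℝ) / N ≤ g (Nat.nth B2 (r1 - 1)) - g (Nat.nth B2 (r0 - 1)) := by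
    have e1 : (2 * Real.exp v - 2 + 400000001 / (N:ℝ)) * √(k0:ℝ) -
      (2 * Real.exp v - 2 + 400000000 / N) * √(k0:ℝ) = √(k0:ℝ) / N := by ring
    linarith
  have htel : ∀ i j, g (Nat.nth B2 (i + j)) - g (Nat.nth B2 i) ≤ D * j := by
    intro i j
    induction j with
    | zero => simp
    | succ j ih =>
      have := hinc (i + j)
      rw [← add_assoc]
      push_cast
      linarith
  have htel2 : g (Nat.nth B2 (r1 - 1)) - g (Nat.nth B2 (r0 - 1)) ≤ D * ((r1:ℝ) - r0) := by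
    have h1 := htel (r0 - 1) (r1 - r0)
    have h2 : r0 - 1 + (r1 - r0) = r1 - 1 := by omega
    rw [h2, Nat.cast_sub hr01] at h1
    exact h1
  -- count bound
  have hcount : ((r1:ℝ) - r0) ≤ √(k1:ℝ) * Real.exp (0.001 * √((135 * N : ℕ):ℝ) -
      Real.log k1 / Real.log ((135 * N : ℕ):ℝ)) := by
    refine le_trans ?_ (hrank k1 hk1P.1)
    have h1 : r1 - r0 ≤ ((Finset.Icc 1 k1).filter (fun n => (∏ p ∈ n.primeFactors, p = n) ∧
      ∀ p ∈ n.primeFactors, p ≤ 135 * N)).card := by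
      rw [hr1, hr0, Nat.count_eq_card_filter_range, Nat.count_eq_card_filter_range]
      have hsub : filter B2 (range (k0 + 1)) ⊆ filter B2 (range (k1 + 1)) := by
        apply filter_subset_filter
        apply range_subset_range.2
        omega
      rw [← card_sdiff_of_subset hsub]
      apply card_le_card
      intro b hb
      rw [Finset.mem_sdiff, Finset.mem_filter, Finset.mem_filter, Finset.mem_range,
        Finset.mem_range] at hb
      obtain ⟨⟨h1, h2⟩, h3⟩ := hb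
      have h4 : k0 < b := by
        by_contra h
        exact h3 ⟨by omega, h2⟩
      rw [Finset.mem_filter, Finset.mem_Icc]
      exact ⟨⟨by have := h2.2.1.1; omega, by omega⟩, hrec b h2 h4 (by omega)⟩
    have h2 : ((r1 - r0 : ℕ) : ℝ) = (r1:ℝ) - r0 := Nat.cast_sub hr01
    rw [← h2]
    exact_mod_cast h1
  have hexpo : 0.001 * √((135 * N : ℕ):ℝ) - Real.log k1 / Real.log ((135 * N : ℕ):ℝ) ≤
      -(0.04 * √(N:ℝ)) := by
    have h1 : √((135 * N : ℕ):ℝ) ≤ 12 * √(N:ℝ) := by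
      rw [Real.sqrt_le_left (by positivity), mul_pow, Real.sq_sqrt hN0.le]
      push_cast
      linarith
    have hlogN : 0 < Real.log N := Real.log_pos (by linarith)
    have h2 : Real.log ((135 * N : ℕ):ℝ) ≤ 1.5 * Real.log N := by
      push_cast
      rw [Real.log_mul (by norm_num) hN0.ne']
      have h3 : Real.log 135 ≤ 0.5 * Real.log N := by
        have h4 : Real.log (135 ^ 2) ≤ Real.log N := Real.log_le_log (by norm_num) (by linarith)
        rw [Real.log_pow] at h4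
        push_cast at h4
        linarith
      linarith
    have h3 : 0 < Real.log ((135 * N : ℕ):ℝ) := by
      apply Real.log_pos
      push_cast
      linarith
    have h4 : Real.log k0 ≤ Real.log k1 := Real.log_le_log hk0pos (by exact_mod_cast hk01)
    have h5 : 0.06 * √(N:ℝ) ≤ Real.log k1 / Real.log ((135 * N : ℕ):ℝ) := by
      rw [le_div_iff₀ h3]
      calc 0.06 * √(N:ℝ) * Real.log ((135 * N : ℕ):ℝ) ≤ 0.06 * √(N:ℝ) * (1.5 * Real.log N) :=
            mul_le_mul_of_nonneg_left h2 (by positivity)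
        _ = 0.09 * √(N:ℝ) * Real.log N := by ring
        _ ≤ Real.log k0 := hlog
        _ ≤ _ := h4
    have h6 : 0 ≤ √(N:ℝ) := Real.sqrt_nonneg _
    linarith
  have hsq1 : √(k1:ℝ) ≤ 2 * √(k0:ℝ) := by
    rw [Real.sqrt_le_left (by positivity), mul_pow, Real.sq_sqrt hk0pos.le]
    have : (k1:ℝ) ≤ 2 * k0 := by exact_mod_cast hk10
    linarith
  have hfinal : √(k0:ℝ) / N ≤ D * (2 * √(k0:ℝ) * Real.exp (-(0.04 * √(N:ℝ)))) := by
    calc √(k0:ℝ) / N ≤ _ := hdiff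
      _ ≤ D * ((r1:ℝ) - r0) := htel2
      _ ≤ D * (√(k1:ℝ) * Real.exp (0.001 * √((135 * N : ℕ):ℝ) -
          Real.log k1 / Real.log ((135 * N : ℕ):ℝ))) :=
          mul_le_mul_of_nonneg_left hcount (by linarith)
      _ ≤ D * (2 * √(k0:ℝ) * Real.exp (-(0.04 * √(N:ℝ)))) := by
          apply mul_le_mul_of_nonneg_left _ (by linarith)
          apply mul_le_mul hsq1 (Real.exp_le_exp.2 hexpo) (Real.exp_pos _).le (by positivity)
  have h1 : 1 ≤ 2 * D * (N * Real.exp (-(0.04 * √(N:ℝ)))) := by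
    have e1 : √(k0:ℝ) * 1 ≤ √(k0:ℝ) * (2 * D * (N * Real.exp (-(0.04 * √(N:ℝ))))) := by
      have e2 := mul_le_mul_of_nonneg_right hfinal hN0.le
      have e3 : √(k0:ℝ) / N * N = √(k0:ℝ) * 1 := by field_simp
      rw [e3] at e2
      calc √(k0:ℝ) * 1 ≤ _ := e2
        _ = _ := by ring
    exact le_of_mul_le_mul_left e1 hs0
  have h2 : (0.04 * √(N:ℝ)) ^ 2 = 0.04 ^ 2 * N := by
    rw [mul_pow, Real.sq_sqrt hN0.le]
  rw [h2, lt_div_iff₀ (by positivity)] at hexp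
  have h3 : 0.04 ^ 2 * (N:ℝ) * Real.exp (-(0.04 * √(N:ℝ))) * (2 * D) =
      0.04 ^ 2 * (2 * D * (N * Real.exp (-(0.04 * √(N:ℝ))))) := by ring
  rw [h3] at hexp
  have h4 : (0.04:ℝ) ^ 2 * 1 ≤ 0.04 ^ 2 * (2 * D * (N * Real.exp (-(0.04 * √(N:ℝ))))) :=
    mul_le_mul_of_nonneg_left h1 (by norm_num)
  linarith

end Pool.Agent.R40
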