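import Pool.Agent.R40.Cheb

set_option autoImplicit false

open Finset Filter Topology

namespace Pool.Agent.R40

theorem rankin (δ : ℝ) (hδ : 0 < δ) : ∀ᶠ z : ℕ in atTop, ∀ X : ℕ, 1 ≤ X →
    (((Finset.Icc 1 X).filter (fun n => (∏ p ∈ n.primeFactors, p = n) ∧
      ∀ p ∈ n.primeFactors, p ≤ z)).card : ℝ) ≤
      √(X:ℝ) * Real.exp (δ * √z - Real.log X / Real.log z) := by
  classical
  filter_upwards [sum_primes_inv_sqrt (δ/3) (by positivity), eventually_ge_atTop 9] with z hz hz9 X hX
  have hzr : (9:ℝ) ≤ z := by exact_mod_cast hz9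
  set L : ℝ := Real.log z with hL
  have hL2 : 2 ≤ L := by
    rw [hL, Real.le_log_iff_exp_le (by linarith)]
    have h1 : Real.exp 2 = Real.exp 1 * Real.exp 1 := by rw [← Real.exp_add]; norm_num
    have h2 := Real.exp_one_lt_d9
    have h3 := Real.exp_pos 1
    rw [h1]
    nlinarith
  set σ : ℝ := 1/2 - 1/L with hσ
  have hσ0 : 0 ≤ σ := by
    rw [hσ, sub_nonneg]
    apply one_div_le_one_div_of_le (by norm_num) hL2
  set P := (range (z+1)).filter Nat.Prime with hP
  set S := (Finset.Icc 1 X).filter (fun n => (∏ p ∈ n.primeFactors, p = n) ∧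
      ∀ p ∈ n.primeFactors, p ≤ z) with hS
  set f : ℕ → ℝ := fun p => Real.exp (-(σ * Real.log p)) with hf
  have hfpos : ∀ p, 0 < f p := fun p => Real.exp_pos _
  have hXr : (1:ℝ) ≤ X := by exact_mod_cast hX
  have h1 : (S.card : ℝ) ≤ ∑ n ∈ S, Real.exp (σ * Real.log X) * ∏ p ∈ n.primeFactors, f p := by
    rw [card_eq_sum_ones]
    push_cast
    apply sum_le_sum
    intro n hn
    rw [hS, mem_filter, mem_Icc] at hn
    obtain ⟨⟨hn1, hnX⟩, hnp, hnz⟩ := hn
    have hnr : (1:ℝ) ≤ n := by exact_mod_cast hn1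
    have e1 : ∏ p ∈ n.primeFactors, f p = Real.exp (-(σ * Real.log n)) := by
      rw [hf, ← Real.exp_sum]
      congr 1
      rw [sum_neg_distrib, ← mul_sum]
      congr 2
      conv_rhs => rw [← hnp]
      rw [Nat.cast_prod, Real.log_prod]
      intro p hp
      have := (Nat.prime_of_mem_primeFactors hp).pos
      have : (0:ℝ) < p := by exact_mod_cast this
      exact this.ne'
    rw [e1, ← Real.exp_add]
    apply Real.one_le_exp
    have e2 : Real.log n ≤ Real.log X := Real.log_le_log (by linarith) (by exact_mod_cast hnX)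
    nlinarith
  have h2 : ∑ n ∈ S, ∏ p ∈ n.primeFactors, f p ≤ ∑ B ∈ P.powerset, ∏ p ∈ B, f p := by
    have hinj : Set.InjOn (fun n : ℕ => n.primeFactors) S := by
      intro a ha b hb hab
      simp only at hab
      have ha' := (mem_filter.1 (Finset.mem_coe.1 ha)).2.1
      have hb' := (mem_filter.1 (Finset.mem_coe.1 hb)).2.1
      rw [← ha', ← hb', hab]
    rw [← sum_image (f := fun B => ∏ p ∈ B, f p) hinj]
    apply sum_le_sum_of_subset_of_nonneg
    · intro B hB
      rw [mem_image] at hB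
      obtain ⟨n, hn, rfl⟩ := hB
      rw [hS, mem_filter] at hn
      rw [mem_powerset]
      intro p hp
      rw [hP, mem_filter, mem_range]
      exact ⟨by have := hn.2.2 p hp; omega, Nat.prime_of_mem_primeFactors hp⟩
    · intro B _ _
      exact prod_nonneg fun p _ => (hfpos p).le
  have h3 : ∑ B ∈ P.powerset, ∏ p ∈ B, f p = ∏ p ∈ P, (1 + f p) := by
    rw [prod_one_add]
  have h4 : ∏ p ∈ P, (1 + f p) ≤ Real.exp (∑ p ∈ P, f p) := by
    rw [Real.exp_sum]
    apply Finset.prod_le_prod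
    · intro p _
      have := hfpos p
      linarith
    · intro p _
      have := Real.add_one_le_exp (f p)
      linarith
  have h5 : ∑ p ∈ P, f p ≤ δ * √z := by
    have e1 : ∀ p ∈ P, f p ≤ 3 * (p:ℝ) ^ (-(1/2) : ℝ) := by
      intro p hp
      rw [hP, mem_filter, mem_range] at hp
      have hp0 : (0:ℝ) < p := by exact_mod_cast hp.2.pos
      have hpz : (p:ℝ) ≤ z := by exact_mod_cast (by omega : p ≤ z)
      have e2 : f p = Real.exp (Real.log p / L) * (p:ℝ) ^ (-(1/2) : ℝ) := by
        rw [Real.rpow_def_of_pos hp0, ← Real.exp_add]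
        simp only [hf, hσ]
        congr 1
        ring
      rw [e2]
      apply mul_le_mul_of_nonneg_right _ (by positivity)
      have e3 : Real.log p / L ≤ 1 := by
        rw [div_le_one (by linarith)]
        exact Real.log_le_log hp0 hpz
      have e4 := Real.exp_le_exp.2 e3
      have := Real.exp_one_lt_d9
      linarith
    calc ∑ p ∈ P, f p ≤ ∑ p ∈ P, 3 * (p:ℝ) ^ (-(1/2) : ℝ) := sum_le_sum e1
      _ = 3 * ∑ p ∈ P, (p:ℝ) ^ (-(1/2) : ℝ) := by rw [mul_sum]
      _ ≤ 3 * (δ/3 * √z) := mul_le_mul_of_nonneg_left hz (by norm_num)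
      _ = δ * √z := by ring
  have h6 : Real.exp (σ * Real.log X) = √(X:ℝ) * Real.exp (-(Real.log X / L)) := by
    rw [Real.sqrt_eq_rpow, Real.rpow_def_of_pos (by linarith), ← Real.exp_add]
    congr 1
    rw [hσ]; ring
  calc (S.card : ℝ) ≤ ∑ n ∈ S, Real.exp (σ * Real.log X) * ∏ p ∈ n.primeFactors, f p := h1
    _ = Real.exp (σ * Real.log X) * ∑ n ∈ S, ∏ p ∈ n.primeFactors, f p := by rw [mul_sum]
    _ ≤ Real.exp (σ * Real.log X) * Real.exp (δ * √z) := by
        apply mul_le_mul_of_nonneg_left _ (Real.exp_pos _).le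
        exact h2.trans (h3.le.trans (h4.trans (Real.exp_le_exp.2 h5)))
    _ = √(X:ℝ) * Real.exp (δ * √z - Real.log X / L) := by
        rw [h6, mul_assoc, ← Real.exp_add]
        congr 2
        ring

end Pool.Agent.R40
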