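import Pool.Agent.R40.Upper
import Pool.Agent.R40.Construct
import Pool.Agent.R40.Rankin

set_option autoImplicit false

open Finset Filter Topology

namespace Pool.Agent.R40

/-- the base sets, in the form in which they are used -/
theorem base_N : ∃ v : ℝ, Bnd v ∧ Real.exp v ≤ 2 ∧ 9/8 ≤ Real.exp v ∧ ∀ Y : ℕ, ∃ N : ℕ, Y ≤ N ∧
    ∃ (A : Finset ℕ) (ε : ℝ), 0 < ε ∧ 0.09 / √(N:ℝ) ≤ ε ∧ ε ≤ 0.1 / √(N:ℝ) ∧
    (∀ p ∈ A, OP p ∧ p ≤ N) ∧ mass A = Real.log 2 - ε ∧ v - wt A ≤ 2 * ε ^ 2 := by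
  obtain ⟨v, hv, hbase⟩ := exists_base
  refine ⟨v, hv, ?_, ?_, ?_⟩
  · obtain ⟨z, A, ε, hz, hε0, hε, hA, hmA, hw⟩ := hbase 100
    have hzr : (100:ℝ) ≤ z := by exact_mod_cast hz
    have h1 : ε ≤ 0.04 := by
      refine hε.trans ?_
      rw [div_le_iff₀ (by linarith)]
      linarith
    have h2 : wt A ≤ 1/2 := wt_le_half fun p hp => (hA p hp).1.2
    have h3 : v ≤ 0.51 := by nlinarith
    have h4 := Real.log_two_gt_d9
    calc Real.exp v ≤ Real.exp (Real.log 2) := Real.exp_le_exp.2 (by linarith)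
      _ = 2 := Real.exp_log (by norm_num)
  · have h1 := hv {3} (by
      intro p hp
      rw [mem_singleton] at hp
      subst hp
      exact ⟨Nat.prime_three, le_rfl⟩) (by
      unfold mass ell
      rw [sum_singleton]
      apply Real.log_le_log (by norm_num)
      norm_num)
    unfold wt ww at h1
    rw [sum_singleton] at h1
    have h2 : Real.log (9/8) ≤ v := by
      have : Real.log (9/8) = -Real.log (1 - 1 / ((3:ℕ):ℝ) ^ 2) := by
        rw [← Real.log_inv]; norm_num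
      rw [this]; exact h1
    calc (9/8:ℝ) = Real.exp (Real.log (9/8)) := (Real.exp_log (by norm_num)).symm
      _ ≤ Real.exp v := Real.exp_le_exp.2 h2
  · intro Y
    obtain ⟨z, A, ε, hz, hε0, hε, hA, hmA, hw⟩ := hbase (2000 + Y)
    have hzr : (2000:ℝ) + Y ≤ z := by exact_mod_cast hz
    have hY0 : (0:ℝ) ≤ Y := by positivity
    set w : ℝ := 1 / ε with hwdef
    have hw0 : 0 < w := by positivity
    have hzw : (z:ℝ) ≤ 4 * w := by
      rw [hwdef, mul_one_div, le_div_iff₀ hε0]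
      have := (le_div_iff₀ (by linarith : (0:ℝ) < z)).1 hε
      linarith
    set N : ℕ := ⌊0.01 * w ^ 2⌋₊ with hN
    have hNle : (N:ℝ) ≤ 0.01 * w ^ 2 := Nat.floor_le (by positivity)
    have hNgt : 0.01 * w ^ 2 < (N:ℝ) + 1 := Nat.lt_floor_add_one _
    have hw500 : 500 ≤ w := by linarith
    have hN4w : 4 * w ≤ N := by nlinarith
    have hzN : (z:ℝ) ≤ N := by linarith
    have hzN' : z ≤ N := by exact_mod_cast hzN
    have hN2000 : (2000:ℝ) ≤ N := by linarith
    have hεw : ε = 1 / w := by rw [hwdef]; field_simp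
    have hsqN0 : 0 < √(N:ℝ) := Real.sqrt_pos.2 (by linarith)
    refine ⟨N, by omega, A, ε, hε0, ?_, ?_, fun p hp => ⟨(hA p hp).1, (hA p hp).2.trans hzN'⟩, hmA, hw⟩
    · rw [hεw, div_le_div_iff₀ hsqN0 hw0, one_mul]
      apply Real.le_sqrt_of_sq_le
      nlinarith
    · rw [hεw, div_le_div_iff₀ hw0 hsqN0, one_mul]
      rw [Real.sqrt_le_left (by positivity)]
      nlinarith

/-- near-optimal products -/
theorem near {v : ℝ} {N : ℕ} {A : Finset ℕ} {ε : ℝ} (hN : 2 ≤ N) (hv0 : 0 ≤ v)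
    (hA : ∀ p ∈ A, OP p ∧ p ≤ N) (hε0 : 0 < ε) (hε : ε ≤ 0.1 / √(N:ℝ)) (hm : mass A = Real.log 2 - ε)
    (hw : v - wt A ≤ 2 * ε ^ 2) {F : Finset ℕ} (hF : Win N ε F) :
    ∃ k : ℕ, Odd k ∧ PND k ∧ (k:ℝ) = prr A * prr F ∧
      2 * Real.exp v - 2 + 0.06 / N ≤ (k:ℝ) / (Nat.totient k : ℝ) - 2 := by
  classical
  obtain ⟨hFP, hF1, hF2⟩ := hF
  have hNr : (2:ℝ) ≤ N := by exact_mod_cast hN
  have hN0 : (0:ℝ) < N := by linarith
  have hdis : Disjoint A F := by
    rw [Finset.disjoint_left]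
    intro p hp hp'
    have h1 := (hA p hp).2
    have h2 := (mem_PI4.1 (hFP hp')).1
    omega
  have hOPF : ∀ p ∈ F, OP p := by
    intro p hp
    have h1 := mem_PI4.1 (hFP hp)
    exact ⟨h1.2.2, by omega⟩
  have hOP : ∀ p ∈ A ∪ F, OP p := by
    intro p hp
    rcases mem_union.1 hp with h | h
    · exact (hA p h).1
    · exact hOPF p h
  have hmass : mass (A ∪ F) = mass A + mass F := by
    unfold mass; rw [sum_union hdis]
  have hwt : wt (A ∪ F) = wt A + wt F := by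
    unfold wt; rw [sum_union hdis]
  have hwtF : 0 ≤ wt F := wt_nonneg fun p hp => by have := (hOPF p hp).2; omega
  have hle4 : ∀ p ∈ A ∪ F, p ≤ 4 * N := by
    intro p hp
    rcases mem_union.1 hp with h | h
    · have := (hA p h).2; omega
    · exact (mem_PI4.1 (hFP h)).2.1
  have h005 : 0 < 0.05 / (N:ℝ) := by positivity
  obtain ⟨hodd, hPND⟩ := pnd_prod (A ∪ F) hOP (by rw [hmass, hm]; linarith) (by
    intro p hp
    have h1 := le_ell (p := p) (by have := (hOP p hp).2; omega)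
    have h2 : (p:ℝ) ≤ 4 * N := by exact_mod_cast hle4 p hp
    have h3 : 0.2 / (N:ℝ) < 1 / ((p:ℝ) + 1) := by
      rw [div_lt_div_iff₀ hN0 (by positivity)]
      linarith
    rw [hmass, hm]
    linarith)
  refine ⟨∏ p ∈ A ∪ F, p, hodd, hPND, ?_, ?_⟩
  · rw [prod_union hdis]
    unfold prr
    push_cast
    rfl
  · rw [ratio_eq hPND.1, Nat.primeFactors_prod (fun p hp => (hOP p hp).1)]
    have hε2 : 2 * ε ^ 2 ≤ 0.02 / N := by
      have h1 : ε ^ 2 ≤ (0.1 / √(N:ℝ)) ^ 2 := pow_le_pow_left₀ hε0.le hε 2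
      rw [div_pow, Real.sq_sqrt hN0.le] at h1
      calc 2 * ε ^ 2 ≤ 2 * (0.1 ^ 2 / (N:ℝ)) := by linarith
        _ = 0.02 / (N:ℝ) := by ring
    have h1 : Real.log 2 + v + 0.03 / N ≤ mass (A ∪ F) + wt (A ∪ F) := by
      rw [hmass, hwt, hm]
      have e1 : 0.05 / (N:ℝ) = 0.03 / N + 0.02 / N := by ring
      linarith
    have h2 : 2 * Real.exp v * (1 + 0.03 / N) ≤ Real.exp (mass (A ∪ F) + wt (A ∪ F)) := by
      calc 2 * Real.exp v * (1 + 0.03 / N) ≤ 2 * Real.exp v * Real.exp (0.03 / N) := by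
            apply mul_le_mul_of_nonneg_left _ (by positivity)
            have := Real.add_one_le_exp (0.03 / (N:ℝ))
            linarith
        _ = Real.exp (Real.log 2 + v + 0.03 / N) := by
            rw [Real.exp_add, Real.exp_add, Real.exp_log (by norm_num)]
        _ ≤ _ := Real.exp_le_exp.2 h1
    have hv0 : 1 ≤ Real.exp v := by
      have h3 : v ≥ 0 := by
        by_contra hneg
        push Not at hneg
        have h4 : 0 ≤ wt A := wt_nonneg fun p hp => by have := (hA p hp).1.2; omega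
        exact absurd hneg (not_lt.2 hv0)
      exact Real.one_le_exp h3
    have h3 : 0.06 / (N:ℝ) ≤ 2 * Real.exp v * (0.03 / N) := by
      have : 0.06 / (N:ℝ) = 2 * 1 * (0.03 / N) := by ring
      rw [this]
      apply mul_le_mul_of_nonneg_right (by linarith) (by positivity)
    have h4 : 2 * Real.exp v * (1 + 0.03 / (N:ℝ)) = 2 * Real.exp v + 2 * Real.exp v * (0.03 / N) := by
      ring
    linarith

end Pool.Agent.R40
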