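import Pool.Agent.R40.Fun

set_option autoImplicit false

open Finset Filter Topology

namespace Pool.Agent.R40

/-- odd primes -/
def OP (p : ℕ) : Prop := p.Prime ∧ 3 ≤ p

open Classical in
/-- contribution of `n` to the mass -/
noncomputable def fl (n : ℕ) (c : ℕ → Bool) : ℝ := if c n = true ∧ OP n then ell n else 0

open Classical in
/-- contribution of `n` to the weight -/
noncomputable def fw (n : ℕ) (c : ℕ → Bool) : ℝ := if c n = true ∧ OP n then ww n else 0

lemma fl_continuous (n : ℕ) : Continuous (fl n) := by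
  classical
  have h : fl n = (fun b : Bool => if b = true ∧ OP n then ell n else 0) ∘ (fun c : ℕ → Bool => c n) := by
    funext c
    simp only [fl, Function.comp]
  rw [h]
  exact continuous_of_discreteTopology.comp (continuous_apply n)

lemma fw_continuous (n : ℕ) : Continuous (fw n) := by
  classical
  have h : fw n = (fun b : Bool => if b = true ∧ OP n then ww n else 0) ∘ (fun c : ℕ → Bool => c n) := by
    funext c
    simp only [fw, Function.comp]
  rw [h]
  exact continuous_of_discreteTopology.comp (continuous_apply n)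

lemma fl_nonneg (n : ℕ) (c : ℕ → Bool) : 0 ≤ fl n c := by
  unfold fl
  split_ifs with h
  · exact (ell_pos (by have := h.2.2; omega)).le
  · exact le_rfl

lemma fw_nonneg (n : ℕ) (c : ℕ → Bool) : 0 ≤ fw n c := by
  unfold fw
  split_ifs with h
  · exact (ww_pos (by have := h.2.2; omega)).le
  · exact le_rfl

lemma fw_le (n : ℕ) (c : ℕ → Bool) : ‖fw n c‖ ≤ 2 * (1 / (n:ℝ) ^ 2) := by
  rw [Real.norm_of_nonneg (fw_nonneg n c)]
  unfold fw
  split_ifs with h
  · have h3 : (3:ℝ) ≤ n := by exact_mod_cast h.2.2
    refine (ww_le (by have := h.2.2; omega)).trans ?_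
    have h4 : 0 < (n:ℝ) ^ 2 - 1 := by nlinarith
    rw [mul_one_div, div_le_div_iff₀ h4 (by positivity)]
    nlinarith
  · positivity

lemma summable_bound : Summable (fun n : ℕ => 2 * (1 / (n:ℝ) ^ 2)) :=
  (Real.summable_one_div_nat_pow.2 (by norm_num)).mul_left 2

/-- the total weight -/
noncomputable def Wf (c : ℕ → Bool) : ℝ := ∑' n, fw n c

lemma fw_summable (c : ℕ → Bool) : Summable (fun n => fw n c) :=
  Summable.of_norm_bounded summable_bound (fun n => fw_le n c)

lemma Wf_continuous : Continuous Wf :=
  continuous_tsum fw_continuous summable_bound fw_le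

/-- the constraint set -/
def KK : Set (ℕ → Bool) := {c | ∀ F : Finset ℕ, ∑ n ∈ F, fl n c ≤ Real.log 2}

lemma KK_compact : IsCompact KK := by
  apply IsClosed.isCompact
  have : KK = ⋂ F : Finset ℕ, {c | ∑ n ∈ F, fl n c ≤ Real.log 2} := by
    ext c; simp [KK]
  rw [this]
  apply isClosed_iInter
  intro F
  exact isClosed_le (continuous_finsetSum _ fun n _ => fl_continuous n) continuous_const

lemma KK_nonempty : KK.Nonempty := by
  refine ⟨fun _ => false, ?_⟩
  intro F
  have : ∑ n ∈ F, fl n (fun _ => false) = 0 := by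
    apply sum_eq_zero
    intro n _
    simp [fl]
  rw [this]
  exact (Real.log_pos (by norm_num)).le

lemma mass_ne_log_two {B : Finset ℕ} (hB : ∀ p ∈ B, OP p) : mass B ≠ Real.log 2 := by
  classical
  intro h
  have hpos : ∀ p ∈ B, (0:ℝ) < p := fun p hp => by
    have := (hB p hp).2
    have : 0 < p := by omega
    exact_mod_cast this
  have h1 : ∏ p ∈ B, (1 + 1 / (p:ℝ)) = 2 := by
    have h2 : Real.log (∏ p ∈ B, (1 + 1 / (p:ℝ))) = Real.log 2 := by
      rw [Real.log_prod]
      · exact h
      · intro p hp
        have := hpos p hp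
        positivity
    apply Real.log_injOn_pos _ _ h2
    · exact Set.mem_Ioi.2 (prod_pos fun p hp => by have := hpos p hp; positivity)
    · exact Set.mem_Ioi.2 (by norm_num)
  have h2 : ((∏ p ∈ B, (p + 1) : ℕ) : ℝ) = ((2 * ∏ p ∈ B, p : ℕ) : ℝ) := by
    push_cast
    rw [← h1, ← prod_mul_distrib]
    refine prod_congr rfl fun p hp => ?_
    have := hpos p hp
    field_simp
  have h3 : ∏ p ∈ B, (p + 1) = 2 * ∏ p ∈ B, p := by exact_mod_cast h2
  rcases B.eq_empty_or_nonempty with rfl | ⟨p, hp⟩
  · simp at h3
  · have hodd : ∀ q ∈ B, q % 2 = 1 := by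
      intro q hq
      have h4 := hB q hq
      rcases h4.1.eq_two_or_odd with h5 | h5
      · have := h4.2; omega
      · exact h5
    have hoddprod : (∏ q ∈ B, q) % 2 = 1 := by
      rw [← Nat.odd_iff]
      apply Finset.prod_induction _ (fun n => Odd n) (fun a b ha hb => ha.mul hb) odd_one
      intro q hq
      rw [Nat.odd_iff]; exact hodd q hq
    rw [← mul_prod_erase B (fun q => q + 1) hp] at h3
    rcases (B.erase p).eq_empty_or_nonempty with he | ⟨r, hr⟩
    · have hBp : B = {p} := by
        apply Finset.eq_singleton_iff_unique_mem.2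
        refine ⟨hp, fun x hx => ?_⟩
        by_contra hne
        have : x ∈ B.erase p := mem_erase.2 ⟨hne, hx⟩
        rw [he] at this
        exact absurd this (notMem_empty _)
      rw [he, hBp] at h3
      simp at h3
      have := (hB p hp).2
      omega
    · rw [← mul_prod_erase (B.erase p) (fun q => q + 1) hr] at h3
      obtain ⟨a, ha⟩ : ∃ a, p + 1 = 2 * a := ⟨(p+1)/2, by have := hodd p hp; omega⟩
      obtain ⟨b, hb⟩ : ∃ b, r + 1 = 2 * b := ⟨(r+1)/2, by
        have := hodd r (mem_of_mem_erase hr); omega⟩
      have h5 : (p + 1) * ((r + 1) * ∏ x ∈ (B.erase p).erase r, (x + 1)) =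
          4 * (a * (b * ∏ x ∈ (B.erase p).erase r, (x + 1))) := by
        rw [ha, hb]; ring
      rw [h5] at h3
      omega

open Classical in
/-- finite part of a set -/
noncomputable def AX (Ω : Set ℕ) (X : ℕ) : Finset ℕ := (Finset.range (X+1)).filter (fun n => n ∈ Ω)

lemma mem_AX {Ω : Set ℕ} {X n : ℕ} : n ∈ AX Ω X ↔ n ≤ X ∧ n ∈ Ω := by
  classical
  unfold AX
  rw [mem_filter, mem_range]
  constructor <;> rintro ⟨h1, h2⟩ <;> exact ⟨by omega, h2⟩

theorem exists_omega : ∃ (v : ℝ) (Ω : Set ℕ), (∀ p ∈ Ω, OP p) ∧
    (∀ B : Finset ℕ, (∀ p ∈ B, OP p) → mass B ≤ Real.log 2 → wt B ≤ v) ∧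
    (∀ X, mass (AX Ω X) < Real.log 2) ∧
    Tendsto (fun X => mass (AX Ω X)) atTop (𝓝 (Real.log 2)) ∧
    Tendsto (fun X => wt (AX Ω X)) atTop (𝓝 v) ∧
    (∀ M : ℕ, ∃ q, M < q ∧ OP q ∧ q ∉ Ω) := by
  classical
  obtain ⟨c, hcK, hmax⟩ := KK_compact.exists_isMaxOn KK_nonempty Wf_continuous.continuousOn
  set Ω : Set ℕ := {n | c n = true ∧ OP n} with hΩ
  have hmassAX : ∀ X, mass (AX Ω X) = ∑ n ∈ range (X+1), fl n c := by
    intro X
    unfold mass AX
    rw [sum_filter]
    refine sum_congr rfl fun n _ => ?_
    by_cases h : n ∈ Ω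
    · have h' : c n = true ∧ OP n := h
      rw [if_pos h, fl, if_pos h']
    · have h' : ¬ (c n = true ∧ OP n) := h
      rw [if_neg h, fl, if_neg h']
  have hwtAX : ∀ X, wt (AX Ω X) = ∑ n ∈ range (X+1), fw n c := by
    intro X
    unfold wt AX
    rw [sum_filter]
    refine sum_congr rfl fun n _ => ?_
    by_cases h : n ∈ Ω
    · have h' : c n = true ∧ OP n := h
      rw [if_pos h, fw, if_pos h']
    · have h' : ¬ (c n = true ∧ OP n) := h
      rw [if_neg h, fw, if_neg h']
  have hOP : ∀ p ∈ Ω, OP p := fun p hp => hp.2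
  have hle : ∀ X, mass (AX Ω X) ≤ Real.log 2 := fun X => by rw [hmassAX]; exact hcK _
  have hlt : ∀ X, mass (AX Ω X) < Real.log 2 := fun X =>
    lt_of_le_of_ne (hle X) (mass_ne_log_two fun p hp => hOP p (mem_AX.1 hp).2)
  -- summability
  have hsum : Summable (fun n => fl n c) := by
    apply summable_of_sum_le (fun n => fl_nonneg n c) (c := Real.log 2)
    intro F
    exact hcK F
  -- missing primes
  have hmiss : ∀ M : ℕ, ∃ q, M < q ∧ OP q ∧ q ∉ Ω := by
    intro M
    by_contra hcon
    push Not at hcon
    apply not_summable_one_div_on_primes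
    have h1 : Summable (fun n => 2 * fl n c + (if n ∈ range (M + 3) then (1:ℝ) else 0)) := by
      apply (hsum.mul_left 2).add
      apply summable_of_ne_finset_zero (s := range (M+3))
      intro n hn
      rw [if_neg hn]
    apply Summable.of_nonneg_of_le _ _ h1
    · intro n
      apply Set.indicator_nonneg
      intro n _
      positivity
    · intro n
      by_cases hn : n.Prime
      · rw [Set.indicator_of_mem (show n ∈ {p : ℕ | p.Prime} from hn)]
        have hn1 : (1:ℝ) ≤ n := by exact_mod_cast hn.one_lt.le
        by_cases hnM : n < M + 3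
        · rw [if_pos (mem_range.2 hnM)]
          have h2 : (1:ℝ) / n ≤ 1 := by rw [div_le_one (by linarith)]; exact hn1
          have h3 := fl_nonneg n c
          linarith
        · rw [if_neg (by rw [mem_range]; exact hnM), add_zero]
          have h4 := hcon n (by omega) ⟨hn, by omega⟩
          have h5 : fl n c = ell n := by
            unfold fl
            exact if_pos h4
          rw [h5]
          have h6 := le_ell (p := n) (by omega)
          have h7 : (1:ℝ) / n ≤ 2 * (1 / ((n:ℝ) + 1)) := by
            rw [mul_one_div, div_le_div_iff₀ (by linarith) (by linarith)]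
            linarith
          linarith
      · rw [Set.indicator_of_notMem (show n ∉ {p : ℕ | p.Prime} from hn)]
        have h3 := fl_nonneg n c
        split_ifs <;> linarith
  have htend : Tendsto (fun X => mass (AX Ω X)) atTop (𝓝 (∑' n, fl n c)) := by
    have h1 := hsum.hasSum.tendsto_sum_nat
    have h2 := h1.comp (tendsto_add_atTop_nat 1)
    refine h2.congr fun X => ?_
    rw [hmassAX]; rfl
  have htendw : Tendsto (fun X => wt (AX Ω X)) atTop (𝓝 (Wf c)) := by
    have h1 := (fw_summable c).hasSum.tendsto_sum_nat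
    have h2 := h1.comp (tendsto_add_atTop_nat 1)
    refine h2.congr fun X => ?_
    rw [hwtAX]; rfl
  have hm : ∑' n, fl n c = Real.log 2 := by
    have hmle : ∑' n, fl n c ≤ Real.log 2 := le_of_tendsto' htend hle
    by_contra hne
    have hlt' : ∑' n, fl n c < Real.log 2 := lt_of_le_of_ne hmle hne
    set μ := Real.log 2 - ∑' n, fl n c with hμ
    have hμ0 : 0 < μ := by linarith
    obtain ⟨M, hM⟩ := exists_nat_gt (1 / μ)
    obtain ⟨q, hqM, hqOP, hqΩ⟩ := hmiss M
    have hq0 : (0:ℝ) < q := by
      have := hqOP.2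
      have : 0 < q := by omega
      exact_mod_cast this
    have hellq : ell q ≤ μ := by
      refine (ell_le (by have := hqOP.2; omega)).trans ?_
      rw [div_le_iff₀ hq0]
      have h1 : (M:ℝ) < q := by exact_mod_cast hqM
      rw [div_lt_iff₀ hμ0] at hM
      nlinarith
    have hcq : c q = false := by
      by_contra h
      exact hqΩ ⟨by simpa using h, hqOP⟩
    set c' : ℕ → Bool := Function.update c q true with hc'
    have hflq : ∀ n, fl n c' = fl n c + (if n = q then ell q else 0) := by
      intro n
      unfold fl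
      by_cases hnq : n = q
      · subst hnq
        simp [hc', hcq, hqOP]
      · simp [hc', hnq]
    have hfwq : ∀ n, fw n c' = fw n c + (if n = q then ww q else 0) := by
      intro n
      unfold fw
      by_cases hnq : n = q
      · subst hnq
        simp [hc', hcq, hqOP]
      · simp [hc', hnq]
    have hc'K : c' ∈ KK := by
      intro F
      have h1 : ∑ n ∈ F, fl n c ≤ ∑' n, fl n c :=
        hsum.sum_le_tsum F (fun n _ => fl_nonneg n c)
      have h2 : ∑ n ∈ F, (if n = q then ell q else 0) ≤ ell q := by
        rw [sum_ite_eq']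
        split_ifs
        · exact le_rfl
        · exact (ell_pos (by have := hqOP.2; omega)).le
      have h3 : ∑ n ∈ F, fl n c' = ∑ n ∈ F, fl n c + ∑ n ∈ F, (if n = q then ell q else 0) := by
        rw [← sum_add_distrib]
        exact sum_congr rfl fun n _ => hflq n
      rw [h3]
      linarith
    have hW : Wf c' = Wf c + ww q := by
      unfold Wf
      have h1 : (fun n => fw n c') = fun n => fw n c + (if n = q then ww q else 0) := by
        funext n; exact hfwq n
      rw [h1, Summable.tsum_add (fw_summable c) (by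
        apply summable_of_ne_finset_zero (s := {q})
        intro n hn
        rw [mem_singleton] at hn
        rw [if_neg hn]), tsum_ite_eq]
    have h1 := hmax hc'K
    change Wf c' ≤ Wf c at h1
    rw [hW] at h1
    have := ww_pos (p := q) (by have := hqOP.2; omega)
    linarith
  refine ⟨Wf c, Ω, hOP, ?_, hlt, ?_, htendw, hmiss⟩
  · intro B hB hmB
    set cB : ℕ → Bool := fun n => decide (n ∈ B) with hcB
    have hflB : ∀ n, fl n cB = if n ∈ B then ell n else 0 := by
      intro n
      unfold fl
      by_cases hn : n ∈ B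
      · simp [hcB, hn, hB n hn]
      · simp [hcB, hn]
    have hfwB : ∀ n, fw n cB = if n ∈ B then ww n else 0 := by
      intro n
      unfold fw
      by_cases hn : n ∈ B
      · simp [hcB, hn, hB n hn]
      · simp [hcB, hn]
    have hcBK : cB ∈ KK := by
      intro F
      refine le_trans ?_ hmB
      simp_rw [hflB]
      rw [← sum_filter]
      apply sum_le_sum_of_subset_of_nonneg
      · intro n hn
        exact (mem_filter.1 hn).2
      · intro n hn _
        exact (ell_pos (by have := (hB n hn).2; omega)).le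
    have h1 := hmax hcBK
    change Wf cB ≤ Wf c at h1
    have h2 : Wf cB = wt B := by
      unfold Wf wt
      rw [tsum_eq_sum (s := B)]
      · refine sum_congr rfl fun n hn => ?_
        rw [hfwB, if_pos hn]
      · intro n hn
        rw [hfwB, if_neg hn]
    rw [h2] at h1
    exact h1
  · rw [hm] at htend; exact htend

end Pool.Agent.R40
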