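import Pool.Agent.R40.Near

set_option autoImplicit false

open Finset Filter Topology

namespace Pool.Agent.R40

lemma win_log {N : ℕ} (hN : 1 ≤ N) {ε : ℝ} (hε : 0.09 / √(N:ℝ) ≤ ε) {F : Finset ℕ} (hF : Win N ε F) :
    0.09 * √(N:ℝ) * Real.log N ≤ Real.log (prr F) := by
  obtain ⟨hFP, hF1, _⟩ := hF
  have hNr : (1:ℝ) ≤ N := by exact_mod_cast hN
  have hN0 : (0:ℝ) < N := by linarith
  have hsq : 0 < √(N:ℝ) := Real.sqrt_pos.2 hN0
  have h1 : mass F ≤ ∑ p ∈ F, 1 / (N:ℝ) := by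
    apply sum_le_sum
    intro p hp
    have h2 := mem_PI4.1 (hFP hp)
    refine (ell_le (by omega)).trans ?_
    apply one_div_le_one_div_of_le hN0
    exact_mod_cast h2.1.le
  rw [sum_const, nsmul_eq_mul, mul_one_div] at h1
  have h3 : 0.09 * √(N:ℝ) ≤ F.card := by
    have h4 : 0.09 / √(N:ℝ) ≤ F.card / N := by
      have : 0 < 0.05 / (N:ℝ) := by positivity
      linarith
    rw [div_le_div_iff₀ hsq hN0] at h4
    have h5 : (N:ℝ) = √(N:ℝ) * √(N:ℝ) := (Real.mul_self_sqrt hN0.le).symm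
    have h6 : 0.09 * √(N:ℝ) * √(N:ℝ) ≤ F.card * √(N:ℝ) := by
      calc 0.09 * √(N:ℝ) * √(N:ℝ) = 0.09 * (√(N:ℝ) * √(N:ℝ)) := by ring
        _ = 0.09 * N := by rw [← h5]
        _ ≤ _ := h4
    exact le_of_mul_le_mul_right h6 hsq
  have h7 : Real.log (prr F) = ∑ p ∈ F, Real.log p := by
    unfold prr
    rw [Real.log_prod]
    intro p hp
    have h2 := mem_PI4.1 (hFP hp)
    have : (0:ℝ) < p := by exact_mod_cast (by omega : 0 < p)
    exact this.ne'
  have h8 : F.card * Real.log N ≤ ∑ p ∈ F, Real.log p := by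
    rw [← nsmul_eq_mul, ← sum_const]
    apply sum_le_sum
    intro p hp
    have h2 := mem_PI4.1 (hFP hp)
    apply Real.log_le_log hN0
    exact_mod_cast h2.1.le
  rw [h7]
  refine le_trans ?_ h8
  exact mul_le_mul_of_nonneg_right h3 (Real.log_nonneg hNr)

lemma prr_one_le {A : Finset ℕ} (hA : ∀ p ∈ A, 1 ≤ p) : 1 ≤ prr A := by
  unfold prr
  exact Finset.prod_induction _ (fun t : ℝ => 1 ≤ t) (fun a b ha hb => one_le_mul_of_one_le_of_one_le ha hb)
    le_rfl (fun p hp => by exact_mod_cast hA p hp)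

theorem step {v : ℝ} (hv : Bnd v) (hV2 : Real.exp v ≤ 2) (hV8 : 9/8 ≤ Real.exp v) :
    ∀ᶠ N : ℕ in atTop, ∀ (A : Finset ℕ) (ε : ℝ), 0 < ε → 0.09 / √(N:ℝ) ≤ ε → ε ≤ 0.1 / √(N:ℝ) →
    (∀ p ∈ A, OP p ∧ p ≤ N) → mass A = Real.log 2 - ε → v - wt A ≤ 2 * ε ^ 2 →
    ∃ k0 k1 : ℕ, (Odd k0 ∧ PND k0) ∧ (Odd k1 ∧ PND k1) ∧ k0 ≤ k1 ∧ k1 ≤ 2 * k0 ∧
      0.09 * √(N:ℝ) * Real.log N ≤ Real.log k0 ∧
      (2 * Real.exp v - 2 + 400000001 / N) * √(k0:ℝ) ≤ g k1 ∧ (1/4) * √(k0:ℝ) ≤ g k0 ∧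
      (∀ n, n ≤ k0 → Odd n → PND n → g n ≤ (2 * Real.exp v - 2 + 400000000 / N) * √(k0:ℝ)) ∧
      (∀ b, B2 b → k0 < b → b ≤ k1 → (∏ p ∈ b.primeFactors, p = b) ∧
        ∀ p ∈ b.primeFactors, p ≤ 135 * N) := by
  classical
  set C2 : ℝ := 12 * 400000001 with hC2
  have hv0 : 0 ≤ v := by
    by_contra h
    push Not at h
    have := Real.exp_le_exp.2 h.le
    rw [Real.exp_zero] at this
    linarith
  filter_upwards [construct C2 (by norm_num), upper hv hV2 hV8, eventually_ge_atTop 10000000000]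
    with N hcon hupp hN A ε hε0 hε1 hε2 hA hmA hwA
  obtain ⟨F0, F', hF0, hF', hp1, hp2, hcov⟩ := hcon ε hε1 hε2
  have hNr : (10000000000:ℝ) ≤ N := by exact_mod_cast hN
  set x : ℝ := (N:ℝ) with hx
  have hx0 : 0 < x := by linarith
  obtain ⟨k0, hk0o, hk0P, hk0e, hk0r⟩ := near (by omega) hv0 hA hε0 hε2 hmA hwA hF0
  obtain ⟨k1, hk1o, hk1P, hk1e, hk1r⟩ := near (by omega) hv0 hA hε0 hε2 hmA hwA hF'
  have hA1 : 1 ≤ prr A := prr_one_le fun p hp => by have := (hA p hp).1.2; omega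
  have hA0 : 0 < prr A := by linarith
  have hF01 : 1 ≤ prr F0 := prr_one_le fun p hp => by
    have := mem_PI4.1 (hF0.1 hp); omega
  have hk0pos : (0:ℝ) < k0 := by exact_mod_cast hk0P.1
  have hk1pos : (0:ℝ) < k1 := by exact_mod_cast hk1P.1
  have hk01 : (k0:ℝ) * (1 + C2 / x) ≤ k1 := by
    rw [hk0e, hk1e, mul_assoc]
    exact mul_le_mul_of_nonneg_left hp1 hA0.le
  have hk10 : (k1:ℝ) ≤ 2 * k0 := by
    rw [hk0e, hk1e]
    calc prr A * prr F' ≤ prr A * (2 * prr F0) := mul_le_mul_of_nonneg_left hp2 hA0.le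
      _ = _ := by ring
  have hlog0 : 0.09 * √x * Real.log x ≤ Real.log k0 := by
    have h1 := win_log (by omega) hε1 hF0
    refine h1.trans ?_
    rw [hk0e]
    apply Real.log_le_log (by linarith)
    calc prr F0 = 1 * prr F0 := by ring
      _ ≤ prr A * prr F0 := mul_le_mul_of_nonneg_right hA1 (by linarith)
  have hV0 : 1/4 ≤ 2 * Real.exp v - 2 := by linarith
  have h006 : 0 < 0.06 / x := by positivity
  have hC2x0 : 0 < C2 / x := by positivity
  have hlogx : 0 ≤ √x * Real.log x := mul_nonneg (Real.sqrt_nonneg _) (Real.log_nonneg (by linarith))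
  refine ⟨k0, k1, ⟨hk0o, hk0P⟩, ⟨hk1o, hk1P⟩, ?_, ?_, hlog0, ?_, ?_, ?_, ?_⟩
  · have : (k0:ℝ) ≤ k1 := by
      refine le_trans ?_ hk01
      nlinarith
    exact_mod_cast this
  · exact_mod_cast hk10
  · -- g k1 lower bound
    have h1 : g k1 = ((k1:ℝ) / (Nat.totient k1 : ℝ) - 2) * √(k1:ℝ) := rfl
    rw [h1]
    have h2 : √(k0:ℝ) * (1 + C2 / x / 3) ≤ √(k1:ℝ) := by
      have h3 : √(k0:ℝ) * (1 + C2 / x / 3) = √((k0:ℝ) * (1 + C2 / x / 3) ^ 2) := by
        rw [Real.sqrt_mul hk0pos.le, Real.sqrt_sq (by positivity)]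
      rw [h3]
      apply Real.sqrt_le_sqrt
      refine le_trans ?_ hk01
      apply mul_le_mul_of_nonneg_left _ hk0pos.le
      have h4 : C2 / x ≤ 1 := by
        rw [div_le_one hx0, hC2]; linarith
      nlinarith
    have h5 : (2 * Real.exp v - 2 + 400000001 / x) * √(k0:ℝ) ≤
        (2 * Real.exp v - 2) * (√(k0:ℝ) * (1 + C2 / x / 3)) := by
      have h6 : 400000001 / x ≤ (2 * Real.exp v - 2) * (C2 / x / 3) := by
        calc 400000001 / x = 1/4 * (C2 / x / 3) := by rw [hC2]; ring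
          _ ≤ _ := mul_le_mul_of_nonneg_right hV0 (by positivity)
      have h7 : (2 * Real.exp v - 2) * (√(k0:ℝ) * (1 + C2 / x / 3)) =
          (2 * Real.exp v - 2 + (2 * Real.exp v - 2) * (C2 / x / 3)) * √(k0:ℝ) := by ring
      rw [h7]
      apply mul_le_mul_of_nonneg_right _ (Real.sqrt_nonneg _)
      linarith
    refine h5.trans ?_
    calc (2 * Real.exp v - 2) * (√(k0:ℝ) * (1 + C2 / x / 3)) ≤ (2 * Real.exp v - 2) * √(k1:ℝ) :=
          mul_le_mul_of_nonneg_left h2 (by linarith)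
      _ ≤ _ := mul_le_mul_of_nonneg_right (by linarith) (Real.sqrt_nonneg _)
  · have h1 : g k0 = ((k0:ℝ) / (Nat.totient k0 : ℝ) - 2) * √(k0:ℝ) := rfl
    rw [h1]
    apply mul_le_mul_of_nonneg_right _ (Real.sqrt_nonneg _)
    linarith
  · intro n hn hno hnP
    refine hupp k0 hk0P.1 ?_ n hn hno hnP
    refine le_trans ?_ hlog0
    have e1 : 0.08 * √x * Real.log x = 0.08 * (√x * Real.log x) := by ring
    have e2 : 0.09 * √x * Real.log x = 0.09 * (√x * Real.log x) := by ring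
    rw [e1, e2]
    linarith
  · intro b hb hkb hbk
    obtain ⟨hbo, hbP, hbrec⟩ := hb
    have hb0 : (0:ℝ) < b := by exact_mod_cast hbP.1
    obtain ⟨F'', hF'', hc1, hc2⟩ := hcov ((b:ℝ) / prr A) (by
      rw [lt_div_iff₀ hA0, mul_comm, ← hk0e]
      exact_mod_cast hkb) (by
      rw [div_le_iff₀ hA0, mul_comm, ← hk1e]
      exact_mod_cast hbk)
    obtain ⟨k, hko, hkP, hke, hkr⟩ := near (by omega) hv0 hA hε0 hε2 hmA hwA hF''
    have hkpos : (0:ℝ) < k := by exact_mod_cast hkP.1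
    have hkb' : (k:ℝ) < b := by
      rw [lt_div_iff₀ hA0, mul_comm, ← hke] at hc1
      exact hc1
    have hbk' : (b:ℝ) ≤ k * (1 + 0.02 / x) := by
      rw [div_le_iff₀ hA0] at hc2
      rw [hke]
      calc (b:ℝ) ≤ prr F'' * (1 + 0.02 / x) * prr A := hc2
        _ = _ := by ring
    have hgb := hbrec k (by exact_mod_cast hkb') hko hkP
    set R : ℝ := (b:ℝ) / (Nat.totient b : ℝ) with hR
    have hgb1 : g b = (R - 2) * √(b:ℝ) := rfl
    have hgk1 : g k = ((k:ℝ) / (Nat.totient k : ℝ) - 2) * √(k:ℝ) := rfl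
    have hsk : 0 < √(k:ℝ) := Real.sqrt_pos.2 hkpos
    have hsb : 0 < √(b:ℝ) := Real.sqrt_pos.2 hb0
    have h1 : (2 * Real.exp v - 2 + 0.06 / x) * √(k:ℝ) < (R - 2) * √(b:ℝ) := by
      rw [hgb1, hgk1] at hgb
      refine lt_of_le_of_lt ?_ hgb
      exact mul_le_mul_of_nonneg_right hkr hsk.le
    have hRpos : 0 < R - 2 := by
      by_contra hneg
      push Not at hneg
      have h2 : (R - 2) * √(b:ℝ) ≤ 0 := mul_nonpos_of_nonpos_of_nonneg hneg hsb.le
      have h3 : 0 < (2 * Real.exp v - 2 + 0.06 / x) * √(k:ℝ) := mul_pos (by linarith) hsk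
      linarith
    have h2 : √(b:ℝ) ≤ √(k:ℝ) * (1 + 0.01 / x) := by
      have h3 : √(k:ℝ) * (1 + 0.01 / x) = √((k:ℝ) * (1 + 0.01 / x) ^ 2) := by
        rw [Real.sqrt_mul hkpos.le, Real.sqrt_sq (by positivity)]
      rw [h3]
      apply Real.sqrt_le_sqrt
      refine hbk'.trans ?_
      apply mul_le_mul_of_nonneg_left _ hkpos.le
      have e1 : (1 + 0.01 / x) ^ 2 = 1 + 0.02 / x + (0.01 / x) ^ 2 := by ring
      rw [e1]
      have : 0 ≤ (0.01 / x) ^ 2 := by positivity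
      linarith
    have h3 : (2 * Real.exp v - 2 + 0.06 / x) < (R - 2) * (1 + 0.01 / x) := by
      have h4 : (2 * Real.exp v - 2 + 0.06 / x) * √(k:ℝ) < ((R - 2) * (1 + 0.01 / x)) * √(k:ℝ) := by
        refine lt_of_lt_of_le h1 ?_
        calc (R - 2) * √(b:ℝ) ≤ (R - 2) * (√(k:ℝ) * (1 + 0.01 / x)) :=
              mul_le_mul_of_nonneg_left h2 hRpos.le
          _ = _ := by ring
      exact lt_of_mul_lt_mul_right h4 hsk.le
    have hRlo : 2 * Real.exp v + 0.03 / x < R := by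
      by_contra hcon
      push Not at hcon
      have h4 : (R - 2) * (1 + 0.01 / x) ≤ (2 * Real.exp v + 0.03 / x - 2) * (1 + 0.01 / x) :=
        mul_le_mul_of_nonneg_right (by linarith) (by positivity)
      have h5 : (2 * Real.exp v + 0.03 / x - 2) * (1 + 0.01 / x) =
          2 * Real.exp v - 2 + 0.03 / x + (2 * Real.exp v + 0.03 / x - 2) * (0.01 / x) := by ring
      have h6 : (2 * Real.exp v + 0.03 / x - 2) * (0.01 / x) ≤ 3 * (0.01 / x) := by
        apply mul_le_mul_of_nonneg_right _ (by positivity)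
        have : 0.03 / x ≤ 1 := by rw [div_le_one hx0]; linarith
        linarith
      have h7 : (3:ℝ) * (0.01 / x) = 0.03 / x := by ring
      have h8 : (0.06:ℝ) / x = 0.03 / x + 0.03 / x := by ring
      linarith
    have h003 : 0 < 0.03 / x := by positivity
    have hsq := squarefree_of_ratio hv hbo hbP (by rw [← hR]; linarith)
    refine ⟨hsq, ?_⟩
    intro p hp
    have hlt := ratio_lt_prime hv hbo hbP hsq hp
    rw [← hR] at hlt
    have hp3 : (3:ℝ) ≤ p := by exact_mod_cast (op_of_odd hbo p hp).2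
    have hp1' : 0 < (p:ℝ) - 1 := by linarith
    have h4 : 0.03 / x < 4 / ((p:ℝ) - 1) := by
      have h5 : 2 * Real.exp v * (1 + 1 / ((p:ℝ) - 1)) = 2 * Real.exp v + 2 * Real.exp v * (1 / ((p:ℝ) - 1)) := by
        ring
      have h6 : 2 * Real.exp v * (1 / ((p:ℝ) - 1)) ≤ 4 * (1 / ((p:ℝ) - 1)) :=
        mul_le_mul_of_nonneg_right (by linarith) (by positivity)
      have h7 : 4 / ((p:ℝ) - 1) = 4 * (1 / ((p:ℝ) - 1)) := by ring
      rw [h7]
      linarith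
    rw [div_lt_div_iff₀ hx0 hp1'] at h4
    have h5 : (p:ℝ) ≤ 135 * x := by linarith
    have h6 : (p:ℝ) ≤ ((135 * N : ℕ) : ℝ) := by push_cast; exact h5
    exact_mod_cast h6

end Pool.Agent.R40
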