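import Pool.Agent.R40.Arith

set_option autoImplicit false

open Finset Filter Topology

namespace Pool.Agent.R40

/-- the log of a squarefree number is at most the number of primes times the log of the largest -/
lemma log_le_card {n P : ℕ} (hsq : ∏ p ∈ n.primeFactors, p = n)
    (hP : ∀ p ∈ n.primeFactors, p ≤ P) : Real.log n ≤ n.primeFactors.card * Real.log P := by
  have h1 : Real.log n = ∑ p ∈ n.primeFactors, Real.log p := by
    conv_lhs => rw [← hsq]
    rw [Nat.cast_prod, Real.log_prod]
    intro p hp
    have := (Nat.prime_of_mem_primeFactors hp).pos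
    have : (0:ℝ) < p := by exact_mod_cast this
    exact this.ne'
  rw [h1]
  calc ∑ p ∈ n.primeFactors, Real.log p ≤ ∑ p ∈ n.primeFactors, Real.log P := by
        apply sum_le_sum
        intro p hp
        apply Real.log_le_log
        · exact_mod_cast (Nat.prime_of_mem_primeFactors hp).pos
        · exact_mod_cast hP p hp
    _ = _ := by rw [sum_const, nsmul_eq_mul]

/-- number of primes of a squarefree number of large ratio -/
lemma card_bound {v : ℝ} {b0 : ℕ} (hb0 : 1 ≤ b0) (htail : ∀ m : Finset ℕ,
    (∀ p ∈ m, OP p) → mass m ≤ Real.log 2 → ∀ T : ℕ, b0 ≤ T → v - wt m < 1 / (2 * (T:ℝ) ^ 2) →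
    mass (m.filter (fun p => 4 * T < p)) ≤ 16 / T) {n P : ℕ} (hodd : Odd n) (hPND : PND n)
    (hsq : ∏ p ∈ n.primeFactors, p = n) (hP : P ∈ n.primeFactors) (hPm : ∀ p ∈ n.primeFactors, p ≤ P)
    (hr : 2 * Real.exp v ≤ (n:ℝ) / (Nat.totient n : ℝ)) (hPb : 2 * b0 ^ 2 + 3 ≤ P) :
    (n.primeFactors.card : ℝ) ≤ 101 * √(P:ℝ) := by
  classical
  set m := n.primeFactors.erase P with hm
  have hOP := op_of_odd hodd
  have hmOP : ∀ p ∈ m, OP p := fun p hp => hOP p (mem_of_mem_erase hp)
  have hmass := erase_mass_lt hPND hsq hP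
  rw [← hm] at hmass
  have hPP := (hOP P hP)
  have hP3 : (3:ℝ) ≤ P := by exact_mod_cast hPP.2
  set T := Nat.sqrt ((P - 1) / 2) with hT
  have hT1 : T * T ≤ (P - 1) / 2 := Nat.sqrt_le _
  have hT2 : (P - 1) / 2 < (T + 1) * (T + 1) := by
    have := Nat.lt_succ_sqrt' ((P - 1) / 2)
    rw [← hT] at this
    simpa [Nat.succ_eq_add_one, pow_two] using this
  have hbT : b0 ≤ T := by
    rw [hT, Nat.le_sqrt]
    have : b0 * b0 = b0 ^ 2 := by ring
    rw [this]
    omega
  have hTpos : 1 ≤ T := hb0.trans hbT
  have hT0 : (1:ℝ) ≤ T := by exact_mod_cast hTpos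
  have hT1' : 2 * ((T:ℝ) ^ 2) ≤ P - 1 := by
    have h1 : 2 * (T * T) + 1 ≤ P := by
      have := hPP.2
      omega
    have h2 : 2 * ((T:ℝ) * T) + 1 ≤ P := by exact_mod_cast h1
    nlinarith
  have hT2' : (P:ℝ) ≤ 9 * (T:ℝ) ^ 2 := by
    have h1 : P ≤ 2 * ((T + 1) * (T + 1)) := by omega
    have h2 : (P:ℝ) ≤ 2 * (((T:ℝ) + 1) * (T + 1)) := by exact_mod_cast h1
    nlinarith
  -- log of the ratio
  have hlog : Real.log 2 + v ≤ mass n.primeFactors + wt n.primeFactors := by
    rw [ratio_eq hPND.1] at hr
    have h2 : 2 * Real.exp v = Real.exp (Real.log 2 + v) := by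
      rw [Real.exp_add, Real.exp_log (by norm_num)]
    rw [h2] at hr
    exact Real.exp_le_exp.1 hr
  have e1 : mass n.primeFactors = ell P + mass m := (add_sum_erase _ _ hP).symm
  have e2 : wt n.primeFactors = ww P + wt m := (add_sum_erase _ _ hP).symm
  have e3 : ell P + ww P ≤ 1 / ((P:ℝ) - 1) := by
    have h1 := ell_le (p := P) (by have := hPP.2; omega)
    have h2 := ww_le_tele (p := P) (by have := hPP.2; omega)
    linarith
  have hopt : v - wt m < 1 / (2 * (T:ℝ) ^ 2) := by
    have h1 : v - wt m < 1 / ((P:ℝ) - 1) := by linarith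
    refine lt_of_lt_of_le h1 ?_
    apply one_div_le_one_div_of_le (by positivity) hT1'
  have htl := htail m hmOP hmass.le T hbT hopt
  set m1 := m.filter (fun p => 4 * T < p) with hm1
  set m2 := m.filter (fun p => ¬ 4 * T < p) with hm2
  have hc1 : (m1.card : ℝ) ≤ 16 * (P + 1) / T := by
    have h1 : ∑ p ∈ m1, (1 / ((P:ℝ) + 1)) ≤ mass m1 := by
      apply sum_le_sum
      intro p hp
      have hp' := (mem_filter.1 hp).1
      have h2 := hmOP p hp'
      refine le_trans ?_ (le_ell (by have := h2.2; omega))
      have h3 : (p:ℝ) ≤ P := by exact_mod_cast hPm p (mem_of_mem_erase hp')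
      apply one_div_le_one_div_of_le (by positivity) (by linarith)
    rw [sum_const, nsmul_eq_mul, mul_one_div] at h1
    have h2 := h1.trans htl
    rw [div_le_div_iff₀ (by positivity) (by positivity)] at h2
    rw [le_div_iff₀ (by positivity)]
    exact h2
  have hc2 : (m2.card : ℝ) ≤ 4 * T := by
    have h1 : m2 ⊆ Finset.Icc 1 (4 * T) := by
      intro p hp
      rw [hm2, mem_filter] at hp
      rw [mem_Icc]
      have := (hmOP p hp.1).2
      omega
    have h2 := card_le_card h1
    rw [Nat.card_Icc, Nat.add_sub_cancel] at h2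
    exact_mod_cast h2
  have hc3 : (n.primeFactors.card : ℝ) = m1.card + m2.card + 1 := by
    have h1 : m1.card + m2.card = m.card := card_filter_add_card_filter_not _
    have h2 : m.card + 1 = n.primeFactors.card := card_erase_add_one hP
    rw [← h2, ← h1]
    push_cast; ring
  set t := √(P:ℝ) with ht
  have ht2 : t ^ 2 = P := Real.sq_sqrt (by linarith)
  have ht0 : 0 < t := Real.sqrt_pos.2 (by linarith)
  have ht1 : 1 ≤ t := by
    rw [ht, Real.one_le_sqrt]; linarith
  have hTt : (T:ℝ) ≤ t := by
    apply Real.le_sqrt_of_sq_le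
    nlinarith
  have htT : t ≤ 3 * T := by
    rw [ht, Real.sqrt_le_left (by positivity)]
    nlinarith
  have h5 : 16 * ((P:ℝ) + 1) / T ≤ 96 * t := by
    rw [div_le_iff₀ (by positivity), ← ht2]
    have : t * t ≤ 3 * T * t := mul_le_mul_of_nonneg_right htT ht0.le
    nlinarith
  rw [hc3]
  linarith

theorem upper {v : ℝ} (hv : Bnd v) (hv2 : Real.exp v ≤ 2) (hv8 : 9/8 ≤ Real.exp v) :
    ∀ᶠ N : ℕ in atTop, ∀ K : ℕ, 1 ≤ K → 0.08 * √(N:ℝ) * Real.log N ≤ Real.log K →
    ∀ n, n ≤ K → Odd n → PND n → g n ≤ (2 * Real.exp v - 2 + 400000000 / N) * √(K:ℝ) := by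
  classical
  obtain ⟨b0, hb0, htail⟩ := tail_bound hv
  set P0 : ℕ := 2 * b0 ^ 2 + 3 with hP0
  have ht : Tendsto (fun x : ℝ => √x * Real.log x) atTop atTop :=
    Filter.Tendsto.atTop_mul_atTop₀ Real.tendsto_sqrt_atTop Real.tendsto_log_atTop
  filter_upwards [tendsto_natCast_atTop_atTop.eventually (ht.eventually_ge_atTop (200 + 100 * (P0 * Real.log P0))),
    eventually_ge_atTop 100000000] with N hN1 hN2 K hK hKlog n hnK hodd hP
  have hx : (100000000:ℝ) ≤ (N:ℝ) := by exact_mod_cast hN2
  set x : ℝ := (N:ℝ) with hxdef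
  have hx0 : 0 < x := by linarith
  set V := Real.exp v with hV
  have hKr : (1:ℝ) ≤ K := by exact_mod_cast hK
  have hn0 : 0 < n := hP.1
  have hnr : (0:ℝ) < n := by exact_mod_cast hn0
  have hnKr : (n:ℝ) ≤ K := by exact_mod_cast hnK
  have hsqle : √(n:ℝ) ≤ √(K:ℝ) := Real.sqrt_le_sqrt hnKr
  have hn0' : 0 ≤ √(n:ℝ) := Real.sqrt_nonneg _
  have hK0' : 0 ≤ √(K:ℝ) := Real.sqrt_nonneg _
  have hbase : 0 ≤ 2 * V - 2 + 400000000 / x := by
    have : 0 ≤ 400000000 / x := by positivity
    linarith
  set r : ℝ := (n:ℝ) / (Nat.totient n : ℝ) with hr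
  have hg : g n = (r - 2) * √(n:ℝ) := rfl
  rw [hg]
  by_cases hcase : r < 2 * V
  · have h1 : (r - 2) * √(n:ℝ) ≤ (2 * V - 2 + 400000000 / x) * √(n:ℝ) := by
      apply mul_le_mul_of_nonneg_right _ hn0'
      have : 0 ≤ 400000000 / x := by positivity
      linarith
    exact h1.trans (mul_le_mul_of_nonneg_left hsqle hbase)
  · push Not at hcase
    have hsq := squarefree_of_ratio hv hodd hP hcase
    have hne : n.primeFactors.Nonempty := by
      rw [Finset.nonempty_iff_ne_empty]
      intro h
      rw [h, prod_empty] at hsq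
      have h2 := hP.2.1
      rw [← hsq] at h2
      simp at h2
    set P := n.primeFactors.max' hne with hPdef
    have hPmem : P ∈ n.primeFactors := max'_mem _ _
    have hPm : ∀ p ∈ n.primeFactors, p ≤ P := fun p hp => le_max' _ _ hp
    have hPOP := op_of_odd hodd P hPmem
    have hP3 : (3:ℝ) ≤ P := by exact_mod_cast hPOP.2
    have hrlt := ratio_lt_prime hv hodd hP hsq hPmem
    rw [← hr, ← hV] at hrlt
    by_cases hbig : x / 100000000 ≤ (P:ℝ) - 1
    · have h1 : r - 2 ≤ 2 * V - 2 + 400000000 / x := by
        have h2 : 2 * V * (1 / ((P:ℝ) - 1)) ≤ 400000000 / x := by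
          have h3 : 1 / ((P:ℝ) - 1) ≤ 100000000 / x := by
            have h4 : 100000000 / x = 1 / (x / 100000000) := by field_simp
            rw [h4]
            apply one_div_le_one_div_of_le (by positivity) hbig
          calc 2 * V * (1 / ((P:ℝ) - 1)) ≤ 4 * (100000000 / x) := by
                apply mul_le_mul (by linarith) h3 _ (by norm_num)
                have : 0 < (P:ℝ) - 1 := by linarith
                positivity
            _ = 400000000 / x := by ring
        have h5 : 2 * V * (1 + 1 / ((P:ℝ) - 1)) = 2 * V + 2 * V * (1 / ((P:ℝ) - 1)) := by ring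
        linarith
      calc (r - 2) * √(n:ℝ) ≤ (2 * V - 2 + 400000000 / x) * √(n:ℝ) := mul_le_mul_of_nonneg_right h1 hn0'
        _ ≤ _ := mul_le_mul_of_nonneg_left hsqle hbase
    · push Not at hbig
      -- n is much smaller than K
      have hlogP0 : 0 ≤ Real.log P := Real.log_nonneg (by linarith)
      have hlogx : 0 < Real.log x := Real.log_pos (by linarith)
      have hn1 := log_le_card hsq hPm
      have hlogn : Real.log n ≤ 0.03 * (√x * Real.log x) := by
        by_cases hPb : P0 ≤ P
        · have hcb := card_bound hb0 htail hodd hP hsq hPmem hPm hcase hPb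
          have hPx : (P:ℝ) ≤ x * (2 / 10000) ^ 2 := by
            have : x / 100000000 + 1 ≤ x * (2 / 10000) ^ 2 := by
              have e : x * (2 / 10000) ^ 2 = x / 100000000 + 3 * (x / 100000000) := by ring
              rw [e]
              have : 1 ≤ x / 100000000 := by
                rw [le_div_iff₀ (by norm_num)]; linarith
              linarith
            linarith
          have h1 : √(P:ℝ) ≤ √x * (2 / 10000) := by
            calc √(P:ℝ) ≤ √(x * (2 / 10000) ^ 2) := Real.sqrt_le_sqrt hPx
              _ = √x * (2 / 10000) := by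
                rw [Real.sqrt_mul hx0.le, Real.sqrt_sq (by norm_num)]
          have h2 : Real.log P ≤ Real.log x := by
            apply Real.log_le_log (by linarith)
            have : x * (2 / 10000) ^ 2 ≤ x * 1 := by
              apply mul_le_mul_of_nonneg_left _ hx0.le
              norm_num
            linarith
          calc Real.log n ≤ n.primeFactors.card * Real.log P := hn1
            _ ≤ (101 * √(P:ℝ)) * Real.log P := mul_le_mul_of_nonneg_right hcb hlogP0
            _ ≤ (101 * (√x * (2 / 10000))) * Real.log x := by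
                apply mul_le_mul (by linarith) h2 hlogP0 (by positivity)
            _ = 0.0202 * (√x * Real.log x) := by ring
            _ ≤ 0.03 * (√x * Real.log x) := by
                apply mul_le_mul_of_nonneg_right (by norm_num) (by positivity)
        · push Not at hPb
          have h1 : (n.primeFactors.card : ℝ) ≤ P0 := by
            have h2 : n.primeFactors ⊆ Finset.Icc 1 P0 := by
              intro p hp
              rw [mem_Icc]
              have h3 := hPm p hp
              have h4 := (Nat.prime_of_mem_primeFactors hp).pos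
              omega
            have h3 := card_le_card h2
            rw [Nat.card_Icc, Nat.add_sub_cancel] at h3
            exact_mod_cast h3
          have h2 : Real.log P ≤ Real.log P0 := by
            apply Real.log_le_log (by linarith)
            exact_mod_cast hPb.le
          calc Real.log n ≤ n.primeFactors.card * Real.log P := hn1
            _ ≤ P0 * Real.log P0 := mul_le_mul h1 h2 hlogP0 (by positivity)
            _ ≤ 0.03 * (√x * Real.log x) := by
                have : 0 ≤ (P0:ℝ) * Real.log P0 := by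
                  apply mul_nonneg (by positivity)
                  apply Real.log_nonneg
                  rw [hP0]; push_cast
                  nlinarith [sq_nonneg (b0:ℝ)]
                linarith
      have hlogdiff : Real.log n ≤ Real.log K - 10 := by
        have e1 : 0.08 * √x * Real.log x = 0.08 * (√x * Real.log x) := by ring
        rw [e1] at hKlog
        have : 200 ≤ √x * Real.log x := by
          have : 0 ≤ (P0:ℝ) * Real.log P0 := by
            apply mul_nonneg (by positivity)
            apply Real.log_nonneg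
            rw [hP0]; push_cast
            nlinarith [sq_nonneg (b0:ℝ)]
          linarith
        linarith
      have hsqrtn : √(n:ℝ) ≤ √(K:ℝ) * Real.exp (-5) := by
        have h1 : (n:ℝ) ≤ K * Real.exp (-10) := by
          rw [← Real.exp_log hnr, ← Real.exp_log (show (0:ℝ) < K by linarith), ← Real.exp_add]
          exact Real.exp_le_exp.2 (by linarith)
        calc √(n:ℝ) ≤ √(K * Real.exp (-10)) := Real.sqrt_le_sqrt h1
          _ = √(K:ℝ) * Real.exp (-5) := by
            rw [Real.sqrt_mul (by linarith), ← Real.exp_half]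
            norm_num
      have hr4 : r - 2 ≤ 4 := by
        have h1 : 1 / ((P:ℝ) - 1) ≤ 1 / 2 := by
          apply one_div_le_one_div_of_le (by norm_num) (by linarith)
        have h2 : 2 * V * (1 + 1 / ((P:ℝ) - 1)) ≤ 4 * (1 + 1/2) := by
          apply mul_le_mul (by linarith) (by linarith) _ (by norm_num)
          have : 0 < (P:ℝ) - 1 := by linarith
          positivity
        linarith
      have hexp5 : Real.exp (-5) ≤ 1 / 16 := by
        rw [Real.exp_neg, ← one_div]
        apply one_div_le_one_div_of_le (by norm_num)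
        have h1 : Real.exp 5 = Real.exp 1 ^ 5 := by rw [← Real.exp_nat_mul]; norm_num
        rw [h1]
        have h2 : (2:ℝ) ≤ Real.exp 1 := by
          have := Real.add_one_le_exp (1:ℝ)
          linarith
        calc (16:ℝ) ≤ 2 ^ 5 := by norm_num
          _ ≤ Real.exp 1 ^ 5 := pow_le_pow_left₀ (by norm_num) h2 5
      calc (r - 2) * √(n:ℝ) ≤ 4 * √(n:ℝ) := mul_le_mul_of_nonneg_right hr4 hn0'
        _ ≤ 4 * (√(K:ℝ) * (1/16)) := by
            apply mul_le_mul_of_nonneg_left _ (by norm_num)
            exact hsqrtn.trans (mul_le_mul_of_nonneg_left hexp5 hK0')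
        _ = (1/4) * √(K:ℝ) := by ring
        _ ≤ _ := by
            apply mul_le_mul_of_nonneg_right _ hK0'
            have : 0 ≤ 400000000 / x := by positivity
            linarith

end Pool.Agent.R40
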